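import Pool.Agent.Lib.MP_23961f_co.WC.Defs

/-!
# Chordal completions: restriction, absence of induced 4-cycles, exchange lemma
-/

set_option autoImplicit false

namespace Pool.Agent.Lib.MP_23961f_co.WC

variable {V : Type*} {h : ℕ} {W : Set V} {F : V → V → Prop}

theorem Chord.supp (hc : Chord h W F) {u v : V} (huv : F u v) : u ∈ W ∧ v ∈ W := by
  induction hc with
  | base W hW => exact huv
  | glue h1 h2 hq1 hq2 ih1 ih2 =>
    rcases huv with huv | huv
    · exact ⟨Or.inl (ih1 huv).1, Or.inl (ih1 huv).2⟩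
    · exact ⟨Or.inr (ih2 huv).1, Or.inr (ih2 huv).2⟩

theorem Chord.symm (hc : Chord h W F) {u v : V} (huv : F u v) : F v u := by
  induction hc with
  | base W hW => exact ⟨huv.2, huv.1⟩
  | glue h1 h2 hq1 hq2 ih1 ih2 =>
    rcases huv with huv | huv
    · exact Or.inl (ih1 huv)
    · exact Or.inr (ih2 huv)

theorem Chord.refl (hc : Chord h W F) {u : V} (hu : u ∈ W) : F u u := by
  induction hc with
  | base W hW => exact ⟨hu, hu⟩
  | glue h1 h2 hq1 hq2 ih1 ih2 =>
    rcases hu with hu | hu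
    · exact Or.inl (ih1 hu)
    · exact Or.inr (ih2 hu)

theorem Chord.congr {W' : Set V} {F' : V → V → Prop} (hc : Chord h W F) (hW : W = W')
    (hF : ∀ u v, F u v ↔ F' u v) : Chord h W' F' := by
  have hFF : F = F' := by
    funext u v
    exact propext (hF u v)
  subst hW
  subst hFF
  exact hc

theorem Chord.mono {h' : ℕ} (hc : Chord h W F) (hh : h ≤ h') : Chord h' W F := by
  induction hc with
  | base W hW => exact Chord.base W (hW.trans hh)
  | glue h1 h2 hq1 hq2 ih1 ih2 => exact Chord.glue ih1 ih2 hq1 hq2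

theorem Chord.restrict [Finite V] (hc : Chord h W F) (S : Set V) :
    Chord h (W ∩ S) (fun u v => F u v ∧ u ∈ S ∧ v ∈ S) := by
  induction hc with
  | base W hW =>
    refine Chord.congr (Chord.base (W ∩ S)
      ((Set.ncard_le_ncard Set.inter_subset_left (Set.toFinite W)).trans hW)) rfl ?_
    intro u v
    constructor
    · rintro ⟨⟨a, b⟩, c, d⟩
      exact ⟨⟨a, c⟩, b, d⟩
    · rintro ⟨⟨a, c⟩, b, d⟩
      exact ⟨⟨a, b⟩, c, d⟩
  | @glue W₁ W₂ F₁ F₂ h1 h2 hq1 hq2 ih1 ih2 =>
    refine Chord.congr (Chord.glue ih1 ih2 ?_ ?_) ?_ ?_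
    · rintro u ⟨⟨hu1, huS⟩, hu2, _⟩ v ⟨⟨hv1, hvS⟩, hv2, _⟩
      exact ⟨hq1 u ⟨hu1, hu2⟩ v ⟨hv1, hv2⟩, huS, hvS⟩
    · rintro u ⟨⟨hu1, huS⟩, hu2, _⟩ v ⟨⟨hv1, hvS⟩, hv2, _⟩
      exact ⟨hq2 u ⟨hu1, hu2⟩ v ⟨hv1, hv2⟩, huS, hvS⟩
    · exact (Set.union_inter_distrib_right W₁ W₂ S).symm
    · intro u v
      constructor
      · rintro (⟨a, b⟩ | ⟨a, b⟩)
        · exact ⟨Or.inl a, b⟩
        · exact ⟨Or.inr a, b⟩
      · rintro ⟨a | a, b⟩
        · exact Or.inl ⟨a, b⟩
        · exact Or.inr ⟨a, b⟩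

/-- no induced 4-cycle, in the form with sets (`A`, `B` need not be disjoint).
Induction on `hc`. For glue, with `Q = W₁ ∩ W₂`: `F₁ ∨ F₂` restricted to `W₁` is `F₁` (as `Q` is a
clique of both). If `A ∪ B ⊆ W₁` or `⊆ W₂` use the induction hypothesis. Otherwise there are
`x ∈ (A ∪ B) \ W₁` and `y ∈ (A ∪ B) \ W₂`; they are unrelated, so both lie in `A` or both in `B`,
say in `A`; then every `b ∈ B` is related to both, so `b ∈ Q`. -/
theorem Chord.c4free (hc : Chord h W F) {A B : Set V} (hAB : ∀ a ∈ A, ∀ b ∈ B, F a b) :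
    Clq F A ∨ Clq F B := by
  induction hc generalizing A B with
  | base W hW =>
    by_cases hA : A.Nonempty
    · obtain ⟨a, ha⟩ := hA
      right
      intro u hu v hv
      exact ⟨(hAB a ha u hu).2, (hAB a ha v hv).2⟩
    · left
      intro u hu
      exact absurd ⟨u, hu⟩ hA
  | @glue W₁ W₂ F₁ F₂ h1 h2 hq1 hq2 ih1 ih2 =>
    have key1 : ∀ u v, u ∈ W₁ → v ∈ W₁ → (F₁ u v ∨ F₂ u v) → F₁ u v := by
      intro u v hu hv huv
      rcases huv with huv | huv
      · exact huv
      · have := h2.supp huv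
        exact hq1 u ⟨hu, this.1⟩ v ⟨hv, this.2⟩
    have key2 : ∀ u v, u ∈ W₂ → v ∈ W₂ → (F₁ u v ∨ F₂ u v) → F₂ u v := by
      intro u v hu hv huv
      rcases huv with huv | huv
      · have := h1.supp huv
        exact hq2 u ⟨this.1, hu⟩ v ⟨this.2, hv⟩
      · exact huv
    -- the main point, for a set `A` with points outside `W₁` and outside `W₂`
    have main : ∀ A B : Set V, (∀ a ∈ A, ∀ b ∈ B, F₁ a b ∨ F₂ a b) →
        (∃ x ∈ A, x ∉ W₁) → (∃ y ∈ A, y ∉ W₂) → Clq (fun u v => F₁ u v ∨ F₂ u v) B := by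
      rintro A B hAB ⟨x, hxA, hx⟩ ⟨y, hyA, hy⟩
      have hB : ∀ b ∈ B, b ∈ W₁ ∩ W₂ := by
        intro b hb
        constructor
        · rcases hAB y hyA b hb with h | h
          · exact (h1.supp h).2
          · exact absurd (h2.supp h).1 hy
        · rcases hAB x hxA b hb with h | h
          · exact absurd (h1.supp h).1 hx
          · exact (h2.supp h).2
      intro u hu v hv
      exact Or.inl (hq1 u (hB u hu) v (hB v hv))
    have hBA : ∀ b ∈ B, ∀ a ∈ A, F₁ b a ∨ F₂ b a := by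
      intro b hb a ha
      rcases hAB a ha b hb with h | h
      · exact Or.inl (h1.symm h)
      · exact Or.inr (h2.symm h)
    by_cases hS1 : ∀ x ∈ A ∪ B, x ∈ W₁
    · have hAB1 : ∀ a ∈ A, ∀ b ∈ B, F₁ a b := fun a ha b hb =>
        key1 a b (hS1 a (Or.inl ha)) (hS1 b (Or.inr hb)) (hAB a ha b hb)
      rcases ih1 hAB1 with h | h
      · left
        intro u hu v hv
        exact Or.inl (h u hu v hv)
      · right
        intro u hu v hv
        exact Or.inl (h u hu v hv)
    · by_cases hS2 : ∀ x ∈ A ∪ B, x ∈ W₂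
      · have hAB2 : ∀ a ∈ A, ∀ b ∈ B, F₂ a b := fun a ha b hb =>
          key2 a b (hS2 a (Or.inl ha)) (hS2 b (Or.inr hb)) (hAB a ha b hb)
        rcases ih2 hAB2 with h | h
        · left
          intro u hu v hv
          exact Or.inr (h u hu v hv)
        · right
          intro u hu v hv
          exact Or.inr (h u hu v hv)
      · push Not at hS1 hS2
        obtain ⟨x, hx, hx1⟩ := hS1
        obtain ⟨y, hy, hy2⟩ := hS2
        -- `x` and `y` are unrelated
        have hxy : ¬ (F₁ x y ∨ F₂ x y) := by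
          rintro (h | h)
          · exact hx1 (h1.supp h).1
          · exact hy2 (h2.supp h).2
        have hyx : ¬ (F₁ y x ∨ F₂ y x) := by
          rintro (h | h)
          · exact hx1 (h1.supp h).2
          · exact hy2 (h2.supp h).1
        rcases hx with hx | hx <;> rcases hy with hy | hy
        · exact Or.inr (main A B hAB ⟨x, hx, hx1⟩ ⟨y, hy, hy2⟩)
        · exact absurd (hAB x hx y hy) hxy
        · exact absurd (hAB y hy x hx) hyx
        · exact Or.inl (main B A hBA ⟨x, hx, hx1⟩ ⟨y, hy, hy2⟩)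

/-- Exchange: `z` can be replaced by `a` if `a` is a new vertex or a neighbour of `z`.
Induction on `hc`. Base: `W` is replaced by a set of at most the same size. Glue, `Q = W₁ ∩ W₂`:
if `z ∈ Q` use the induction hypothesis on both sides (`a ∉ Wᵢ` or `Fᵢ z a` holds on both sides);
the new intersection is `(Q ∪ {a}) \ {z}` or `Q \ {z}`, a clique of both. If `z ∈ W₁ \ W₂`, then
`F z a → a ∈ W₁`; use the induction hypothesis on `W₁` only and keep `W₂, F₂`; the intersection
stays `Q`. -/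
theorem Chord.exch [Finite V] (hc : Chord h W F) {z a : V} (hz : z ∈ W) (haz : a ≠ z)
    (ha : a ∉ W ∨ F z a) :
    ∃ F' : V → V → Prop, Chord h ((W ∪ {a}) \ {z}) F' ∧
      (∀ u v, u ≠ z → v ≠ z → F u v → F' u v) ∧ (∀ u, u ≠ z → F z u → F' a u) := by
  induction hc with
  | base W hW =>
    refine ⟨_, Chord.base ((W ∪ {a}) \ {z}) ?_, ?_, ?_⟩
    · have hz' : z ∈ W ∪ {a} := Or.inl hz
      have h1 : ((W ∪ {a}) \ {z}).ncard + 1 ≤ W.ncard + 1 := by
        rw [Set.ncard_diff_singleton_add_one hz' (Set.toFinite _)]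
        exact (Set.ncard_union_le W {a}).trans (by rw [Set.ncard_singleton])
      omega
    · intro u v hu hv huv
      exact ⟨⟨Or.inl huv.1, hu⟩, ⟨Or.inl huv.2, hv⟩⟩
    · intro u hu huv
      exact ⟨⟨Or.inr rfl, haz⟩, ⟨Or.inl huv.2, hu⟩⟩
  | @glue W₁ W₂ F₁ F₂ h1 h2 hq1 hq2 ih1 ih2 =>
    -- one sided case
    have one : ∀ {W₁ W₂ : Set V} {F₁ F₂ : V → V → Prop}, Chord h W₁ F₁ → Chord h W₂ F₂ →
        Clq F₁ (W₁ ∩ W₂) → Clq F₂ (W₁ ∩ W₂) → z ∈ W₁ → z ∉ W₂ →
        (a ∉ W₁ ∪ W₂ ∨ (F₁ z a ∨ F₂ z a)) →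
        (a ∉ W₁ ∨ F₁ z a → ∃ F' : V → V → Prop, Chord h ((W₁ ∪ {a}) \ {z}) F' ∧
          (∀ u v, u ≠ z → v ≠ z → F₁ u v → F' u v) ∧ (∀ u, u ≠ z → F₁ z u → F' a u)) →
        ∃ F' : V → V → Prop, Chord h (((W₁ ∪ W₂) ∪ {a}) \ {z}) F' ∧
          (∀ u v, u ≠ z → v ≠ z → (F₁ u v ∨ F₂ u v) → F' u v) ∧
          (∀ u, u ≠ z → (F₁ z u ∨ F₂ z u) → F' a u) := by
      intro W₁ W₂ F₁ F₂ h1 h2 hq1 hq2 hz1 hz2 ha ih
      have ha1 : a ∉ W₁ ∨ F₁ z a := by
        rcases ha with ha | ha | ha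
        · exact Or.inl (fun h => ha (Or.inl h))
        · exact Or.inr ha
        · exact absurd (h2.supp ha).1 hz2
      have haW2 : a ∈ W₂ → a ∈ W₁ := by
        intro h2a
        rcases ha with ha | ha | ha
        · exact absurd (Or.inr h2a) ha
        · exact (h1.supp ha).2
        · exact absurd (h2.supp ha).1 hz2
      obtain ⟨F', hF', hp1, hp2⟩ := ih ha1
      have hint : ((W₁ ∪ {a}) \ {z}) ∩ W₂ = W₁ ∩ W₂ := by
        ext u
        constructor
        · rintro ⟨⟨hu | hu, hu'⟩, hu2⟩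
          · exact ⟨hu, hu2⟩
          · rw [Set.mem_singleton_iff] at hu
            subst hu
            exact ⟨haW2 hu2, hu2⟩
        · rintro ⟨hu1, hu2⟩
          refine ⟨⟨Or.inl hu1, ?_⟩, hu2⟩
          intro huz
          rw [Set.mem_singleton_iff] at huz
          subst huz
          exact hz2 hu2
      refine ⟨fun u v => F' u v ∨ F₂ u v, Chord.congr (Chord.glue hF' h2 ?_ ?_) ?_
        (fun _ _ => Iff.rfl), ?_, ?_⟩
      · rw [hint]
        intro u hu v hv
        refine hp1 u v ?_ ?_ (hq1 u hu v hv)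
        · rintro rfl
          exact hz2 hu.2
        · rintro rfl
          exact hz2 hv.2
      · rw [hint]
        exact hq2
      · ext u
        constructor
        · rintro (⟨hu | hu, hu'⟩ | hu)
          · exact ⟨Or.inl (Or.inl hu), hu'⟩
          · exact ⟨Or.inr hu, hu'⟩
          · refine ⟨Or.inl (Or.inr hu), ?_⟩
            intro huz
            rw [Set.mem_singleton_iff] at huz
            subst huz
            exact hz2 hu
        · rintro ⟨(hu | hu) | hu, hu'⟩
          · exact Or.inl ⟨Or.inl hu, hu'⟩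
          · exact Or.inr hu
          · exact Or.inl ⟨Or.inr hu, hu'⟩
      · intro u v hu hv huv
        rcases huv with huv | huv
        · exact Or.inl (hp1 u v hu hv huv)
        · exact Or.inr huv
      · intro u hu huv
        rcases huv with huv | huv
        · exact Or.inl (hp2 u hu huv)
        · exact absurd (h2.supp huv).1 hz2
    by_cases hz1 : z ∈ W₁
    · by_cases hz2 : z ∈ W₂
      · -- both sides
        have ha1 : a ∉ W₁ ∨ F₁ z a := by
          by_cases haW : a ∈ W₁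
          · right
            rcases ha with ha | ha | ha
            · exact absurd (Or.inl haW) ha
            · exact ha
            · exact hq1 z ⟨hz1, hz2⟩ a ⟨haW, (h2.supp ha).2⟩
          · exact Or.inl haW
        have ha2 : a ∉ W₂ ∨ F₂ z a := by
          by_cases haW : a ∈ W₂
          · right
            rcases ha with ha | ha | ha
            · exact absurd (Or.inr haW) ha
            · exact hq2 z ⟨hz1, hz2⟩ a ⟨(h1.supp ha).2, haW⟩
            · exact ha
          · exact Or.inl haW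
        obtain ⟨G₁, hG1, hp1, hr1⟩ := ih1 hz1 ha1
        obtain ⟨G₂, hG2, hp2, hr2⟩ := ih2 hz2 ha2
        have hQ : ∀ u, u ∈ ((W₁ ∪ {a}) \ {z}) ∩ ((W₂ ∪ {a}) \ {z}) →
            u = a ∨ (u ∈ W₁ ∩ W₂ ∧ u ≠ z) := by
          rintro u ⟨⟨hu1 | hu1, hu1'⟩, ⟨hu2 | hu2, hu2'⟩⟩
          · exact Or.inr ⟨⟨hu1, hu2⟩, hu1'⟩
          · exact Or.inl hu2
          · exact Or.inl hu1
          · exact Or.inl hu1
        refine ⟨fun u v => G₁ u v ∨ G₂ u v, Chord.congr (Chord.glue hG1 hG2 ?_ ?_) ?_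
          (fun _ _ => Iff.rfl), ?_, ?_⟩
        · intro u hu v hv
          rcases hQ u hu with rfl | ⟨hu1, hu2⟩ <;> rcases hQ v hv with rfl | ⟨hv1, hv2⟩
          · exact hG1.refl hu.1
          · exact hr1 v hv2 (hq1 z ⟨hz1, hz2⟩ v hv1)
          · exact hG1.symm (hr1 u hu2 (hq1 z ⟨hz1, hz2⟩ u hu1))
          · exact hp1 u v hu2 hv2 (hq1 u hu1 v hv1)
        · intro u hu v hv
          rcases hQ u hu with rfl | ⟨hu1, hu2⟩ <;> rcases hQ v hv with rfl | ⟨hv1, hv2⟩
          · exact hG2.refl hu.2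
          · exact hr2 v hv2 (hq2 z ⟨hz1, hz2⟩ v hv1)
          · exact hG2.symm (hr2 u hu2 (hq2 z ⟨hz1, hz2⟩ u hu1))
          · exact hp2 u v hu2 hv2 (hq2 u hu1 v hv1)
        · ext u
          constructor
          · rintro (⟨hu | hu, hu'⟩ | ⟨hu | hu, hu'⟩)
            · exact ⟨Or.inl (Or.inl hu), hu'⟩
            · exact ⟨Or.inr hu, hu'⟩
            · exact ⟨Or.inl (Or.inr hu), hu'⟩
            · exact ⟨Or.inr hu, hu'⟩
          · rintro ⟨(hu | hu) | hu, hu'⟩
            · exact Or.inl ⟨Or.inl hu, hu'⟩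
            · exact Or.inr ⟨Or.inl hu, hu'⟩
            · exact Or.inl ⟨Or.inr hu, hu'⟩
        · intro u v hu hv huv
          rcases huv with huv | huv
          · exact Or.inl (hp1 u v hu hv huv)
          · exact Or.inr (hp2 u v hu hv huv)
        · intro u hu huv
          rcases huv with huv | huv
          · exact Or.inl (hr1 u hu huv)
          · exact Or.inr (hr2 u hu huv)
      · exact one h1 h2 hq1 hq2 hz1 hz2 ha (ih1 hz1)
    · have hz2 : z ∈ W₂ := by
        rcases hz with hz | hz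
        · exact absurd hz hz1
        · exact hz
      have hq1' : Clq F₂ (W₂ ∩ W₁) := by
        rw [Set.inter_comm]
        exact hq2
      have hq2' : Clq F₁ (W₂ ∩ W₁) := by
        rw [Set.inter_comm]
        exact hq1
      have ha' : a ∉ W₂ ∪ W₁ ∨ (F₂ z a ∨ F₁ z a) := by
        rcases ha with ha | ha | ha
        · left
          rw [Set.union_comm]
          exact ha
        · exact Or.inr (Or.inr ha)
        · exact Or.inr (Or.inl ha)
      obtain ⟨F', hF', hp1, hp2⟩ := one h2 h1 hq1' hq2' hz2 hz1 ha' (ih2 hz2)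
      refine ⟨F', ?_, ?_, ?_⟩
      · rw [Set.union_comm W₂ W₁] at hF'
        exact hF'
      · intro u v hu hv huv
        exact hp1 u v hu hv huv.symm
      · intro u hu huv
        exact hp2 u hu huv.symm

end Pool.Agent.Lib.MP_23961f_co.WC
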