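import Pool.Agent.Lib.MP_23961f_co.WC.Hayward
import Pool.Agent.Lib.MP_23961f_co.WC.Chord

/-!
# The base case: no two unrelated pairs
-/

set_option autoImplicit false

namespace Pool.Agent.Lib.MP_23961f_co.WC

variable {V : Type*} {R : V → V → Prop}

/-- the component of `v` in `A` -/
theorem exists_compo (hs : Sym R) (A : Set V) {v : V} (hv : v ∈ A) :
    ∃ E : Set V, E ⊆ A ∧ v ∈ E ∧ Conn R E ∧ ∀ e ∈ E, ∀ x ∈ A, x ∉ E → ¬ R e x := by
  set E : Set V := {x | ∃ D : Set V, D ⊆ A ∧ v ∈ D ∧ x ∈ D ∧ Conn R D} with hE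
  have hvE : v ∈ E := ⟨{v}, by simpa using hv, rfl, rfl, conn_singleton R v⟩
  refine ⟨E, ?_, hvE, ⟨⟨v, hvE⟩, ?_⟩, ?_⟩
  · rintro x ⟨D, hDA, -, hxD, -⟩
    exact hDA hxD
  · intro B hB hBn hBc
    -- find a connected set meeting both parts
    have key : ∃ D : Set V, D ⊆ E ∧ Conn R D ∧ (D ∩ B).Nonempty ∧ (D \ B).Nonempty := by
      by_cases hvB : v ∈ B
      · obtain ⟨x, hxE, hxB⟩ := hBc
        obtain ⟨D, hDA, hvD, hxD, hD⟩ := hxE
        exact ⟨D, fun y hy => ⟨D, hDA, hvD, hy, hD⟩, hD, ⟨v, hvD, hvB⟩, ⟨x, hxD, hxB⟩⟩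
      · obtain ⟨x, hxB⟩ := hBn
        obtain ⟨D, hDA, hvD, hxD, hD⟩ := hB hxB
        exact ⟨D, fun y hy => ⟨D, hDA, hvD, hy, hD⟩, hD, ⟨x, hxD, hxB⟩, ⟨v, hvD, hvB⟩⟩
    obtain ⟨D, hDE, hD, hDB, hDnB⟩ := key
    obtain ⟨a, ha, b, hb, hab⟩ := hD.2 (D ∩ B) Set.inter_subset_left hDB
      (by rw [Set.sdiff_self_inter]; exact hDnB)
    refine ⟨a, ha.2, b, ⟨hDE hb.1, ?_⟩, hab⟩
    intro hbB
    exact hb.2 ⟨hb.1, hbB⟩
  · rintro e ⟨D, hDA, hvD, heD, hD⟩ x hx hxE hex
    apply hxE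
    refine ⟨D ∪ {x}, ?_, Or.inl hvD, Or.inr rfl, ⟨⟨v, Or.inl hvD⟩, ?_⟩⟩
    · rintro y (hy | hy)
      · exact hDA hy
      · rw [Set.mem_singleton_iff] at hy
        rw [hy]; exact hx
    · intro B hB hBn hBc
      by_cases h1 : (D ∩ B).Nonempty
      · by_cases h2 : (D \ B).Nonempty
        · obtain ⟨a, ha, b, hb, hab⟩ := hD.2 (D ∩ B) Set.inter_subset_left h1
            (by rw [Set.sdiff_self_inter]; exact h2)
          exact ⟨a, ha.2, b, ⟨Or.inl hb.1, fun hbB => hb.2 ⟨hb.1, hbB⟩⟩, hab⟩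
        · -- `D ⊆ B`, so `x ∉ B`
          rw [Set.not_nonempty_iff_eq_empty, Set.sdiff_eq_empty] at h2
          obtain ⟨y, hy, hyB⟩ := hBc
          rcases hy with hy | hy
          · exact absurd (h2 hy) hyB
          · rw [Set.mem_singleton_iff] at hy
            subst hy
            exact ⟨e, h2 heD, y, ⟨Or.inr rfl, hyB⟩, hex⟩
      · rw [Set.not_nonempty_iff_eq_empty] at h1
        obtain ⟨y, hy⟩ := hBn
        have hyD : y ∉ D := fun hyD => by
          have : y ∈ D ∩ B := ⟨hyD, hy⟩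
          rw [h1] at this
          exact this
        have hyx : y = x := by
          rcases hB hy with h | h
          · exact absurd h hyD
          · exact h
        subst hyx
        refine ⟨y, hy, e, ⟨Or.inl heD, fun heB => ?_⟩, hs _ _ hex⟩
        have : e ∈ D ∩ B := ⟨heD, heB⟩
        rw [h1] at this
        exact this

/-- Dirac. Strong induction on `W.ncard`. If `W` is a clique take `Q = W`. Otherwise `u, v ∈ W` with
`¬ F u v`; `C` := the component of `v` in `{x ∈ W | ¬ F u x}`; `N := {x ∈ W | x ∉ C, ∃ c ∈ C, F c x}`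
consists of neighbours of `u`, and it is a clique: if `x, x' ∈ N` and `¬ F x x'`, then `common_nb`
(for the relation `F` on `W`, `D := C`, `C := {u}`) gives `c ∈ C` adjacent to both, and
`x, u, x', c` contradicts `hC4`. Induction hypothesis for `C ∪ N` and `W \ C`, glue with
`h = max`. -/
theorem dirac [Finite V] {F : V → V → Prop} (hs : Sym F) (hH : ¬ Hole F) (W : Set V)
    (hr : ∀ u ∈ W, F u u)
    (hC4 : ∀ a ∈ W, ∀ b ∈ W, ∀ c ∈ W, ∀ d ∈ W, F a b → F b c → F c d → F d a →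
      F a c ∨ F b d) :
    ∃ Q, Q ⊆ W ∧ Clq F Q ∧ Chord Q.ncard W (fun u v => F u v ∧ u ∈ W ∧ v ∈ W) := by
  induction hn : W.ncard using Nat.strong_induction_on generalizing W with
  | _ n ih =>
  by_cases hW : Clq F W
  · exact ⟨W, Set.Subset.rfl, hW, (Chord.base W le_rfl).congr rfl
      (fun u v => ⟨fun h => ⟨hW u h.1 v h.2, h.1, h.2⟩, fun h => h.2⟩)⟩
  simp only [Clq, not_forall] at hW
  obtain ⟨u, hu, v, hv, huv⟩ := hW
  obtain ⟨C, hCA, hvC, hC, hCc⟩ := exists_compo hs {x | x ∈ W ∧ ¬ F u x} (v := v) ⟨hv, huv⟩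
  set N : Set V := {x | x ∈ W ∧ x ∉ C ∧ ∃ c ∈ C, F c x} with hN
  have huC : u ∉ C := fun h => (hCA h).2 (hr u hu)
  have hNu : ∀ x ∈ N, F u x := by
    rintro x ⟨hxW, hxC, c, hc, hcx⟩
    by_contra hx
    exact hCc c hc x ⟨hxW, hx⟩ hxC hcx
  have huN : u ∉ N := by
    rintro ⟨-, -, c, hc, hcu⟩
    exact (hCA hc).2 (hs _ _ hcu)
  have hNc : Clq F N := by
    intro x hx x' hx'
    by_contra hxx
    have hne : x ≠ x' := by
      rintro rfl
      exact hxx (hr x hx.1)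
    have hxu : x ≠ u := fun h => huN (h ▸ hx)
    have hxu' : x' ≠ u := fun h => huN (h ▸ hx')
    have hDC : Anti F C {u} := by
      intro d hd c hc
      rw [Set.mem_singleton_iff] at hc
      subst hc
      exact ⟨fun h => huC (h ▸ hd), fun h => (hCA hd).2 (hs _ _ h)⟩
    obtain ⟨d, hd, h1, h2⟩ := common_nb hs hH hC (conn_singleton F u) hDC hne hxx
      ⟨hx.2.1, hx.2.2⟩ ⟨hx'.2.1, hx'.2.2⟩
      ⟨by simpa using hxu, u, rfl, hNu x hx⟩ ⟨by simpa using hxu', u, rfl, hNu x' hx'⟩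
    rcases hC4 x hx.1 u hu x' hx'.1 d (hCA hd).1 (hs _ _ (hNu x hx)) (hNu x' hx') h2 (hs _ _ h1)
      with h | h
    · exact hxx h
    · exact (hCA hd).2 h
  have hCW : C ⊆ W := fun x hx => (hCA hx).1
  have hNW : N ⊆ W := fun x hx => hx.1
  have h1 : (C ∪ N) ⊆ W := Set.union_subset hCW hNW
  have h1' : (C ∪ N).ncard < n := by
    rw [← hn]
    exact Set.ncard_lt_ncard ⟨h1, fun h => by
      rcases h hu with h | h
      · exact huC h
      · exact huN h⟩ (Set.toFinite _)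
  have h2 : W \ C ⊆ W := Set.sdiff_subset
  have h2' : (W \ C).ncard < n := by
    rw [← hn]
    exact Set.ncard_lt_ncard ⟨h2, fun h => (h hv).2 hvC⟩ (Set.toFinite _)
  obtain ⟨Q₁, hQ₁, hc₁, hch₁⟩ := ih _ h1' (C ∪ N) (fun x hx => hr x (h1 hx))
    (fun a ha b hb c hc d hd => hC4 a (h1 ha) b (h1 hb) c (h1 hc) d (h1 hd)) rfl
  obtain ⟨Q₂, hQ₂, hc₂, hch₂⟩ := ih _ h2' (W \ C) (fun x hx => hr x (h2 hx))
    (fun a ha b hb c hc d hd => hC4 a (h2 ha) b (h2 hb) c (h2 hc) d (h2 hd)) rfl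
  have hint : (C ∪ N) ∩ (W \ C) = N := by
    ext x
    constructor
    · rintro ⟨hx | hx, hx'⟩
      · exact absurd hx hx'.2
      · exact hx
    · intro hx
      exact ⟨Or.inr hx, hx.1, hx.2.1⟩
  have hun : (C ∪ N) ∪ (W \ C) = W := by
    ext x
    constructor
    · rintro (hx | hx)
      · exact h1 hx
      · exact hx.1
    · intro hx
      by_cases hxC : x ∈ C
      · exact Or.inl (Or.inl hxC)
      · exact Or.inr ⟨hx, hxC⟩
  have hglue : ∀ h, Q₁.ncard ≤ h → Q₂.ncard ≤ h →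
      Chord h W (fun u v => F u v ∧ u ∈ W ∧ v ∈ W) := by
    intro h hh₁ hh₂
    refine (Chord.glue (hch₁.mono hh₁) (hch₂.mono hh₂) ?_ ?_).congr hun ?_
    · rw [hint]
      intro x hx y hy
      exact ⟨hNc x hx y hy, Or.inr hx, Or.inr hy⟩
    · rw [hint]
      intro x hx y hy
      exact ⟨hNc x hx y hy, ⟨hx.1, hx.2.1⟩, ⟨hy.1, hy.2.1⟩⟩
    · intro x y
      constructor
      · rintro (⟨hxy, hx, hy⟩ | ⟨hxy, hx, hy⟩)
        · exact ⟨hxy, h1 hx, h1 hy⟩
        · exact ⟨hxy, hx.1, hy.1⟩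
      · rintro ⟨hxy, hx, hy⟩
        by_cases hxC : x ∈ C
        · refine Or.inl ⟨hxy, Or.inl hxC, ?_⟩
          by_cases hyC : y ∈ C
          · exact Or.inl hyC
          · exact Or.inr ⟨hy, hyC, x, hxC, hxy⟩
        · by_cases hyC : y ∈ C
          · exact Or.inl ⟨hxy, Or.inr ⟨hx, hxC, y, hyC, hs _ _ hxy⟩, Or.inl hyC⟩
          · exact Or.inr ⟨hxy, ⟨hx, hxC⟩, ⟨hy, hyC⟩⟩
  rcases le_total Q₁.ncard Q₂.ncard with hle | hle
  · exact ⟨Q₂, hQ₂.trans h2, hc₂, hglue _ hle le_rfl⟩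
  · exact ⟨Q₁, hQ₁.trans h1, hc₁, hglue _ le_rfl hle⟩

/-- Base case: `W := {v | ¬ R v v}`, `F := co R`. For `co R` the structure is `W` with `F` on it
(the vertices with `R i i` have a clique of `co R` as co-neighbourhood), for `R` it is
`Qᶜ` with all pairs. -/
theorem base_case [Finite V] (hs : Sym R) (hw : Wch R)
    (hno : ∀ a b c d, R a b → R c d → R a c ∨ R a d ∨ R b c ∨ R b d) :
    ∃ q, Wd q (co R) ∧ Wd (Nat.card V - q) R := by
  have hsc : Sym (co R) := fun u v h h' => h (hs _ _ h')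
  obtain ⟨Q, hQW, hQ, hch⟩ := dirac (F := co R) hsc hw.2 {v | ¬ R v v} (fun u hu => hu)
    (by
      intro a _ b _ c _ d _ hab hbc hcd hda
      by_contra hcon
      simp only [co, not_or, not_not] at hcon
      rcases hno a c b d hcon.1 hcon.2 with h | h | h | h
      · exact hab h
      · exact hda (hs _ _ h)
      · exact hbc (hs _ _ h)
      · exact hcd h)
  refine ⟨Q.ncard, ⟨{v | ¬ R v v},
    fun u v => co R u v ∧ u ∈ {v | ¬ R v v} ∧ v ∈ {v | ¬ R v v}, ?_⟩,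
    ⟨Qᶜ, fun u v => u ∈ Qᶜ ∧ v ∈ Qᶜ, ?_⟩⟩
  · exact
      { sub := Set.subset_univ _
        chord := hch
        rel := fun u hu v hv h => ⟨h, hu, hv⟩
        nb := by
          intro i _ hi v hv v' hv'
          have hii : R i i := by
            by_contra h
            exact hi h
          have hloop : ∀ x, ¬ R i x → ¬ R x x := by
            intro x hx hxx
            rcases hno i i x x hii hxx with h | h | h | h <;> exact hx h
          refine ⟨fun h => ?_, hloop v hv.2, hloop v' hv'.2⟩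
          rcases hno i i v v' hii h with h | h | h | h
          · exact hv.2 h
          · exact hv'.2 h
          · exact hv.2 h
          · exact hv'.2 h }
  · exact
      { sub := Set.subset_univ _
        chord := Chord.base _ (by rw [Set.ncard_compl])
        rel := fun u hu v hv _ => ⟨hu, hv⟩
        nb := by
          intro i _ hi v hv v' hv'
          have hiQ : i ∈ Q := by
            by_contra h
            exact hi h
          exact ⟨fun h => hQ i hiQ v h hv.2, fun h => hQ i hiQ v' h hv'.2⟩ }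

end Pool.Agent.Lib.MP_23961f_co.WC
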