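import Mathlib

/-!
# Weakly chordal relations and completions with a clique number bound

Definitions for the theorem that the complement inequality for `nu` holds for weakly chordal graphs.
A relation is symmetric; loops are allowed and matter (they are the vertices which count
themselves in the width).
-/

set_option autoImplicit false

namespace Pool.Agent.Lib.MP_23961f_co.WC

variable {V : Type*}

/-- symmetric relation (loops allowed) -/
def Sym (R : V → V → Prop) : Prop := ∀ u v, R u v → R v u

/-- complement, including the diagonal -/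
def co (R : V → V → Prop) : V → V → Prop := fun u v => ¬ R u v

/-- delete all pairs (and loops) inside `Y` -/
def del (R : V → V → Prop) (Y : Set V) : V → V → Prop := fun u v => R u v ∧ ¬ (u ∈ Y ∧ v ∈ Y)

/-- looped clique -/
def Clq (F : V → V → Prop) (Q : Set V) : Prop := ∀ u ∈ Q, ∀ v ∈ Q, F u v

/-- `p 0, ..., p m` is an induced path (loops ignored) -/
structure IPath (R : V → V → Prop) (p : ℕ → V) (m : ℕ) : Prop where
  inj : ∀ i j, i < j → j ≤ m → p i ≠ p j
  adj : ∀ i, i < m → R (p i) (p (i + 1))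
  nadj : ∀ i j, i + 1 < j → j ≤ m → ¬ R (p i) (p j)

/-- an induced cycle `p 0, ..., p m, w` with at least 5 vertices -/
def Hole (R : V → V → Prop) : Prop :=
  ∃ (p : ℕ → V) (m : ℕ) (w : V), 3 ≤ m ∧ IPath R p m ∧ (∀ i, i ≤ m → w ≠ p i) ∧
    R w (p 0) ∧ R w (p m) ∧ ∀ i, 0 < i → i < m → ¬ R w (p i)

/-- weakly chordal: no induced cycle with at least 5 vertices in the relation or its complement -/
def Wch (R : V → V → Prop) : Prop := ¬ Hole R ∧ ¬ Hole (co R)

/-- connected set of vertices (nonempty), by cuts -/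
def Conn (R : V → V → Prop) (D : Set V) : Prop :=
  D.Nonempty ∧ ∀ A ⊆ D, A.Nonempty → (D \ A).Nonempty → ∃ a ∈ A, ∃ b ∈ D \ A, R a b

/-- neighbours outside `D` of a set `D` -/
def Nb (R : V → V → Prop) (D : Set V) : Set V := {v | v ∉ D ∧ ∃ d ∈ D, R d v}

/-- disjoint and no relation between the two sets -/
def Anti (R : V → V → Prop) (D C : Set V) : Prop := ∀ d ∈ D, ∀ c ∈ C, d ≠ c ∧ ¬ R d c

/-- every co-connected set in the neighbourhood of `C` has a common neighbour
which is outside `C` and has no neighbour in `C` -/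
def ANC (R : V → V → Prop) (C : Set V) : Prop :=
  ∀ K : Set V, Conn (co R) K → K ⊆ Nb R C →
    ∃ y, y ∉ C ∧ (∀ k ∈ K, R y k) ∧ ∀ c ∈ C, ¬ R y c

/-- component of the relation on `A` -/
def Comp (R : V → V → Prop) (A E : Set V) : Prop :=
  E ⊆ A ∧ Conn R E ∧ ∀ e ∈ E, ∀ v ∈ A, v ∉ E → ¬ R e v

/-- chordal completions with cliques of size at most `h`: built from complete ones by gluing
along cliques -/
inductive Chord (h : ℕ) : Set V → (V → V → Prop) → Prop
  | base (W : Set V) : W.ncard ≤ h → Chord h W (fun u v => u ∈ W ∧ v ∈ W)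
  | glue {W₁ W₂ : Set V} {F₁ F₂ : V → V → Prop} : Chord h W₁ F₁ → Chord h W₂ F₂ →
      Clq F₁ (W₁ ∩ W₂) → Clq F₂ (W₁ ∩ W₂) →
      Chord h (W₁ ∪ W₂) (fun u v => F₁ u v ∨ F₂ u v)

/-- A structure of width `h` for the relation `R` on the set `U`: a chordal completion `F` of
a part `W`, and the remaining vertices have a clique of `F` as neighbourhood. -/
structure St (h : ℕ) (R : V → V → Prop) (U W : Set V) (F : V → V → Prop) : Prop where
  sub : W ⊆ U
  chord : Chord h W F
  rel : ∀ u ∈ W, ∀ v ∈ W, R u v → F u v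
  nb : ∀ i ∈ U, i ∉ W → Clq F {v | v ∈ U ∧ R i v}

/-- width at most `h` -/
def Wd (h : ℕ) (R : V → V → Prop) : Prop := ∃ W F, St h R Set.univ W F

/-- a structure on `C` and its neighbourhood in which the neighbourhood is a looped clique -/
def Alp (h : ℕ) (R : V → V → Prop) (C : Set V) : Prop :=
  ∃ W F, St h R (C ∪ Nb R C) W F ∧ Clq F (Nb R C)

end Pool.Agent.Lib.MP_23961f_co.WC
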