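import Pool.Agent.Lib.MP_23961f_co.WC.E3

/-!
# Two unrelated pairs
-/

set_option autoImplicit false

namespace Pool.Agent.Lib.MP_23961f_co.WC

variable {V : Type*} {h : ℕ} {R : V → V → Prop}

/-- `D` contains a pair or a loop -/
def Nontriv (R : V → V → Prop) (D : Set V) : Prop := ∃ u ∈ D, ∃ v ∈ D, R u v

theorem Wd.mono_rel {S : V → V → Prop} (hT : Wd h S) (hRS : ∀ u v, R u v → S u v) : Wd h R := by
  obtain ⟨W, F, hT⟩ := hT
  exact ⟨W, F, hT.mono_rel fun u _ v _ huv => hRS u v huv⟩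

/-- the pair lemma -/
theorem exists_pair [Finite V] (hs : Sym R) {a b c d : V} (hab : R a b) (hcd : R c d)
    (h1 : ¬ R a c) (h2 : ¬ R a d) (h3 : ¬ R b c) (h4 : ¬ R b d) :
    ∃ D C, Conn R D ∧ Conn R C ∧ Anti R D C ∧ Nb R D ⊆ Nb R C ∧ Nontriv R D ∧ Nontriv R C := by
  -- the component of `c, d` outside the closed neighbourhood of `{a, b}`
  set A : Set V := {x | x ≠ a ∧ x ≠ b ∧ ¬ R a x ∧ ¬ R b x} with hA
  have hcA : c ∈ A := by
    refine ⟨?_, ?_, h1, h3⟩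
    · rintro rfl; exact h2 hcd
    · rintro rfl; exact h4 hcd
  have hdA : d ∈ A := by
    refine ⟨?_, ?_, h2, h4⟩
    · rintro rfl; exact h1 (hs _ _ hcd)
    · rintro rfl; exact h3 (hs _ _ hcd)
  obtain ⟨C, hC, hcC⟩ := exists_comp hs hcA
  have hdC : d ∈ C := by
    by_contra hdC
    exact hC.2.2 c hcC d hdA hdC hcd
  set B : Set V := {x | x ∉ C ∧ ∀ y ∈ C, ¬ R y x} with hB
  have haB : a ∈ B := by
    refine ⟨fun h' => (hC.1 h').1 rfl, fun y hy h' => (hC.1 hy).2.2.1 (hs _ _ h')⟩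
  have hbB : b ∈ B := by
    refine ⟨fun h' => (hC.1 h').2.1 rfl, fun y hy h' => (hC.1 hy).2.2.2 (hs _ _ h')⟩
  obtain ⟨D, hD, haD⟩ := exists_comp hs haB
  have hbD : b ∈ D := by
    by_contra hbD
    exact hD.2.2 a haD b hbB hbD hab
  refine ⟨D, C, hD.2.1, hC.2.1, ?_, ?_, ⟨a, haD, b, hbD, hab⟩, ⟨c, hcC, d, hdC, hcd⟩⟩
  · intro x hx y hy
    refine ⟨?_, fun h' => (hD.1 hx).2 y hy (hs _ _ h')⟩
    rintro rfl
    exact (hD.1 hx).1 hy
  · rintro v ⟨hvD, x, hx, hxv⟩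
    have hvC : v ∉ C := fun h' => (hD.1 hx).2 v h' (hs _ _ hxv)
    refine ⟨hvC, ?_⟩
    by_contra hcon
    push Not at hcon
    exact hD.2.2 x hx v ⟨hvC, hcon⟩ hvD hxv

/-- Case 2 of (E2*): the neighbourhood of `D` is a looped clique -/
theorem two_pairs_clique [Finite V] (hs : Sym R) (hw : Wch R) {D C₀ : Set V} (hD : Conn R D)
    (hDC : Anti R D C₀) (hC₀ : Nontriv R C₀) {W : Set V} {F : V → V → Prop}
    (hNb : Nb R D ⊆ Nb R C₀)
    (hT : St h (del R D) Set.univ W F) (hQ : Clq F (Nb R D))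
    (hdel : ∀ Y : Set V, Nontriv R Y → Wch (del R Y) → Wd h (del R Y)) : Wd h R := by
  classical
  set U : Set V := {x | x ∉ D ∧ x ∉ Nb R D} with hU
  -- neighbourhoods of components of `U`
  have hNbC : ∀ C, Comp R U C → Nb R C ⊆ Nb R D := by
    rintro C hC v ⟨hvC, c, hc, hcv⟩
    have hvD : v ∉ D := fun h' => (hC.1 hc).2 ⟨(hC.1 hc).1, v, h', hs _ _ hcv⟩
    by_contra hcon
    exact hC.2.2 c hc v ⟨hvD, hcon⟩ hvC hcv
  have hAntiC : ∀ C, Comp R U C → Anti R D C := by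
    intro C hC x hx c hc
    refine ⟨?_, fun h' => (hC.1 hc).2 ⟨(hC.1 hc).1, x, hx, h'⟩⟩
    rintro rfl
    exact (hC.1 hc).1 hx
  have hANC : ∀ C, Comp R U C → ANC R C := by
    intro C hC K hK hKN
    obtain ⟨y, hy, hyK⟩ := hayward hs hw hD hC.2.1 (hAntiC C hC) hK (hKN.trans (hNbC C hC)) hKN
    exact ⟨y, fun h' => (hAntiC C hC y hy y h').1 rfl, hyK, fun c hc => (hAntiC C hC y hy c hc).2⟩
  have hwU : Wch (del R U) := wch_del hs hw hANC
  have hC₀U : C₀ ⊆ U := by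
    intro c hc
    refine ⟨fun h' => (hDC c h' c hc).1 rfl, ?_⟩
    rintro h'
    exact (hNb h').1 hc
  have hntU : Nontriv R U := by
    obtain ⟨u, hu, v, hv, huv⟩ := hC₀
    exact ⟨u, hC₀U hu, v, hC₀U hv, huv⟩
  have hTU := hdel U hntU hwU
  -- minimal union of components
  have hex : ∃ m : ℕ, ∃ Y : Set V, Y.ncard = m ∧ Y ⊆ U ∧ (∀ y ∈ Y, ∀ u ∈ U, R y u → u ∈ Y) ∧
      Wd h (del R Y) := ⟨U.ncard, U, rfl, Set.Subset.rfl, fun _ _ u hu _ => hu, hTU⟩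
  obtain ⟨Y, hYm, hYU, hYcl, hYT⟩ := Nat.find_spec hex
  rcases Y.eq_empty_or_nonempty with hY | ⟨y, hy⟩
  · refine hYT.mono_rel fun u v huv => ⟨huv, ?_⟩
    rw [hY]
    exact fun h' => h'.1
  exfalso
  obtain ⟨C, hCY, hyC⟩ := exists_comp hs hy
  have hCU : Comp R U C := ⟨hCY.1.trans hYU, hCY.2.1, fun e he v hv hve hev =>
    hCY.2.2 e he v (hYcl e (hCY.1 he) v hv hev) hve hev⟩
  set S : V → V → Prop := del R (Y \ C) with hS
  have hSs : Sym S := del_symm hs _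
  have hSw : Wch S := by
    refine wch_del hs hw fun E hE => hANC E ⟨?_, hE.2.1, ?_⟩
    · exact hE.1.trans (Set.sdiff_subset.trans hYU)
    · intro e he v hv hve hev
      have hvY : v ∈ Y := hYcl e (hE.1 he).1 v hv hev
      have hvC : v ∉ C := by
        intro hvC
        exact hCU.2.2 v hvC e (hYU (hE.1 he).1) (hE.1 he).2 (hs _ _ hev)
      exact hE.2.2 e he v ⟨hvY, hvC⟩ hve hev
  have hSC : ∀ c ∈ C, ∀ v, R c v → S c v := fun c hc v hcv => ⟨hcv, fun h' => h'.1.2 hc⟩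
  have hSR : ∀ u v, S u v → R u v := fun u v huv => huv.1
  have hNbS : Nb S C = Nb R C := by
    ext v
    constructor
    · rintro ⟨hv, c, hc, hcv⟩
      exact ⟨hv, c, hc, hcv.1⟩
    · rintro ⟨hv, c, hc, hcv⟩
      exact ⟨hv, c, hc, hSC c hc v hcv⟩
  have hSCn : Conn S C := hCY.2.1.mono_rel fun u hu v _ huv => hSC u hu v huv
  have hNbU : ∀ v ∈ Nb R D, v ∉ Y := fun v hv hvY => (hYU hvY).2 hv
  have hAS : ANC S C := by
    intro K hK hKN
    rw [hNbS] at hKN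
    have hKD : K ⊆ Nb R D := hKN.trans (hNbC C hCU)
    have hK' : Conn (co R) K := by
      refine hK.mono_rel fun u hu v hv huv huv' => huv ⟨huv', fun h' => ?_⟩
      exact hNbU u (hKD hu) h'.1.1
    obtain ⟨z, hz, hzK⟩ := hayward hs hw hD hCU.2.1 (hAntiC C hCU) hK' hKD hKN
    refine ⟨z, fun h' => (hAntiC C hCU z hz z h').1 rfl, fun k hk => ⟨hzK k hk, fun h' => ?_⟩,
      fun c hc h' => (hAntiC C hCU z hz c hc).2 h'.1⟩
    exact (hYU h'.1.1).1 hz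
  have hαS : Alp h S C := by
    obtain ⟨W', F', hT', hQ'⟩ := (hT.restrict (U' := C ∪ Nb R C) (Set.subset_univ _))
    refine ⟨W', F', ?_, ?_⟩
    · rw [hNbS]
      refine hT'.mono_rel fun u hu v hv huv => ⟨huv.1, fun h' => ?_⟩
      rcases hu with hu | hu
      · exact (hCU.1 hu).1 h'.1
      · exact (hNbC C hCU hu).1 h'.1
    · rw [hNbS]
      exact hQ' _ Set.subset_union_right (hQ.mono (hNbC C hCU))
  have hTS : Wd h (del S C) := by
    refine hYT.mono_rel fun u v huv => ⟨huv.1.1, fun h' => ?_⟩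
    by_cases hu : u ∈ C
    · by_cases hv : v ∈ C
      · exact huv.2 ⟨hu, hv⟩
      · exact hCY.2.2 u hu v h'.2 hv huv.1.1
    · by_cases hv : v ∈ C
      · exact hCY.2.2 v hv u h'.1 hu (hs _ _ huv.1.1)
      · exact huv.1.2 ⟨⟨h'.1, hu⟩, ⟨h'.2, hv⟩⟩
  have hfin : Wd h (del R (Y \ C)) := restore hSs hSw hSCn hAS hαS hTS
  have hlt : (Y \ C).ncard < Nat.find hex := by
    rw [← hYm]
    refine Set.ncard_lt_ncard ⟨Set.sdiff_subset, fun h' => ?_⟩ (Set.toFinite Y)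
    exact (h' hy).2 hyC
  refine Nat.find_min hex hlt ⟨Y \ C, rfl, Set.sdiff_subset.trans hYU, ?_, hfin⟩
  intro x hx u hu hxu
  refine ⟨hYcl x hx.1 u hu hxu, fun h' => ?_⟩
  exact hCU.2.2 u h' x (hYU hx.1) hx.2 (hs _ _ hxu)

/-- (E2*), see section 4 of the page -/
theorem two_pairs [Finite V] (hs : Sym R) (hw : Wch R) {a b c d : V} (hab : R a b) (hcd : R c d)
    (h1 : ¬ R a c) (h2 : ¬ R a d) (h3 : ¬ R b c) (h4 : ¬ R b d)
    (hdel : ∀ Y : Set V, Nontriv R Y → Wch (del R Y) → Wd h (del R Y)) : Wd h R := by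
  classical
  have hex : ∃ m : ℕ, ∃ D C : Set V, D.ncard = m ∧ Conn R D ∧ Conn R C ∧ Anti R D C ∧
      Nb R D ⊆ Nb R C ∧ Nontriv R D ∧ Nontriv R C := by
    obtain ⟨D, C, hDC⟩ := exists_pair hs hab hcd h1 h2 h3 h4
    exact ⟨D.ncard, D, C, rfl, hDC⟩
  obtain ⟨D, C₀, hDm, hD, hC₀, hDC, hNb, hDn, hCn⟩ := Nat.find_spec hex
  have hCD : Anti R C₀ D := fun c hc x hx =>
    ⟨fun h' => (hDC x hx c hc).1 h'.symm, fun h' => (hDC x hx c hc).2 (hs _ _ h')⟩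
  have hwD : Wch (del R D) := by
    refine wch_del hs hw fun E hE => ?_
    have hED := Comp.eq_of_conn hD hE
    subst hED
    intro K hK hKN
    obtain ⟨y, hy, hyK⟩ := hayward hs hw hC₀ hD hCD hK (hKN.trans hNb) hKN
    exact ⟨y, fun h' => (hCD y hy y h').1 rfl, hyK, fun x hx => (hCD y hy x hx).2⟩
  obtain ⟨W, F, hT⟩ := hdel D hDn hwD
  by_cases hQ : Clq F (Nb R D)
  · exact two_pairs_clique hs hw hD hDC hCn hNb hT hQ hdel
  -- case 1
  obtain ⟨K, hKN, hK, hKc, hKR⟩ := exists_cocomp hs (fun u v huv => hT.chord.symm huv) hQ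
    (fun u hu v _ huu hvv huv => hT.rel u (hT.chord.supp huu).1 v (hT.chord.supp hvv).1
      ⟨huv, fun h' => hu.1 h'.1⟩)
  have hprog : Wd h (del R (D \ {v | ∀ k ∈ K, R v k})) :=
    St.progress hs (fun k hk => (hKN hk).1) (fun u hu hu' huK k hk => hKR u ⟨hu, hu'⟩ huK k hk)
      hT hKc
  set X : Set V := {v | ∀ k ∈ K, R v k} with hX
  obtain ⟨x₀, hx₀D, hx₀⟩ := hayward hs hw hD hC₀ hDC hK hKN (hKN.trans hNb)
  by_cases hnt : Nontriv R (D \ X)
  · exfalso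
    obtain ⟨u, hu, v, hv, huv⟩ := hnt
    obtain ⟨D', hD', huD'⟩ := exists_comp hs hu
    have hvD' : v ∈ D' := by
      by_contra hcon
      exact hD'.2.2 u huD' v hv hcon huv
    have hD'D : D' ⊆ D := hD'.1.trans Set.sdiff_subset
    have hDC' : Anti R D' C₀ := fun x hx c hc => hDC x (hD'D hx) c hc
    have hKn : ¬ K ⊆ Nb R D' := by
      intro hKD'
      obtain ⟨y, hy, hyK⟩ := hayward hs hw hD'.2.1 hC₀ hDC' hK hKD' (hKN.trans hNb)
      exact (hD'.1 hy).2 hyK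
    obtain ⟨k₀, hk₀, hk₀'⟩ := Set.not_subset.1 hKn
    have hk₀D : k₀ ∉ D := (hKN hk₀).1
    have hk₀C := hNb (hKN hk₀)
    have hlt : D'.ncard < Nat.find hex := by
      rw [← hDm]
      refine Set.ncard_lt_ncard ⟨hD'D, fun h' => ?_⟩ (Set.toFinite D)
      exact (hD'.1 (h' hx₀D)).2 hx₀
    refine Nat.find_min hex hlt ⟨D', insert k₀ C₀, rfl, hD'.2.1, hC₀.insert hs hk₀C.2, ?_, ?_,
      ⟨u, huD', v, hvD', huv⟩, ?_⟩
    · intro x hx c hc
      rcases hc with hc | hc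
      · subst hc
        refine ⟨?_, fun h' => hk₀' ⟨fun h'' => hk₀D (hD'D h''), x, hx, h'⟩⟩
        rintro rfl
        exact hk₀D (hD'D hx)
      · exact hDC' x hx c hc
    · rintro z ⟨hzD', x, hx, hxz⟩
      have hzk : z ≠ k₀ := by
        rintro rfl
        exact hk₀' ⟨hzD', x, hx, hxz⟩
      have hzC : z ∉ C₀ := fun h' => (hDC' x hx z h').2 hxz
      refine ⟨fun h' => ?_, ?_⟩
      · rcases h' with h' | h'
        · exact hzk h'
        · exact hzC h'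
      · by_cases hzD : z ∈ D
        · have hzX : z ∈ X := by
            by_contra hzX
            exact hD'.2.2 x hx z ⟨hzD, hzX⟩ hzD' hxz
          exact ⟨k₀, Or.inl rfl, hs _ _ (hzX k₀ hk₀)⟩
        · obtain ⟨-, c, hc, hcz⟩ := hNb ⟨hzD, x, hD'D hx, hxz⟩
          exact ⟨c, Or.inr hc, hcz⟩
    · obtain ⟨u, hu, v, hv, huv⟩ := hCn
      exact ⟨u, Or.inr hu, v, Or.inr hv, huv⟩
  · refine hprog.mono_rel fun u v huv => ⟨huv, fun h' => hnt ⟨u, h'.1, v, h'.2, huv⟩⟩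

end Pool.Agent.Lib.MP_23961f_co.WC
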