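import Pool.Agent.Lib.MP_23961f_co.WC.Graph

/-!
# Deleting the pairs inside a set whose components have anchors keeps weak chordality
-/

set_option autoImplicit false

namespace Pool.Agent.Lib.MP_23961f_co.WC

variable {V : Type*} {R : V → V → Prop}

theorem Sym.del (hs : Sym R) (A : Set V) : Sym (del R A) := by
  intro _ _ h
  exact ⟨hs _ _ h.1, fun hh => h.2 ⟨hh.2, hh.1⟩⟩

/-- an induced cycle with cyclic indices -/
structure Cyc (R : V → V → Prop) (c : ℕ → V) (n : ℕ) : Prop where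
  per : ∀ i, c (i + n) = c i
  inj : ∀ i j, i < j → j < i + n → c i ≠ c j
  adj : ∀ i, R (c i) (c (i + 1))
  nadj : ∀ i j, i + 1 < j → j + 1 < i + n → ¬ R (c i) (c j)

theorem Cyc.shift {c : ℕ → V} {n : ℕ} (h : Cyc R c n) (k : ℕ) :
    Cyc R (fun i => c (i + k)) n := by
  refine ⟨?_, ?_, ?_, ?_⟩
  · intro i
    have := h.per (i + k)
    show c (i + n + k) = c (i + k)
    rw [show i + n + k = i + k + n by omega]
    exact this
  · intro i j h1 h2
    exact h.inj _ _ (by omega) (by omega)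
  · intro i
    have := h.adj (i + k)
    show R (c (i + k)) (c (i + 1 + k))
    rw [show i + 1 + k = i + k + 1 by omega]
    exact this
  · intro i j h1 h2
    exact h.nadj _ _ (by omega) (by omega)

theorem Cyc.hole (hs : Sym R) {c : ℕ → V} {n : ℕ} (hn : 5 ≤ n) (h : Cyc R c n) : Hole R := by
  refine ⟨c, n - 2, c (n - 1), by omega, ⟨?_, ?_, ?_⟩, ?_, ?_, ?_, ?_⟩
  · intro i j h1 h2
    exact h.inj _ _ h1 (by omega)
  · intro i _
    exact h.adj i
  · intro i j h1 h2
    exact h.nadj _ _ h1 (by omega)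
  · intro i h1
    exact (h.inj i (n - 1) (by omega) (by omega)).symm
  · have h1 := h.adj (n - 1)
    rw [show n - 1 + 1 = 0 + n by omega, h.per] at h1
    exact h1
  · have h1 := h.adj (n - 2)
    rw [show n - 2 + 1 = n - 1 by omega] at h1
    exact hs _ _ h1
  · intro i h1 h2 h3
    exact h.nadj i (n - 1) (by omega) (by omega) (hs _ _ h3)

theorem Hole.cyc (hs : Sym R) (h : Hole R) : ∃ (c : ℕ → V) (n : ℕ), 5 ≤ n ∧ Cyc R c n := by
  obtain ⟨p, m, w, hm, hp, hw, h0, h1, h2⟩ := h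
  let g : ℕ → V := fun i => if i ≤ m then p i else w
  have gp : ∀ i, i ≤ m → g i = p i := fun i hi => if_pos hi
  have gw : g (m + 1) = w := if_neg (by omega)
  have gR : ∀ i, i < m + 1 → R (g i) (g (i + 1)) := by
    intro i hi
    by_cases h3 : i < m
    · rw [gp i h3.le, gp (i + 1) (by omega)]
      exact hp.adj i h3
    · have h4 : i = m := by omega
      subst h4
      rw [gp i le_rfl, gw]
      exact hs _ _ h1
  have gR0 : R (g (m + 1)) (g 0) := by
    rw [gw, gp 0 (by omega)]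
    exact h0
  have gne : ∀ i j, i < j → j < m + 2 → g i ≠ g j := by
    intro i j h3 h4
    by_cases h5 : j ≤ m
    · rw [gp i (by omega), gp j h5]
      exact hp.inj i j h3 h5
    · have h6 : j = m + 1 := by omega
      subst h6
      rw [gp i (by omega), gw]
      exact (hw i (by omega)).symm
  have gn : ∀ i j, i + 1 < j → j < m + 2 → (i ≠ 0 ∨ j ≠ m + 1) → ¬ R (g i) (g j) := by
    intro i j h3 h4 h5
    by_cases h6 : j ≤ m
    · rw [gp i (by omega), gp j h6]
      exact hp.nadj i j h3 h6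
    · have h7 : j = m + 1 := by omega
      subst h7
      rw [gp i (by omega), gw]
      intro h8
      exact h2 i (by omega) (by omega) (hs _ _ h8)
  have hmod : ∀ i, i % (m + 2) < m + 2 := fun i => Nat.mod_lt _ (by omega)
  have hsucc : ∀ i, (i % (m + 2) < m + 1 ∧ (i + 1) % (m + 2) = i % (m + 2) + 1) ∨
      (i % (m + 2) = m + 1 ∧ (i + 1) % (m + 2) = 0) := by
    intro i
    have h3 := hmod i
    by_cases h4 : i % (m + 2) < m + 1
    · left
      refine ⟨h4, ?_⟩
      rw [Nat.add_mod, Nat.mod_eq_of_lt (a := 1) (by omega)]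
      exact Nat.mod_eq_of_lt (by omega)
    · right
      have h5 : i % (m + 2) = m + 1 := by omega
      refine ⟨h5, ?_⟩
      rw [Nat.add_mod, Nat.mod_eq_of_lt (a := 1) (by omega), h5]
      exact Nat.mod_self _
  refine ⟨fun i => g (i % (m + 2)), m + 2, by omega, ?_, ?_, ?_, ?_⟩
  · intro i
    show g ((i + (m + 2)) % (m + 2)) = g (i % (m + 2))
    rw [Nat.add_mod_right]
  · intro i j h3 h4
    show g (i % (m + 2)) ≠ g (j % (m + 2))
    have h5 : i % (m + 2) ≠ j % (m + 2) := by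
      intro h6
      have h7 := (Nat.modEq_iff_dvd' h3.le).1 h6
      have h8 := Nat.le_of_dvd (by omega) h7
      omega
    rcases lt_or_gt_of_ne h5 with h6 | h6
    · exact gne _ _ h6 (hmod j)
    · exact (gne _ _ h6 (hmod i)).symm
  · intro i
    show R (g (i % (m + 2))) (g ((i + 1) % (m + 2)))
    rcases hsucc i with ⟨h3, h4⟩ | ⟨h3, h4⟩
    · rw [h4]
      exact gR _ h3
    · rw [h4, h3]
      exact gR0
  · intro i j h3 h4
    show ¬ R (g (i % (m + 2))) (g (j % (m + 2)))
    have ne_of : ∀ a b, a < b → b < a + (m + 2) → a % (m + 2) ≠ b % (m + 2) := by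
      intro a b h5 h6 h7
      have h8 := (Nat.modEq_iff_dvd' h5.le).1 h7
      have h9 := Nat.le_of_dvd (by omega) h8
      omega
    have h5 := ne_of i j (by omega) (by omega)
    have h6 := ne_of (i + 1) j (by omega) (by omega)
    have h7 := ne_of i (j + 1) (by omega) (by omega)
    have h8 := hmod i
    have h9 := hmod j
    rcases lt_or_gt_of_ne h5 with h10 | h10
    · refine gn _ _ ?_ h9 ?_
      · rcases hsucc i with ⟨h11, h12⟩ | ⟨h11, h12⟩
        · rw [h12] at h6
          omega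
        · omega
      · by_contra h11
        push Not at h11
        rcases hsucc j with ⟨h12, h13⟩ | ⟨h12, h13⟩
        · omega
        · exact h7 (by rw [h13]; exact h11.1)
    · intro hR
      refine gn _ _ ?_ h8 ?_ (hs _ _ hR)
      · rcases hsucc j with ⟨h11, h12⟩ | ⟨h11, h12⟩
        · rw [h12] at h7
          omega
        · omega
      · by_contra h11
        push Not at h11
        rcases hsucc i with ⟨h12, h13⟩ | ⟨h12, h13⟩
        · omega
        · exact h6 (by rw [h13]; exact h11.1.symm)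

theorem hole_of_five {R : V → V → Prop} {a b c d e : V} (hab : a ≠ b) (hac : a ≠ c) (had : a ≠ d)
    (hbc : b ≠ c) (hbd : b ≠ d) (hcd : c ≠ d) (hea : e ≠ a) (heb : e ≠ b) (hec : e ≠ c)
    (hed : e ≠ d) (rab : R a b) (rbc : R b c) (rcd : R c d) (rea : R e a) (red : R e d)
    (nac : ¬ R a c) (nad : ¬ R a d) (nbd : ¬ R b d) (neb : ¬ R e b) (nec : ¬ R e c) : Hole R := by
  let p : ℕ → V := fun i => if i = 0 then a else if i = 1 then b else if i = 2 then c else d
  have p0 : p 0 = a := rfl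
  have p1 : p 1 = b := rfl
  have p2 : p 2 = c := rfl
  have p3 : p 3 = d := rfl
  refine ⟨p, 3, e, le_rfl, ⟨?_, ?_, ?_⟩, ?_, rea, red, ?_⟩
  · intro i j h1 h2
    have : (i = 0 ∧ j = 1) ∨ (i = 0 ∧ j = 2) ∨ (i = 0 ∧ j = 3) ∨ (i = 1 ∧ j = 2) ∨
      (i = 1 ∧ j = 3) ∨ (i = 2 ∧ j = 3) := by omega
    rcases this with ⟨rfl, rfl⟩ | ⟨rfl, rfl⟩ | ⟨rfl, rfl⟩ | ⟨rfl, rfl⟩ | ⟨rfl, rfl⟩ | ⟨rfl, rfl⟩
    · exact hab
    · exact hac
    · exact had
    · exact hbc
    · exact hbd
    · exact hcd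
  · intro i h1
    have : i = 0 ∨ i = 1 ∨ i = 2 := by omega
    rcases this with rfl | rfl | rfl
    · exact rab
    · exact rbc
    · exact rcd
  · intro i j h1 h2
    have : (i = 0 ∧ j = 2) ∨ (i = 0 ∧ j = 3) ∨ (i = 1 ∧ j = 3) := by omega
    rcases this with ⟨rfl, rfl⟩ | ⟨rfl, rfl⟩ | ⟨rfl, rfl⟩
    · exact nac
    · exact nad
    · exact nbd
  · intro i h1
    have : i = 0 ∨ i = 1 ∨ i = 2 ∨ i = 3 := by omega
    rcases this with rfl | rfl | rfl | rfl
    · exact hea
    · exact heb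
    · exact hec
    · exact hed
  · intro i h1 h2
    have : i = 1 ∨ i = 2 := by omega
    rcases this with rfl | rfl
    · exact neb
    · exact nec

/-- The 5-hole of part (a). -/
theorem anchor_five (hs : Sym R) (hH : ¬ Hole R) {E : Set V} (hE : ANC R E) {s s' u u' : V}
    (hsE : s ∈ E) (hsE' : s' ∈ E) (hss : s ≠ s') (hR : R s s') (hu : u ∉ E) (hu' : u' ∉ E)
    (huu : u ≠ u') (h1 : R s u) (h2 : R s' u') (h3 : ¬ R u s') (h4 : ¬ R s u') (h5 : ¬ R u u') :
    False := by
  have hK : Conn (co R) {u, u'} := by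
    refine ⟨⟨u, Or.inl rfl⟩, ?_⟩
    intro B hB hB1 hB2
    obtain ⟨a, ha⟩ := hB1
    obtain ⟨b, hb⟩ := hB2
    refine ⟨a, ha, b, hb, ?_⟩
    have hab : a ≠ b := by
      rintro rfl
      exact hb.2 ha
    rcases hB ha with rfl | rfl
    · rcases hb.1 with rfl | rfl
      · exact absurd rfl hab
      · exact h5
    · rcases hb.1 with rfl | rfl
      · exact fun h => h5 (hs _ _ h)
      · exact absurd rfl hab
  have hKN : ({u, u'} : Set V) ⊆ Nb R E := by
    rintro k (rfl | rfl)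
    · exact ⟨hu, s, hsE, h1⟩
    · exact ⟨hu', s', hsE', h2⟩
  obtain ⟨y, hy1, hy2, hy3⟩ := hE _ hK hKN
  have hyu := hy2 u (Or.inl rfl)
  have hyu' := hy2 u' (Or.inr rfl)
  refine hH (hole_of_five (a := u) (b := s) (c := s') (d := u') (e := y) ?_ ?_ huu hss ?_ ?_ ?_
    ?_ ?_ ?_ (hs _ _ h1) hR h2 hyu hyu' h3 h5 h4 (hy3 s hsE) (hy3 s' hsE'))
  · rintro rfl
    exact hu hsE
  · rintro rfl
    exact hu hsE'
  · rintro rfl
    exact hu' hsE
  · rintro rfl
    exact hu' hsE'
  · rintro rfl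
    exact hy3 s hsE (hs _ _ h1)
  · rintro rfl
    exact hy1 hsE
  · rintro rfl
    exact hy1 hsE'
  · rintro rfl
    exact hy3 s' hsE' (hs _ _ h2)

theorem not_hole_co_del [Finite V] (hs : Sym R) (hw : Wch R) {A : Set V}
    (hA : ∀ E, Comp R A E → ANC R E) : ¬ Hole (co (del R A)) := by
  intro hH
  obtain ⟨c, n, hn, hc⟩ := hH.cyc (hs.del A).co
  have hex : ∃ i, c i ∈ A ∧ c (i + 1) ∈ A ∧ R (c i) (c (i + 1)) := by
    by_contra hcon
    push Not at hcon
    refine hw.2 (Cyc.hole hs.co hn ⟨hc.per, hc.inj, ?_, ?_⟩)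
    · intro i hR
      exact hc.adj i ⟨hR, fun hh => hcon i hh.1 hh.2 hR⟩
    · intro i j h1 h2 h3
      exact hc.nadj i j h1 h2 fun h4 => h3 h4.1
  obtain ⟨k, hk1, hk2, hk3⟩ := hex
  have hc' := hc.shift k
  set f : ℕ → V := fun i => c (i + k) with hf
  have f0 : f 0 = c k := by simp [hf]
  have f1 : f 1 = c (k + 1) := by simp [hf, add_comm]
  have hf0 : f 0 ∈ A := by rw [f0]; exact hk1
  have hf1 : f 1 ∈ A := by rw [f1]; exact hk2
  have hR01 : R (f 0) (f 1) := by rw [f0, f1]; exact hk3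
  have hadj0 : ∀ j, 2 ≤ j → j + 1 < n → R (f 0) (f j) ∧ f j ∉ A := by
    intro j h1 h2
    have h3 := hc'.nadj 0 j (by omega) (by omega)
    have h4 : del R A (f 0) (f j) := by
      by_contra h5
      exact h3 h5
    exact ⟨h4.1, fun h5 => h4.2 ⟨hf0, h5⟩⟩
  have hadj1 : ∀ j, 3 ≤ j → j < n → R (f 1) (f j) ∧ f j ∉ A := by
    intro j h1 h2
    have h3 := hc'.nadj 1 j (by omega) (by omega)
    have h4 : del R A (f 1) (f j) := by
      by_contra h5
      exact h3 h5
    exact ⟨h4.1, fun h5 => h4.2 ⟨hf1, h5⟩⟩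
  have hnA : ∀ j, 2 ≤ j → j < n → f j ∉ A := by
    intro j h1 h2
    by_cases h3 : j + 1 < n
    · exact (hadj0 j h1 h3).2
    · exact (hadj1 j (by omega) h2).2
  have hco : ∀ i, f i ∉ A ∨ f (i + 1) ∉ A → ¬ R (f i) (f (i + 1)) := by
    intro i h1 h2
    exact hc'.adj i ⟨h2, fun h3 => h1.elim (fun h4 => h4 h3.1) fun h4 => h4 h3.2⟩
  have hRn : ∀ i j, i + 1 < j → j + 1 < i + n → R (f i) (f j) := by
    intro i j h1 h2
    by_contra h3
    exact hc'.nadj i j h1 h2 fun h4 => h3 h4.1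
  obtain ⟨E, hE, hE0⟩ := exists_comp hs hf0
  have hE1 : f 1 ∈ E := by
    by_contra h1
    exact hE.2.2 (f 0) hE0 (f 1) hf1 h1 hR01
  have hpath : IPath (co R) (fun i => f (i + 2)) (n - 3) := by
    refine ⟨?_, ?_, ?_⟩
    · intro i j h1 h2
      exact hc'.inj _ _ (by omega) (by omega)
    · intro i h1
      exact hco (i + 2) (Or.inl (hnA _ (by omega) (by omega)))
    · intro i j h1 h2 h3
      exact h3 (hRn _ _ (by omega) (by omega))
  have hK := hpath.conn hs.co
  have hKN : {v | ∃ i, i ≤ n - 3 ∧ f (i + 2) = v} ⊆ Nb R E := by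
    rintro v ⟨i, hi, rfl⟩
    refine ⟨fun h1 => hnA (i + 2) (by omega) (by omega) (hE.1 h1), ?_⟩
    by_cases h1 : i + 2 + 1 < n
    · exact ⟨f 0, hE0, (hadj0 (i + 2) (by omega) h1).1⟩
    · exact ⟨f 1, hE1, (hadj1 (i + 2) (by omega) (by omega)).1⟩
  obtain ⟨y, hy1, hy2, hy3⟩ := hA E hE _ hK hKN
  have hyK : ∀ j, 2 ≤ j → j < n → R y (f j) ∧ y ≠ f j := by
    intro j h1 h2
    have h3 : f j ∈ {v | ∃ i, i ≤ n - 3 ∧ f (i + 2) = v} := by
      refine ⟨j - 2, by omega, ?_⟩
      rw [show j - 2 + 2 = j by omega]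
    refine ⟨hy2 _ h3, ?_⟩
    intro h4
    obtain ⟨d, hd1, hd2⟩ := (hKN h3).2
    rw [← h4] at hd2
    exact hy3 d hd1 (hs _ _ hd2)
  have hfn : f n = f 0 := by
    have := hc'.per 0
    rw [zero_add] at this
    exact this
  refine hw.2 ⟨fun i => f (i + 1), n - 1, y, by omega, ⟨?_, ?_, ?_⟩, ?_, ?_, ?_, ?_⟩
  · intro i j h1 h2
    exact hc'.inj _ _ (by omega) (by omega)
  · intro i h1
    refine hco (i + 1) ?_
    by_cases h2 : i + 1 + 1 < n
    · exact Or.inr (hnA _ (by omega) h2)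
    · exact Or.inl (hnA _ (by omega) (by omega))
  · intro i j h1 h2 h3
    by_cases h4 : j + 1 + 1 < i + 1 + n
    · exact h3 (hRn _ _ (by omega) h4)
    · have h5 : i = 0 := by omega
      have h6 : j + 1 = n := by omega
      subst h5
      have h7 : ¬ R (f (0 + 1)) (f (j + 1)) := h3
      rw [h6, hfn, zero_add] at h7
      exact h7 (hs _ _ hR01)
  · intro i h1
    show y ≠ f (i + 1)
    by_cases h2 : i = 0
    · subst h2
      rw [zero_add]
      rintro rfl
      exact hy1 hE1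
    · by_cases h3 : i + 1 < n
      · exact (hyK _ (by omega) h3).2
      · have h4 : i + 1 = n := by omega
        rw [h4, hfn]
        rintro rfl
        exact hy1 hE0
  · show ¬ R y (f (0 + 1))
    rw [zero_add]
    exact hy3 _ hE1
  · show ¬ R y (f (n - 1 + 1))
    rw [show n - 1 + 1 = n by omega, hfn]
    exact hy3 _ hE0
  · intro i h1 h2 h3
    exact h3 (hyK (i + 1) (by omega) (by omega)).1

/-- (WP). Let `R' = del R A`.

(a) Hole `f 0 .. f (m-1)` of `R'`, `m ≥ 5`, cyclic. It is not a hole of `R`, so some `s, s'` in it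
are both in `A` and `R`-adjacent; they are in one component `C` of `R` on `A`. If `m ≥ 6` there are
cycle-neighbours `u` of `s` and `u'` of `s'` with `u ≠ u'`, `u, u'` not adjacent, `u` not adjacent
to `s'`, `u'` not adjacent to `s`. `u, u'` are not in `A` and lie in `Nb R C`; `{u, u'}` is
co-connected; anchor `y` of `{u, u'}`: `s, u, y, u', s'` is a 5-hole of `R`. If `m = 5` the
complement is a 5-hole, and this is part (b).

(b) Hole of the complement of `R'`: `not_hole_co_del`. -/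
theorem wch_del [Finite V] (hs : Sym R) (hw : Wch R) {A : Set V}
    (hA : ∀ E, Comp R A E → ANC R E) : Wch (del R A) := by
  have hb := not_hole_co_del hs hw hA
  refine ⟨?_, hb⟩
  intro hH
  obtain ⟨c, n, hn, hc⟩ := hH.cyc (hs.del A)
  have hs' := hs.del A
  rcases Nat.lt_or_ge 5 n with hn6 | hn5
  · have hex : ∃ i j, i + 1 < j ∧ j + 1 < i + n ∧ c i ∈ A ∧ c j ∈ A ∧ R (c i) (c j) := by
      by_contra hcon
      push Not at hcon
      refine hw.1 (Cyc.hole hs hn ⟨hc.per, hc.inj, fun i => (hc.adj i).1, ?_⟩)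
      intro i j h1 h2 h3
      exact hc.nadj i j h1 h2 ⟨h3, fun h4 => hcon i j h1 h2 h4.1 h4.2 h3⟩
    obtain ⟨k, l, h1, h2, hk, hl, hkl⟩ := hex
    have hc' := hc.shift k
    set f : ℕ → V := fun i => c (i + k) with hf
    obtain ⟨d, rfl⟩ : ∃ d, l = d + k := ⟨l - k, by omega⟩
    have f0 : f 0 = c k := by simp [hf]
    have hf0 : f 0 ∈ A := by rw [f0]; exact hk
    have hfd : f d ∈ A := hl
    have hR : R (f 0) (f d) := by rw [f0]; exact hkl
    have hd2 : 2 ≤ d := by omega
    have hdn : d + 1 < n := by omega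
    have hfn : f n = f 0 := by
      have := hc'.per 0
      rw [zero_add] at this
      exact this
    obtain ⟨E, hE, hE0⟩ := exists_comp hs hf0
    have hEd : f d ∈ E := by
      by_contra h3
      exact hE.2.2 (f 0) hE0 (f d) hfd h3 hR
    have hnr : ∀ i, f i ∈ A → f (i + 1) ∉ A := fun i h3 h4 => (hc'.adj i).2 ⟨h3, h4⟩
    have hnl : ∀ i, f (i + 1) ∈ A → f i ∉ A := fun i h3 h4 => (hc'.adj i).2 ⟨h4, h3⟩
    have hadj : ∀ i, R (f i) (f (i + 1)) := fun i => (hc'.adj i).1
    have hna : ∀ i j, i + 1 < j → j + 1 < i + n → (f i ∉ A ∨ f j ∉ A) → ¬ R (f i) (f j) := by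
      intro i j h3 h4 h5 h6
      exact hc'.nadj i j h3 h4 ⟨h6, fun h7 => h5.elim (fun h8 => h8 h7.1) fun h8 => h8 h7.2⟩
    have hne : f 0 ≠ f d := hc'.inj 0 d (by omega) (by omega)
    have hA1 : f 1 ∉ A := hnr 0 hf0
    have hAd1 : f (d + 1) ∉ A := hnr d hfd
    have hAd : f (d - 1) ∉ A := hnl (d - 1) (by rw [show d - 1 + 1 = d by omega]; exact hfd)
    have hAn : f (n - 1) ∉ A := hnl (n - 1) (by rw [show n - 1 + 1 = n by omega, hfn]; exact hf0)
    have hAE : ∀ {v : V}, v ∉ A → v ∉ E := fun h3 h4 => h3 (hE.1 h4)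
    have hANC := hA E hE
    by_cases c1 : 3 ≤ d ∧ d + 3 ≤ n
    · exact anchor_five hs hw.1 hANC hE0 hEd hne hR (u := f 1) (u' := f (d + 1)) (hAE hA1)
        (hAE hAd1) (hc'.inj _ _ (by omega) (by omega)) (hadj 0) (hadj d)
        (hna 1 d (by omega) (by omega) (Or.inl hA1))
        (hna 0 (d + 1) (by omega) (by omega) (Or.inr hAd1))
        (hna 1 (d + 1) (by omega) (by omega) (Or.inl hA1))
    · by_cases c2 : 4 ≤ d
      · have h3 : R (f d) (f (d - 1)) := by
          have := hadj (d - 1)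
          rw [show d - 1 + 1 = d by omega] at this
          exact hs _ _ this
        exact anchor_five hs hw.1 hANC hE0 hEd hne hR (u := f 1) (u' := f (d - 1)) (hAE hA1)
          (hAE hAd) (hc'.inj _ _ (by omega) (by omega)) (hadj 0) h3
          (hna 1 d (by omega) (by omega) (Or.inl hA1))
          (hna 0 (d - 1) (by omega) (by omega) (Or.inr hAd))
          (hna 1 (d - 1) (by omega) (by omega) (Or.inl hA1))
      · have h3 : R (f 0) (f (n - 1)) := by
          have := hadj (n - 1)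
          rw [show n - 1 + 1 = n by omega, hfn] at this
          exact hs _ _ this
        exact anchor_five hs hw.1 hANC hE0 hEd hne hR (u := f (n - 1)) (u' := f (d + 1))
          (hAE hAn) (hAE hAd1) (hc'.inj _ _ (by omega) (by omega)).symm h3 (hadj d)
          (fun h4 => hna d (n - 1) (by omega) (by omega) (Or.inr hAn) (hs _ _ h4))
          (hna 0 (d + 1) (by omega) (by omega) (Or.inr hAd1))
          (fun h4 => hna (d + 1) (n - 1) (by omega) (by omega) (Or.inl hAd1) (hs _ _ h4))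
  · have hn5' : n = 5 := by omega
    subst hn5'
    have hin : ∀ i j, i < j → j < 5 → c i ≠ c j := fun i j h1 h2 => hc.inj i j h1 (by omega)
    have h40 : del R A (c 4) (c 0) := by
      have h1 := hc.adj 4
      have h2 := hc.per 0
      rw [zero_add] at h2
      rw [show 4 + 1 = 5 by rfl, h2] at h1
      exact h1
    have n02 := hc.nadj 0 2 (by omega) (by omega)
    have n03 := hc.nadj 0 3 (by omega) (by omega)
    have n13 := hc.nadj 1 3 (by omega) (by omega)
    have n14 := hc.nadj 1 4 (by omega) (by omega)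
    have n24 := hc.nadj 2 4 (by omega) (by omega)
    refine hb (hole_of_five (a := c 0) (b := c 2) (c := c 4) (d := c 1) (e := c 3)
      (hin 0 2 (by omega) (by omega)) (hin 0 4 (by omega) (by omega))
      (hin 0 1 (by omega) (by omega)) (hin 2 4 (by omega) (by omega))
      (hin 1 2 (by omega) (by omega)).symm (hin 1 4 (by omega) (by omega)).symm
      (hin 0 3 (by omega) (by omega)).symm (hin 2 3 (by omega) (by omega)).symm
      (hin 3 4 (by omega) (by omega)) (hin 1 3 (by omega) (by omega)).symm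
      n02 n24 (fun h => n14 (hs' _ _ h)) (fun h => n03 (hs' _ _ h)) (fun h => n13 (hs' _ _ h))
      (fun h => h (hs' _ _ h40)) (fun h => h (hc.adj 0)) (fun h => h (hs' _ _ (hc.adj 1)))
      (fun h => h (hs' _ _ (hc.adj 2))) (fun h => h (hc.adj 3)))

end Pool.Agent.Lib.MP_23961f_co.WC
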