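import Pool.Agent.Lib.MP_23961f_co.WC.Str
import Pool.Agent.Lib.MP_23961f_co.WC.Pres

/-!
# Restoring one component
-/

set_option autoImplicit false

namespace Pool.Agent.Lib.MP_23961f_co.WC

variable {V : Type*} {h : ℕ} {S : V → V → Prop} {W : Set V} {F : V → V → Prop}

theorem nb_notMem_of_comp {Y E : Set V} (hE : Comp S Y E) {v : V} (hv : v ∈ Nb S E) : v ∉ Y := by
  obtain ⟨hvE, e, he, hev⟩ := hv
  exact fun hvY => hE.2.2 e he v hvY hvE hev

/-- an anchored co-connected set is not contained in the neighbourhood of a connected subset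
without vertex complete to it -/
theorem exists_miss [Finite V] (hs : Sym S) (hw : Wch S) {C K E : Set V} (hA : ANC S C)
    (hK : Conn (co S) K) (hKC : K ⊆ Nb S C) (hEC : E ⊆ C) (hE : Conn S E)
    (hEX : ∀ e ∈ E, ¬ ∀ k ∈ K, S e k) : ∃ k ∈ K, k ∉ Nb S E := by
  by_contra hcon
  push Not at hcon
  obtain ⟨y, hyC, hyK, hyc⟩ := hA K hK hKC
  obtain ⟨d, hd, hdK⟩ := hayward hs hw hE (conn_singleton S y) (C := {y}) (K := K)
    (by
      rintro d hd c rfl
      exact ⟨fun h' => hyC (h' ▸ hEC hd), fun h' => hyc d (hEC hd) (hs _ _ h')⟩) hK hcon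
    (by
      intro k hk
      refine ⟨?_, y, rfl, hyK k hk⟩
      rintro rfl
      obtain ⟨-, c, hc, hck⟩ := hKC hk
      exact hyc c hc (hs _ _ hck))
  exact hEX d hd hdK

/-- anchors for a connected subset whose neighbourhood is covered by `K` and the vertices complete
to `K` -/
theorem anc_sub (hs : Sym S) {C K E : Set V} (hA : ANC S C)
    (hKC : K ⊆ Nb S C) (hEC : E ⊆ C) {k₀ : V} (hk₀ : k₀ ∈ K) (hk₀' : k₀ ∉ Nb S E)
    (hN : ∀ v ∈ Nb S E, (∀ k ∈ K, S v k) ∨ v ∈ K) : ANC S E := by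
  intro K' hK' hK'E
  have hk₀E : k₀ ∉ E := fun h' => (hKC hk₀).1 (hEC h')
  rcases hK'.co_sub (A := {v | ∀ k ∈ K, S v k}) (B := K) (fun v hv => hN v (hK'E hv))
    (fun a ha b hb _ _ _ => ha b hb) with h' | h'
  · refine ⟨k₀, hk₀E, fun k hk => hs _ _ (h' hk k₀ hk₀), fun c hc hkc => hk₀' ⟨hk₀E, c, hc, ?_⟩⟩
    exact hs _ _ hkc
  · obtain ⟨y, hyC, hyK, hyc⟩ := hA K' hK' (h'.trans hKC)
    exact ⟨y, fun hy => hyC (hEC hy), hyK, fun c hc => hyc c (hEC hc)⟩

/-- one progress step for a component whose neighbourhood is not a looped clique -/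
theorem restore_step [Finite V] (hs : Sym S) (hw : Wch S) {Y E : Set V}
    (hY : ∀ E, Comp S Y E → ANC S E) (hT : St h (del S Y) Set.univ W F) (hE : Comp S Y E)
    (hN : ¬ Clq F (Nb S E)) :
    ∃ Y', Y' ⊂ Y ∧ Wd h (del S Y') ∧ ∀ E, Comp S Y' E → ANC S E := by
  obtain ⟨K, hKN, hKco, hKc, hKR⟩ := exists_cocomp hs (fun u v => hT.chord.symm) hN (by
    intro u hu v hv huu hvv huv
    exact hT.rel u (hT.chord.supp huu).1 v (hT.chord.supp hvv).1
      ⟨huv, fun h' => nb_notMem_of_comp hE hu h'.1⟩)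
  have hKY : ∀ k ∈ K, k ∉ Y := fun k hk => nb_notMem_of_comp hE (hKN hk)
  -- a vertex of `E` complete to `K`
  obtain ⟨x, hxE, hxK⟩ : ∃ x ∈ E, ∀ k ∈ K, S x k := by
    by_contra hcon
    push Not at hcon
    obtain ⟨k, hk, hk'⟩ := exists_miss hs hw (hY E hE) hKco hKN Set.Subset.rfl hE.2.1
      (fun e he h' => by
        obtain ⟨k, hk, hk'⟩ := hcon e he
        exact hk' (h' k hk))
    exact hk' (hKN hk)
  set X : Set V := {v | ∀ k ∈ K, S v k} with hXdef
  have hprog := St.progress (S := del S (Y \ E)) (h := h) (W := W) (F := F) (E := E) (K := K)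
    (del_symm hs _) (fun k hk => (hKN hk).1)
    (by
      rintro u huE ⟨e, he, heu⟩ huK k hk
      exact ⟨hKR u ⟨huE, e, he, heu.1⟩ huK k hk, fun h' => hKY k hk h'.2.1⟩)
    (by
      refine hT.mono_rel ?_
      rintro u - v - ⟨⟨huv, h1⟩, h2⟩
      refine ⟨huv, fun h' => ?_⟩
      by_cases huE : u ∈ E
      · have hvE : v ∉ E := fun h'' => h2 ⟨huE, h''⟩
        exact hE.2.2 u huE v h'.2 hvE huv
      · have hvE : v ∈ E := by
          by_contra hvE
          exact h1 ⟨⟨h'.1, huE⟩, ⟨h'.2, hvE⟩⟩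
        exact hE.2.2 v hvE u h'.1 huE (hs _ _ huv))
    hKc
  refine ⟨Y \ (X ∩ E), ⟨Set.sdiff_subset, fun h' => (h' (hE.1 hxE)).2 ⟨hxK, hxE⟩⟩, ?_, ?_⟩
  · obtain ⟨W', F', hT'⟩ := hprog
    refine ⟨W', F', hT'.mono_rel ?_⟩
    rintro u - v - ⟨huv, h1⟩
    refine ⟨⟨huv, fun h' => h1 ⟨⟨h'.1.1, fun h'' => h'.1.2 h''.2⟩,
      ⟨h'.2.1, fun h'' => h'.2.2 h''.2⟩⟩⟩, fun h' => h1 ?_⟩
    have hkey : ∀ w, w ∈ E \ {v | ∀ k ∈ K, del S (Y \ E) v k} → w ∈ Y \ (X ∩ E) := by
      rintro w ⟨hwE, hw'⟩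
      refine ⟨hE.1 hwE, fun h'' => hw' fun k hk => ⟨h''.1 k hk, fun h3 => hKY k hk h3.2.1⟩⟩
    exact ⟨hkey u h'.1, hkey v h'.2⟩
  · intro E' hE'
    have hE'Y : E' ⊆ Y := hE'.1.trans Set.sdiff_subset
    by_cases hm : (E' ∩ E).Nonempty
    · have hE'E : E' ⊆ E := hE.sub_of_conn hE'.2.1 hE'Y hm
      have hE'X : ∀ e ∈ E', ¬ ∀ k ∈ K, S e k := fun e he h' => (hE'.1 he).2 ⟨h', hE'E he⟩
      obtain ⟨k₀, hk₀, hk₀'⟩ := exists_miss hs hw (hY E hE) hKco hKN hE'E hE'.2.1 hE'X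
      refine anc_sub hs (hY E hE) hKN hE'E hk₀ hk₀' ?_
      rintro v ⟨hvE', e, he, hev⟩
      by_cases hvE : v ∈ E
      · left
        by_contra hvX
        exact hE'.2.2 e he v ⟨hE.1 hvE, fun h' => hvX h'.1⟩ hvE' hev
      · by_cases hvK : v ∈ K
        · exact Or.inr hvK
        · exact Or.inl (hKR v ⟨hvE, e, hE'E he, hev⟩ hvK)
    · refine hY E' ⟨hE'Y, hE'.2.1, fun e he v hvY hvE' hev => ?_⟩
      by_cases hvX : v ∈ X ∩ E
      · exact hE.2.2 v hvX.2 e (hE'Y he) (fun h' => hm ⟨e, he, h'⟩) (hs _ _ hev)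
      · exact hE'.2.2 e he v ⟨hvY, hvX⟩ hvE' hev

/-- a state of the chain -/
structure Chn (S : V → V → Prop) (C Y E : Set V) (F : V → V → Prop) (C' A Ξ X' : Set V)
    (μ : V → V) : Prop where
  s1a : E ⊆ C'
  s1b : C' ⊆ C
  s1c : Conn S C'
  s2 : Nb S C' ⊆ (Nb S C \ A) ∪ X'
  s3 : Nb S C ⊆ A ∪ Nb S C' ∪ Ξ
  s4 : Clq F (Ξ ∪ X')
  s4b : Ξ ⊆ Nb S C
  s4c : ∀ x ∈ X', x ∈ C ∧ x ∉ C'
  s5 : ∀ v ∈ Nb S C', v ∉ Ξ ∪ X' → ∀ x ∈ Ξ ∪ X', S v x
  s6a : A ⊆ Nb S C
  s6b : Set.InjOn μ A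
  s6c : ∀ a ∈ A, μ a ∈ X' ∧ S a (μ a)
  s7 : ∀ v ∈ X', v ∉ Y

/-- end of the chain on the side of the structure -/
theorem chain_down [Finite V] (hs : Sym S) {C Y E C' A Ξ X' : Set V} {μ : V → V}
    (hα : Alp h S C) (hYC : Y ⊆ C) (hT : St h (del S Y) Set.univ W F)
    (hch : Chn S C Y E F C' A Ξ X' μ) (hcl : Clq F (Nb S C')) : Wd h S := by
  have hBY : ∀ b ∈ Nb S C, b ∉ Y := fun b hb h' => hb.1 (hYC h')
  have hQ : Clq F (Nb S C' ∪ (Ξ ∪ X')) := by
    have hmix : ∀ u ∈ Nb S C', u ∉ Ξ ∪ X' → ∀ x ∈ Ξ ∪ X', F u x := by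
      intro u hu hu' x hx
      have huB : u ∈ Nb S C := by
        rcases hch.s2 hu with h' | h'
        · exact h'.1
        · exact absurd (Or.inr h') hu'
      exact hT.rel u (Clq.subset hT.chord hcl hu) x (Clq.subset hT.chord hch.s4 hx)
        ⟨hch.s5 u hu hu' x hx, fun h' => hBY u huB h'.1⟩
    intro u hu v hv
    by_cases hu' : u ∈ Ξ ∪ X'
    · by_cases hv' : v ∈ Ξ ∪ X'
      · exact hch.s4 u hu' v hv'
      · rcases hv with hv | hv
        · exact hT.chord.symm (hmix v hv hv' u hu')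
        · exact absurd hv hv'
    · have hu1 : u ∈ Nb S C' := by
        rcases hu with hu | hu
        · exact hu
        · exact absurd hu hu'
      by_cases hv' : v ∈ Ξ ∪ X'
      · exact hmix u hu1 hu' v hv'
      · rcases hv with hv | hv
        · exact hcl u hu1 v hv
        · exact absurd hv hv'
  obtain ⟨W1, F1, hT1, hQ1⟩ := hT.swaps (del_symm hs Y) hQ (Set.subset_univ A) μ hch.s6b
    (fun a ha => Or.inr (Or.inr (hch.s6c a ha).1))
    (fun a ha h' => (hch.s6a h').1 (hch.s4c _ (hch.s6c a ha).1).1)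
    (fun a ha => ⟨(hch.s6c a ha).2, fun h' => hBY a (hch.s6a ha) h'.1⟩)
  have hμC : ∀ v ∈ μ '' A, v ∈ C := by
    rintro _ ⟨a, ha, rfl⟩
    exact (hch.s4c _ (hch.s6c a ha).1).1
  obtain ⟨W2, F2, hT2, hQ2⟩ := hT1.restrict (U' := Cᶜ)
    (fun v hv => ⟨Set.mem_univ v, fun h' => hv (hμC v h')⟩)
  have hB2 : Clq F2 (Nb S C) := by
    refine hQ2 _ (fun v hv => hv.1) (hQ1.mono ?_)
    intro b hb
    rcases hch.s3 hb with (h' | h') | h'
    · exact Or.inr h'
    · exact Or.inl ⟨Or.inl h', fun h'' => hb.1 (hμC b h'')⟩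
    · exact Or.inl ⟨Or.inr (Or.inl h'), fun h'' => hb.1 (hμC b h'')⟩
  have hT3 : St h S Cᶜ W2 F2 := hT2.mono_rel fun u hu v hv huv =>
    ⟨huv, fun h' => hu (hYC h'.1)⟩
  obtain ⟨W0, F0, hT0, hB0⟩ := hα
  have hint : (C ∪ Nb S C) ∩ Cᶜ = Nb S C := by
    ext v
    constructor
    · rintro ⟨h1 | h1, h2⟩
      · exact absurd h1 h2
      · exact h1
    · exact fun h1 => ⟨Or.inr h1, h1.1⟩
  obtain ⟨W4, F4, hT4⟩ := St.glue hs hT0 hT3 (hint.symm ▸ hB0) (hint.symm ▸ hB2) (by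
    intro u hu hu' v hv hv' huv
    have huC : u ∈ C := by
      by_contra h'
      exact hu' h'
    exact hv' (Or.inr ⟨hv, u, huC, huv⟩))
  have huniv : (C ∪ Nb S C) ∪ Cᶜ = Set.univ := by
    ext v
    simp only [Set.mem_union, Set.mem_compl_iff, Set.mem_univ, iff_true]
    tauto
  exact ⟨W4, F4, huniv ▸ hT4⟩

theorem exists_inj [Finite V] [Nonempty V] {P Q : Set V} (hPQ : P.ncard ≤ Q.ncard) :
    ∃ f : V → V, Set.InjOn f P ∧ ∀ x ∈ P, f x ∈ Q := by
  have hPQ' : P.encard ≤ Q.encard := by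
    rw [← Set.Finite.cast_ncard_eq (Set.toFinite P), ← Set.Finite.cast_ncard_eq (Set.toFinite Q)]
    exact_mod_cast hPQ
  obtain ⟨f, hf, hinj⟩ := (Set.toFinite P).exists_injOn_of_encard_le hPQ'
  exact ⟨f, hinj, fun x hx => hf hx⟩

/-- Output of the chain on the other side: a smaller connected set with all the properties. -/
def Out (h : ℕ) (S : V → V → Prop) (C Y E : Set V) : Prop :=
  ∃ C'', C'' ⊂ C ∧ E ⊆ C'' ∧ Conn S C'' ∧ Alp h S C'' ∧ ANC S C'' ∧ ∀ v ∈ Nb S C'', v ∉ Y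

/-- end of the chain on the side of `Alp` -/
theorem chain_up [Finite V] (hs : Sym S) {C C'' A X' : Set V} (hα : Alp h S C) (hC'' : C'' ⊆ C)
    (hN : Nb S C'' ⊆ (Nb S C \ A) ∪ X') (hA : A ⊆ Nb S C) (hX' : X' ⊆ C) {ν : V → V}
    (hν : Set.InjOn ν X') (hνA : ∀ x ∈ X', ν x ∈ A) (hνS : ∀ x ∈ X', S x (ν x)) :
    Alp h S C'' := by
  obtain ⟨W0, F0, hT0, hB0⟩ := hα
  obtain ⟨W1, F1, hT1, hQ1⟩ := hT0.swaps hs hB0 (A := X') (fun x hx => Or.inl (hX' hx)) ν hν
    (fun x hx => hA (hνA x hx)) (fun x hx h' => (hA (hνA x hx)).1 (hX' h')) hνS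
  have hνB : ∀ v ∈ ν '' X', v ∈ A := by
    rintro _ ⟨x, hx, rfl⟩
    exact hνA x hx
  have hNsub : Nb S C'' ⊆ (Nb S C \ (ν '' X')) ∪ X' := by
    intro v hv
    rcases hN hv with h' | h'
    · exact Or.inl ⟨h'.1, fun h'' => h'.2 (hνB v h'')⟩
    · exact Or.inr h'
  obtain ⟨W2, F2, hT2, hQ2⟩ := hT1.restrict (U' := C'' ∪ Nb S C'') (by
    rintro v (hv | hv)
    · exact ⟨Or.inl (hC'' hv), fun h' => (hA (hνB v h')).1 (hC'' hv)⟩
    · rcases hN hv with h' | h'
      · exact ⟨Or.inr h'.1, fun h'' => h'.2 (hνB v h'')⟩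
      · exact ⟨Or.inl (hX' h'), fun h'' => (hA (hνB v h'')).1 (hX' h')⟩)
  exact ⟨W2, F2, hT2, hQ2 _ Set.subset_union_right (hQ1.mono hNsub)⟩

/-- one step of the chain -/
theorem chain_step [Finite V] (hs : Sym S) (hw : Wch S) {C Y E C' A Ξ X' : Set V} {μ : V → V}
    (hA : ANC S C) (hα : Alp h S C) (hYC : Y ⊆ C) (hT : St h (del S Y) Set.univ W F)
    (hcl : ∀ E, Comp S Y E → Clq F (Nb S E)) (hE : Comp S Y E)
    (hch : Chn S C Y E F C' A Ξ X' μ) (hncl : ¬ Clq F (Nb S C')) :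
    Out h S C Y E ∨ ∃ C'' A'' Ξ'' X'' μ'', C'' ⊂ C' ∧ Chn S C Y E F C'' A'' Ξ'' X'' μ'' := by
  have hBY : ∀ b ∈ Nb S C, b ∉ Y := fun b hb h' => hb.1 (hYC h')
  obtain ⟨e₀, he₀⟩ := hE.2.1.1
  have : Nonempty V := ⟨e₀⟩
  obtain ⟨K, hKN, hKco, hKc, hKR⟩ := exists_cocomp hs (fun u v => hT.chord.symm) hncl (by
    intro u hu v hv huu hvv huv
    by_cases hX : u ∈ X' ∧ v ∈ X'
    · exact hch.s4 u (Or.inr hX.1) v (Or.inr hX.2)
    · refine hT.rel u (hT.chord.supp huu).1 v (hT.chord.supp hvv).1 ⟨huv, fun h' => ?_⟩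
      rcases hch.s2 hu with h1 | h1
      · exact hBY u h1.1 h'.1
      · rcases hch.s2 hv with h2 | h2
        · exact hBY v h2.1 h'.2
        · exact hX ⟨h1, h2⟩)
  -- `K` avoids `Ξ ∪ X'`
  have hKX' : ∀ k ∈ K, k ∉ Ξ ∪ X' := by
    rcases hKco.co_sub (A := Nb S C' \ (Ξ ∪ X')) (B := Ξ ∪ X')
      (by
        intro k hk
        by_cases hk' : k ∈ Ξ ∪ X'
        · exact Or.inr hk'
        · exact Or.inl ⟨hKN hk, hk'⟩)
      (fun a ha b hb _ _ _ => hch.s5 a ha.1 ha.2 b hb) with h' | h'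
    · exact fun k hk => (h' hk).2
    · exact absurd (hch.s4.mono h') hKc
  have hKBA : ∀ k ∈ K, k ∈ Nb S C ∧ k ∉ A := by
    intro k hk
    rcases hch.s2 (hKN hk) with h' | h'
    · exact h'
    · exact absurd (Or.inr h') (hKX' k hk)
  have hKB : K ⊆ Nb S C := fun k hk => (hKBA k hk).1
  have hKY : ∀ k ∈ K, k ∉ Y := fun k hk => hBY k (hKB hk)
  set X : Set V := {v | ∀ k ∈ K, S v k} with hXdef
  have hXc : Clq F X := hT.clq_common (K := K)
    (fun x hx k hk => ⟨hx k hk, fun h' => hKY k hk h'.2⟩) (del_symm hs Y) hKc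
  have hNKX : ∀ v ∈ Nb S C', v ∉ K → v ∈ X := fun v hv hvK => hKR v hv hvK
  have hΞX : ∀ v ∈ Ξ ∪ X', v ∈ X := fun v hv k hk => hs _ _ (hch.s5 k (hKN hk) (hKX' k hk) v hv)
  -- a vertex of `C'` complete to `K`
  obtain ⟨x₀, hx₀C, hx₀⟩ : ∃ x ∈ C', x ∈ X := by
    by_contra hcon
    push Not at hcon
    obtain ⟨k, hk, hk'⟩ := exists_miss hs hw hA hKco hKB hch.s1b hch.s1c
      (fun e he h' => hcon e he h')
    exact hk' (hKN hk)
  have hXY : ∀ v ∈ X, v ∉ Y := by
    intro v hv hvY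
    obtain ⟨E', hE', hvE'⟩ := exists_comp hs hvY
    refine hKc ((hcl E' hE').mono fun k hk => ⟨fun h' => hKY k hk (hE'.1 h'), v, hvE', hv k hk⟩)
  have hEX : E ⊆ C' \ X := fun e he => ⟨hch.s1a he, fun h' => hXY e h' (hE.1 he)⟩
  obtain ⟨C'', hC'', heC''⟩ := exists_comp hs (hEX he₀)
  have hEC'' : E ⊆ C'' := hC''.sub_of_conn hE.2.1 hEX ⟨e₀, he₀, heC''⟩
  have hC''C' : C'' ⊆ C' := fun v hv => (hC''.1 hv).1
  have hC''X : ∀ v ∈ C'', v ∉ X := fun v hv => (hC''.1 hv).2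
  have hss : C'' ⊂ C' := ⟨hC''C', fun h' => hC''X x₀ (h' hx₀C) hx₀⟩
  obtain ⟨k₀, hk₀, hk₀'⟩ := exists_miss hs hw hA hKco hKB (hC''C'.trans hch.s1b) hC''.2.1
    (fun e he h' => hC''X e he h')
  -- the neighbourhood of `C''`
  have hN'' : ∀ v ∈ Nb S C'', v ∈ Nb S C' ∨ (v ∈ X ∧ v ∈ C') := by
    rintro v ⟨hv, c, hc, hcv⟩
    by_cases hvC' : v ∈ C'
    · right
      refine ⟨?_, hvC'⟩
      by_contra hvX
      exact hC''.2.2 c hc v ⟨hvC', hvX⟩ hv hcv
    · exact Or.inl ⟨hvC', c, hC''C' hc, hcv⟩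
  set A'' : Set V := A ∪ (K \ Nb S C'') with hA''
  set Ξ'' : Set V := Ξ ∪ ((Nb S C' ∩ Nb S C) \ K) with hΞ''
  set X'' : Set V := X' ∪ (X ∩ C') with hX''
  have hX''X : ∀ v ∈ Ξ'' ∪ X'', v ∈ X := by
    rintro v ((hv | hv) | (hv | hv))
    · exact hΞX v (Or.inl hv)
    · exact hNKX v hv.1.1 hv.2
    · exact hΞX v (Or.inr hv)
    · exact hv.1
  have s2 : Nb S C'' ⊆ (Nb S C \ A'') ∪ X'' := by
    intro v hv
    rcases hN'' v hv with h' | h'
    · rcases hch.s2 h' with h1 | h1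
      · refine Or.inl ⟨h1.1, ?_⟩
        rintro (h2 | h2)
        · exact h1.2 h2
        · exact h2.2 hv
      · exact Or.inr (Or.inl h1)
    · exact Or.inr (Or.inr h')
  have s3 : Nb S C ⊆ A'' ∪ Nb S C'' ∪ Ξ'' := by
    intro v hv
    rcases hch.s3 hv with (h' | h') | h'
    · exact Or.inl (Or.inl (Or.inl h'))
    · by_cases hvK : v ∈ K
      · by_cases hv'' : v ∈ Nb S C''
        · exact Or.inl (Or.inr hv'')
        · exact Or.inl (Or.inl (Or.inr ⟨hvK, hv''⟩))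
      · exact Or.inr (Or.inr ⟨⟨h', hv⟩, hvK⟩)
    · exact Or.inr (Or.inl h')
  have s4b : Ξ'' ⊆ Nb S C := by
    rintro v (hv | hv)
    · exact hch.s4b hv
    · exact hv.1.2
  have s4c : ∀ x ∈ X'', x ∈ C ∧ x ∉ C'' := by
    rintro v (hv | hv)
    · exact ⟨(hch.s4c v hv).1, fun h' => (hch.s4c v hv).2 (hC''C' h')⟩
    · exact ⟨hch.s1b hv.2, fun h' => hC''X v h' hv.1⟩
  have s5' : ∀ v ∈ Nb S C'', v ∉ Ξ'' ∪ X'' → v ∈ K := by
    intro v hv hv'
    by_contra hvK
    rcases hN'' v hv with h' | h'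
    · rcases hch.s2 h' with h1 | h1
      · exact hv' (Or.inl (Or.inr ⟨⟨h', h1.1⟩, hvK⟩))
      · exact hv' (Or.inr (Or.inl h1))
    · exact hv' (Or.inr (Or.inr h'))
  have s5 : ∀ v ∈ Nb S C'', v ∉ Ξ'' ∪ X'' → ∀ x ∈ Ξ'' ∪ X'', S v x := by
    intro v hv hv' x hx
    exact hs _ _ (hX''X x hx v (s5' v hv hv'))
  have s6a : A'' ⊆ Nb S C := by
    rintro v (hv | hv)
    · exact hch.s6a hv
    · exact hKB hv.1
  have s7 : ∀ v ∈ X'', v ∉ Y := by
    rintro v (hv | hv)
    · exact hch.s7 v hv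
    · exact hXY v hv.1
  have hX''K : ∀ v ∈ X'', ∀ k ∈ K, S v k := fun v hv => hX''X v (Or.inr hv)
  rcases le_total (K \ Nb S C'').ncard (X'' \ (μ '' A)).ncard with hle | hle
  · -- extend `μ`
    right
    classical
    obtain ⟨f, hf, hf'⟩ := exists_inj hle
    refine ⟨C'', A'', Ξ'', X'', fun v => if v ∈ A then μ v else f v, hss, hEC'',
      hC''C'.trans hch.s1b, hC''.2.1, s2, s3, hXc.mono hX''X, s4b, s4c, s5, s6a, ?_, ?_, s7⟩
    · have hmem : ∀ v ∈ A'', v ∉ A → v ∈ K \ Nb S C'' := by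
        rintro v (hv | hv) hvA
        · exact absurd hv hvA
        · exact hv
      intro u hu v hv huv
      by_cases huA : u ∈ A
      · by_cases hvA : v ∈ A
        · simp only [huA, hvA, if_true] at huv
          exact hch.s6b huA hvA huv
        · simp only [huA, hvA, if_true, if_false] at huv
          exact absurd ⟨u, huA, huv⟩ (hf' v (hmem v hv hvA)).2
      · by_cases hvA : v ∈ A
        · simp only [huA, hvA, if_true, if_false] at huv
          exact absurd ⟨v, hvA, huv.symm⟩ (hf' u (hmem u hu huA)).2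
        · simp only [huA, hvA, if_false] at huv
          exact hf (hmem u hu huA) (hmem v hv hvA) huv
    · intro a ha
      by_cases haA : a ∈ A
      · simp only [haA, if_true]
        exact ⟨Or.inl (hch.s6c a haA).1, (hch.s6c a haA).2⟩
      · simp only [haA, if_false]
        rcases ha with ha | ha
        · exact absurd ha haA
        · exact ⟨(hf' a ha).1, hs _ _ (hX''K _ (hf' a ha).1 a ha.1)⟩
  · -- the other end
    left
    classical
    obtain ⟨g, hg, hg'⟩ := exists_inj hle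
    have hinv : ∀ x ∈ μ '' A, Function.invFunOn μ A x ∈ A ∧ μ (Function.invFunOn μ A x) = x := by
      rintro x ⟨a, ha, hax⟩
      exact ⟨Function.invFunOn_mem ⟨a, ha, hax⟩, Function.invFunOn_eq ⟨a, ha, hax⟩⟩
    refine ⟨C'', ⟨hC''C'.trans hch.s1b, fun h' => hss.2 (hch.s1b.trans h')⟩, hEC'', hC''.2.1,
      chain_up hs hα (hC''C'.trans hch.s1b) s2 s6a (fun x hx => (s4c x hx).1)
        (ν := fun x => if x ∈ μ '' A then Function.invFunOn μ A x else g x) ?_ ?_ ?_,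
      anc_sub hs hA hKB (hC''C'.trans hch.s1b) hk₀ hk₀' ?_, ?_⟩
    · intro u hu v hv huv
      by_cases hu' : u ∈ μ '' A
      · by_cases hv' : v ∈ μ '' A
        · simp only [hu', hv', if_true] at huv
          rw [← (hinv u hu').2, ← (hinv v hv').2, huv]
        · simp only [hu', hv', if_true, if_false] at huv
          exact absurd (huv ▸ (hinv u hu').1 : g v ∈ A) (hKBA _ (hg' v ⟨hv, hv'⟩).1).2
      · by_cases hv' : v ∈ μ '' A
        · simp only [hu', hv', if_true, if_false] at huv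
          exact absurd (huv ▸ (hinv v hv').1 : g u ∈ A) (hKBA _ (hg' u ⟨hu, hu'⟩).1).2
        · simp only [hu', hv', if_false] at huv
          exact hg ⟨hu, hu'⟩ ⟨hv, hv'⟩ huv
    · intro x hx
      by_cases hx' : x ∈ μ '' A
      · simp only [hx', if_true]
        exact Or.inl (hinv x hx').1
      · simp only [hx', if_false]
        exact Or.inr (hg' x ⟨hx, hx'⟩)
    · intro x hx
      by_cases hx' : x ∈ μ '' A
      · simp only [hx', if_true]
        have := (hch.s6c _ (hinv x hx').1).2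
        rw [(hinv x hx').2] at this
        exact hs _ _ this
      · simp only [hx', if_false]
        exact hX''K x hx _ (hg' x ⟨hx, hx'⟩).1
    · intro v hv
      by_cases hv' : v ∈ Ξ'' ∪ X''
      · exact Or.inl (hX''X v hv')
      · exact Or.inr (s5' v hv hv')
    · intro v hv
      rcases s2 hv with h' | h'
      · exact hBY v h'.1
      · exact s7 v h'

theorem chain_run [Finite V] (hs : Sym S) (hw : Wch S) {C Y E : Set V}
    (hA : ANC S C) (hα : Alp h S C) (hYC : Y ⊆ C) (hT : St h (del S Y) Set.univ W F)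
    (hcl : ∀ E, Comp S Y E → Clq F (Nb S E)) (hE : Comp S Y E) :
    ∀ (m : ℕ) (C' A Ξ X' : Set V) (μ : V → V), C'.ncard = m → Chn S C Y E F C' A Ξ X' μ →
      Wd h S ∨ Out h S C Y E := by
  intro m
  induction m using Nat.strong_induction_on with
  | _ m ih =>
    intro C' A Ξ X' μ hm hch
    by_cases hcl' : Clq F (Nb S C')
    · exact Or.inl (chain_down hs hα hYC hT hch hcl')
    · rcases chain_step hs hw hA hα hYC hT hcl hE hch hcl' with h' | ⟨C'', A'', Ξ'', X'', μ'', h1, h2⟩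
      · exact Or.inr h'
      · exact ih C''.ncard (hm ▸ Set.ncard_lt_ncard h1 (Set.toFinite _)) C'' A'' Ξ'' X'' μ'' rfl h2

theorem chain [Finite V] (hs : Sym S) (hw : Wch S) {C Y E : Set V} (hC : Conn S C)
    (hA : ANC S C) (hα : Alp h S C) (hYC : Y ⊆ C) (hT : St h (del S Y) Set.univ W F)
    (hcl : ∀ E, Comp S Y E → Clq F (Nb S E)) (hE : Comp S Y E) :
    Wd h S ∨ Out h S C Y E := by
  refine chain_run hs hw hA hα hYC hT hcl hE _ C ∅ ∅ ∅ id rfl
    ⟨hE.1.trans hYC, Set.Subset.rfl, hC, ?_, ?_, ?_, Set.empty_subset _, ?_, ?_,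
      Set.empty_subset _, Set.injOn_empty _, ?_, ?_⟩
  · intro v hv
    exact Or.inl ⟨hv, Set.notMem_empty v⟩
  · intro v hv
    exact Or.inl (Or.inr hv)
  · rintro u (hu | hu)
    · exact absurd hu (Set.notMem_empty u)
    · exact absurd hu (Set.notMem_empty u)
  · intro x hx
    exact absurd hx (Set.notMem_empty x)
  · rintro v - - x (hx | hx)
    · exact absurd hx (Set.notMem_empty x)
    · exact absurd hx (Set.notMem_empty x)
  · intro a ha
    exact absurd ha (Set.notMem_empty a)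
  · intro v hv
    exact absurd hv (Set.notMem_empty v)

theorem restore_aux [Finite V] (m : ℕ) : ∀ (S : V → V → Prop) (C : Set V), C.ncard = m → Sym S →
    Wch S → Conn S C → ANC S C → Alp h S C → Wd h (del S C) → Wd h S := by
  induction m using Nat.strong_induction_on with
  | _ m ihC =>
    intro S C hm hs hw hC hA hα hT0
    have key : ∀ (k : ℕ) (Y : Set V), Y.ncard = k → Y ⊆ C → Wd h (del S Y) →
        (∀ E, Comp S Y E → ANC S E) → Wd h S := by
      intro k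
      induction k using Nat.strong_induction_on with
      | _ k ihY =>
        intro Y hk hYC hT hY
        rcases Set.eq_empty_or_nonempty Y with hY0 | ⟨y, hy⟩
        · obtain ⟨W, F, hT⟩ := hT
          refine ⟨W, F, hT.mono_rel fun u _ v _ huv => ⟨huv, fun h' => ?_⟩⟩
          rw [hY0] at h'
          exact absurd h'.1 (Set.notMem_empty u)
        · obtain ⟨W, F, hT⟩ := hT
          by_cases hcl : ∀ E, Comp S Y E → Clq F (Nb S E)
          · obtain ⟨E, hE, hyE⟩ := exists_comp hs hy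
            rcases chain hs hw hC hA hα hYC hT hcl hE with h' |
              ⟨C'', hC''C, hEC'', hC'', hα'', hA'', hNY⟩
            · exact h'
            · have hcomp : ∀ E', Comp S (Y \ C'') E' → Comp S Y E' := by
                intro E' hE'
                refine ⟨hE'.1.trans Set.sdiff_subset, hE'.2.1, fun e he v hv hvE' hev => ?_⟩
                by_cases hvC : v ∈ C''
                · exact hNY e ⟨(hE'.1 he).2, v, hvC, hs _ _ hev⟩ (hE'.1 he).1
                · exact hE'.2.2 e he v ⟨hv, hvC⟩ hvE' hev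
              have hNb : Nb (del S (Y \ C'')) C'' = Nb S C'' := by
                ext v
                constructor
                · rintro ⟨hv, c, hc, hcv⟩
                  exact ⟨hv, c, hc, hcv.1⟩
                · rintro ⟨hv, c, hc, hcv⟩
                  exact ⟨hv, c, hc, hcv, fun h' => h'.1.2 hc⟩
              have hA3 : ANC (del S (Y \ C'')) C'' := by
                intro K hK hKN
                rw [hNb] at hKN
                obtain ⟨z, hz, hzK, hzC⟩ := hA'' K (hK.mono_rel (by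
                  intro u hu v hv huv h'
                  exact huv ⟨h', fun h3 => hNY u (hKN hu) h3.1.1⟩)) hKN
                exact ⟨z, hz, fun k hk => ⟨hzK k hk, fun h' => hNY k (hKN hk) h'.2.1⟩,
                  fun c hc h' => hzC c hc h'.1⟩
              have hα3 : Alp h (del S (Y \ C'')) C'' := by
                obtain ⟨W2, F2, hT2, hQ2⟩ := hα''
                refine ⟨W2, F2, ?_, ?_⟩
                · rw [hNb]
                  exact hT2.mono_rel fun u _ v _ huv => huv.1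
                · rw [hNb]; exact hQ2
              have hwd : Wd h (del S (Y \ C'')) := by
                refine ihC C''.ncard (hm ▸ Set.ncard_lt_ncard hC''C (Set.toFinite _)) _ C'' rfl
                  (del_symm hs _) (wch_del hs hw fun E' hE' => hY E' (hcomp E' hE'))
                  (hC''.mono_rel fun u hu v hv huv => ⟨huv, fun h' => h'.1.2 hu⟩) hA3 hα3
                  ⟨W, F, hT.mono_rel ?_⟩
                rintro u - v - ⟨⟨huv, h1⟩, h2⟩
                refine ⟨huv, fun h' => ?_⟩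
                by_cases huC : u ∈ C''
                · have hvC : v ∉ C'' := fun h3 => h2 ⟨huC, h3⟩
                  exact hNY v ⟨hvC, u, huC, huv⟩ h'.2
                · by_cases hvC : v ∈ C''
                  · exact hNY u ⟨huC, v, hvC, hs _ _ huv⟩ h'.1
                  · exact h1 ⟨⟨h'.1, huC⟩, ⟨h'.2, hvC⟩⟩
              have hlt : (Y \ C'').ncard < Y.ncard := by
                refine Set.ncard_lt_ncard ⟨Set.sdiff_subset, fun h' => ?_⟩ (Set.toFinite _)
                exact (h' hy).2 (hEC'' hyE)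
              exact ihY _ (hk ▸ hlt) (Y \ C'') rfl (Set.sdiff_subset.trans hYC) hwd
                (fun E' hE' => hY E' (hcomp E' hE'))
          · push Not at hcl
            obtain ⟨E, hE, hN⟩ := hcl
            obtain ⟨Y', hY', hT', hA'⟩ := restore_step hs hw hY hT hE hN
            exact ihY Y'.ncard (hk ▸ Set.ncard_lt_ncard hY' (Set.toFinite _)) Y' rfl
              (hY'.subset.trans hYC) hT' hA'
    exact key _ C rfl Set.Subset.rfl hT0 fun E hE => by
      rw [Comp.eq_of_conn hC hE]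
      exact hA

theorem restore [Finite V] {S : V → V → Prop} {C : Set V} (hs : Sym S) (hw : Wch S)
    (hC : Conn S C) (hA : ANC S C) (hα : Alp h S C) (hT : Wd h (del S C)) : Wd h S :=
  restore_aux _ S C rfl hs hw hC hA hα hT

end Pool.Agent.Lib.MP_23961f_co.WC
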