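import Pool.Agent.Lib.MP_23961f_co.WC.Hayward

/-!
# Components and co-components
-/

set_option autoImplicit false

namespace Pool.Agent.Lib.MP_23961f_co.WC

variable {V : Type*} {R R' : V → V → Prop}

theorem Conn.mono_rel {D : Set V} (hD : Conn R D) (h : ∀ u ∈ D, ∀ v ∈ D, R u v → R' u v) :
    Conn R' D := by
  refine ⟨hD.1, fun A hA hA1 hA2 => ?_⟩
  obtain ⟨a, ha, b, hb, hab⟩ := hD.2 A hA hA1 hA2
  exact ⟨a, ha, b, hb, h a (hA ha) b hb.1 hab⟩

theorem Conn.insert {D : Set V} (hs : Sym R) (hD : Conn R D) {v : V} (hv : ∃ d ∈ D, R d v) :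
    Conn R (insert v D) := by
  obtain ⟨d, hd, hdv⟩ := hv
  refine ⟨⟨v, Or.inl rfl⟩, fun A hA hA1 hA2 => ?_⟩
  by_cases hvD : v ∈ D
  · rw [Set.insert_eq_of_mem hvD] at hA hA2 ⊢
    exact hD.2 A hA hA1 hA2
  by_cases h1 : (A ∩ D).Nonempty
  · by_cases h2 : (D \ (A ∩ D)).Nonempty
    · obtain ⟨a, ha, b, hb, hab⟩ := hD.2 (A ∩ D) Set.inter_subset_right h1 h2
      exact ⟨a, ha.1, b, ⟨Or.inr hb.1, fun h' => hb.2 ⟨h', hb.1⟩⟩, hab⟩
    · have hDA : D ⊆ A := by
        intro x hx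
        by_contra hxA
        exact h2 ⟨x, hx, fun h' => hxA h'.1⟩
      obtain ⟨b, hb⟩ := hA2
      have hbv : b = v := by
        rcases hb.1 with h' | h'
        · exact h'
        · exact absurd (hDA h') hb.2
      exact ⟨d, hDA hd, v, ⟨Or.inl rfl, hbv ▸ hb.2⟩, hdv⟩
  · have hAv : ∀ a ∈ A, a = v := by
      intro a ha
      rcases hA ha with h' | h'
      · exact h'
      · exact absurd ⟨a, ha, h'⟩ h1
    obtain ⟨a, ha⟩ := hA1
    have hvA : v ∈ A := hAv a ha ▸ ha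
    refine ⟨v, hvA, d, ⟨Or.inr hd, fun h' => hvD (hAv d h' ▸ hd)⟩, hs _ _ hdv⟩

/-- a connected subset of `A` which meets a component lies in it -/
theorem Comp.sub_of_conn {A E D : Set V} (hE : Comp R A E) (hD : Conn R D) (hDA : D ⊆ A)
    (hm : (D ∩ E).Nonempty) : D ⊆ E := by
  by_contra hcon
  obtain ⟨x, hxD, hxE⟩ := Set.not_subset.1 hcon
  obtain ⟨a, ha, b, hb, hab⟩ := hD.2 (D ∩ E) Set.inter_subset_left hm
    ⟨x, hxD, fun h' => hxE h'.2⟩
  exact hE.2.2 a ha.2 b (hDA hb.1) (fun h' => hb.2 ⟨hb.1, h'⟩) hab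

theorem Comp.eq {A E E' : Set V} (hE : Comp R A E) (hE' : Comp R A E') (hm : (E ∩ E').Nonempty) :
    E = E' :=
  Set.Subset.antisymm (hE'.sub_of_conn hE.2.1 hE.1 hm)
    (hE.sub_of_conn hE'.2.1 hE'.1 (by rwa [Set.inter_comm]))

theorem Conn.comp_self {C : Set V} (hC : Conn R C) : Comp R C C :=
  ⟨Set.Subset.rfl, hC, fun _ _ v hv hv' => absurd hv hv'⟩

theorem Comp.eq_of_conn {C E : Set V} (hC : Conn R C) (hE : Comp R C E) : E = C := by
  obtain ⟨x, hx⟩ := hE.2.1.1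
  exact Comp.eq hE hC.comp_self ⟨x, hx, hE.1 hx⟩

theorem exists_comp (hs : Sym R) {A : Set V} {v : V} (hv : v ∈ A) :
    ∃ E, Comp R A E ∧ v ∈ E := by
  have hstep : ∀ x y, Relation.ReflTransGen (fun x y => x ∈ A ∧ y ∈ A ∧ R x y) v x →
      y ∈ A → R x y → Relation.ReflTransGen (fun x y => x ∈ A ∧ y ∈ A ∧ R x y) v y := by
    intro x y hx hy hxy
    have hxA : x ∈ A := by
      cases hx with
      | refl => exact hv
      | tail _ h' => exact h'.2.1
    exact hx.tail ⟨hxA, hy, hxy⟩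
  refine ⟨{x | Relation.ReflTransGen (fun x y => x ∈ A ∧ y ∈ A ∧ R x y) v x}, ⟨?_, ⟨⟨v, .refl⟩, ?_⟩,
    ?_⟩, .refl⟩
  · intro x hx
    cases hx with
    | refl => exact hv
    | tail _ h' => exact h'.2.1
  · intro B hB hB1 hB2
    by_contra hcon
    push Not at hcon
    by_cases hvB : v ∈ B
    · have hall : ∀ x, Relation.ReflTransGen (fun x y => x ∈ A ∧ y ∈ A ∧ R x y) v x → x ∈ B := by
        intro x hx
        induction hx with
        | refl => exact hvB
        | @tail y z hy hyz ih =>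
          by_contra hz
          exact hcon y ih z ⟨hy.tail hyz, hz⟩ hyz.2.2
      obtain ⟨x, hx, hxB⟩ := hB2
      exact hxB (hall x hx)
    · have hall : ∀ x, Relation.ReflTransGen (fun x y => x ∈ A ∧ y ∈ A ∧ R x y) v x → x ∉ B := by
        intro x hx
        induction hx with
        | refl => exact hvB
        | @tail y z hy hyz ih =>
          intro hz
          exact hcon z hz y ⟨hy, ih⟩ (hs _ _ hyz.2.2)
      obtain ⟨x, hx⟩ := hB1
      exact hall x (hB hx) hx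
  · intro e he u hu hue heu
    exact hue (hstep e u he hu heu)

/-- a co-connected set which is a union of two parts, complete to each other, lies in one part -/
theorem Conn.co_sub {K A B : Set V} (hK : Conn (co R) K) (hKAB : K ⊆ A ∪ B)
    (hAB : ∀ a ∈ A, ∀ b ∈ B, a ∈ K → b ∈ K → b ∉ A → R a b) : K ⊆ A ∨ K ⊆ B := by
  by_cases h1 : (K ∩ A).Nonempty
  · by_cases h2 : (K \ (K ∩ A)).Nonempty
    · obtain ⟨a, ha, b, hb, hab⟩ := hK.2 (K ∩ A) Set.inter_subset_left h1 h2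
      have hbA : b ∉ A := fun h' => hb.2 ⟨hb.1, h'⟩
      have hbB : b ∈ B := by
        rcases hKAB hb.1 with h' | h'
        · exact absurd h' hbA
        · exact h'
      exact absurd (hAB a ha.2 b hbB ha.1 hb.1 hbA) hab
    · left
      intro x hx
      by_contra hxA
      exact h2 ⟨x, hx, fun h' => hxA h'.2⟩
  · right
    intro x hx
    rcases hKAB hx with h' | h'
    · exact absurd ⟨x, hx, h'⟩ h1
    · exact h'

/-- a co-component that is not a looped clique -/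
theorem exists_cocomp [Finite V] (hs : Sym R) {F : V → V → Prop} (hFs : ∀ u v, F u v → F v u)
    {N : Set V} (hN : ¬ Clq F N)
    (hF : ∀ u ∈ N, ∀ v ∈ N, F u u → F v v → R u v → F u v) :
    ∃ K, K ⊆ N ∧ Conn (co R) K ∧ ¬ Clq F K ∧ ∀ u ∈ N, u ∉ K → ∀ k ∈ K, R u k := by
  have hex : ∃ m : ℕ, ∃ K : Set V, K.ncard = m ∧ K ⊆ N ∧ ¬ Clq F K ∧
      ∀ u ∈ N, u ∉ K → ∀ k ∈ K, R u k :=
    ⟨N.ncard, N, rfl, Set.Subset.rfl, hN, fun u hu hu' => absurd hu hu'⟩
  classical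
  obtain ⟨K, hKm, hKN, hKc, hKR⟩ := Nat.find_spec hex
  have hmin : ∀ K' : Set V, K' ⊂ K → (∀ u ∈ N, u ∉ K' → ∀ k ∈ K', R u k) → Clq F K' := by
    intro K' hK' hR'
    by_contra hc
    have hlt : K'.ncard < Nat.find hex := hKm ▸ Set.ncard_lt_ncard hK' (Set.toFinite K)
    exact Nat.find_min hex hlt ⟨K', rfl, hK'.subset.trans hKN, hc, hR'⟩
  refine ⟨K, hKN, ⟨?_, ?_⟩, hKc, hKR⟩
  · by_contra hne
    rw [Set.not_nonempty_iff_eq_empty] at hne
    exact hKc (fun u hu => absurd hu (by rw [hne]; exact Set.notMem_empty u))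
  · intro A hA hA1 hA2
    by_contra hcon
    push Not at hcon
    have hcon' : ∀ a ∈ A, ∀ b ∈ K \ A, R a b := fun a ha b hb => not_not.1 (hcon a ha b hb)
    have hAss : A ⊂ K := by
      refine ⟨hA, fun h' => ?_⟩
      obtain ⟨x, hx⟩ := hA2
      exact hx.2 (h' hx.1)
    have hBss : K \ A ⊂ K := by
      refine ⟨Set.sdiff_subset, fun h' => ?_⟩
      obtain ⟨x, hx⟩ := hA1
      exact (h' (hA hx)).2 hx
    have hcA : Clq F A := by
      refine hmin A hAss fun u hu hu' k hk => ?_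
      by_cases huK : u ∈ K
      · exact hs _ _ (hcon' k hk u ⟨huK, hu'⟩)
      · exact hKR u hu huK k (hA hk)
    have hcB : Clq F (K \ A) := by
      refine hmin (K \ A) hBss fun u hu hu' k hk => ?_
      by_cases huK : u ∈ K
      · have huA : u ∈ A := by
          by_contra huA
          exact hu' ⟨huK, huA⟩
        exact hcon' u huA k hk
      · exact hKR u hu huK k hk.1
    refine hKc fun u hu v hv => ?_
    by_cases huA : u ∈ A
    · by_cases hvA : v ∈ A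
      · exact hcA u huA v hvA
      · exact hF u (hKN hu) v (hKN hv) (hcA u huA u huA) (hcB v ⟨hv, hvA⟩ v ⟨hv, hvA⟩)
          (hcon' u huA v ⟨hv, hvA⟩)
    · by_cases hvA : v ∈ A
      · exact hFs _ _ (hF v (hKN hv) u (hKN hu) (hcA v hvA v hvA) (hcB u ⟨hu, huA⟩ u ⟨hu, huA⟩)
          (hcon' v hvA u ⟨hu, huA⟩))
      · exact hcB u ⟨hu, huA⟩ v ⟨hv, hvA⟩

end Pool.Agent.Lib.MP_23961f_co.WC
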