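import Pool.Agent.Lib.MP_23961f_co.WC.Defs

/-!
# Shortest paths, holes, Hayward's lemma
-/

set_option autoImplicit false

namespace Pool.Agent.Lib.MP_23961f_co.WC

variable {V : Type*} {R : V → V → Prop}

theorem conn_singleton (R : V → V → Prop) (v : V) : Conn R {v} := by
  refine ⟨Set.singleton_nonempty v, ?_⟩
  rintro A hA ⟨a, ha⟩ ⟨b, hb, hbA⟩
  have h1 := hA ha
  simp only [Set.mem_singleton_iff] at h1 hb
  exact absurd (hb ▸ h1 ▸ ha) hbA

theorem Sym.co (hs : Sym R) : Sym (co R) := fun u v h h' => h (hs v u h')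

/-! ### operations on induced paths -/

theorem IPath.append {p q : ℕ → V} {m n : ℕ} (hp : IPath R p m) (hq : IPath R q n)
    (hne : ∀ i j, i ≤ m → j ≤ n → p i ≠ q j) (hadj : R (p m) (q 0))
    (hn : ∀ i j, i ≤ m → j ≤ n → (i < m ∨ 0 < j) → ¬ R (p i) (q j)) :
    IPath R (fun i => if i ≤ m then p i else q (i - (m + 1))) (m + n + 1) := by
  refine ⟨?_, ?_, ?_⟩
  · intro i j hij hj
    by_cases h : i ≤ m <;> by_cases h' : j ≤ m
    · simp only [h, h', if_true]; exact hp.inj i j hij h'
    · simp only [h, h', if_true, if_false]; exact hne _ _ h (by omega)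
    · omega
    · simp only [h, h', if_false]; exact hq.inj _ _ (by omega) (by omega)
  · intro i hi
    by_cases h : i ≤ m <;> by_cases h' : i + 1 ≤ m
    · simp only [h, h', if_true]; exact hp.adj i (by omega)
    · simp only [h, h', if_true, if_false]
      have e : i = m := by omega
      subst e
      have e' : i + 1 - (i + 1) = 0 := by omega
      rw [e']; exact hadj
    · omega
    · simp only [h, h', if_false]
      have e : i + 1 - (m + 1) = i - (m + 1) + 1 := by omega
      rw [e]; exact hq.adj _ (by omega)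
  · intro i j hij hj
    by_cases h : i ≤ m <;> by_cases h' : j ≤ m
    · simp only [h, h', if_true]; exact hp.nadj i j hij h'
    · simp only [h, h', if_true, if_false]; exact hn _ _ h (by omega) (by omega)
    · omega
    · simp only [h, h', if_false]; exact hq.nadj _ _ (by omega) (by omega)

theorem IPath.cons {p : ℕ → V} {m : ℕ} (hp : IPath R p m) {w : V}
    (hne : ∀ i, i ≤ m → w ≠ p i) (hadj : R w (p 0)) (hn : ∀ i, 0 < i → i ≤ m → ¬ R w (p i)) :
    IPath R (fun i => if i = 0 then w else p (i - 1)) (m + 1) := by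
  refine ⟨?_, ?_, ?_⟩
  · intro i j hij hj
    by_cases h : i = 0
    · have h' : j ≠ 0 := by omega
      simp only [h, h', if_true, if_false]; exact hne _ (by omega)
    · have h' : j ≠ 0 := by omega
      simp only [h, h', if_false]; exact hp.inj _ _ (by omega) (by omega)
  · intro i hi
    by_cases h : i = 0
    · subst h; simpa using hadj
    · have h' : i + 1 ≠ 0 := by omega
      simp only [h, h', if_false]
      have e : i + 1 - 1 = i - 1 + 1 := by omega
      rw [e]; exact hp.adj _ (by omega)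
  · intro i j hij hj
    have h' : j ≠ 0 := by omega
    by_cases h : i = 0
    · simp only [h, h', if_true, if_false]; exact hn _ (by omega) (by omega)
    · simp only [h, h', if_false]; exact hp.nadj _ _ (by omega) (by omega)

theorem IPath.snoc {p : ℕ → V} {m : ℕ} (hp : IPath R p m) {w : V}
    (hne : ∀ i, i ≤ m → p i ≠ w) (hadj : R (p m) w) (hn : ∀ i, i < m → ¬ R (p i) w) :
    IPath R (fun i => if i ≤ m then p i else w) (m + 1) := by
  refine ⟨?_, ?_, ?_⟩
  · intro i j hij hj
    by_cases h' : j ≤ m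
    · have h : i ≤ m := by omega
      simp only [h, h', if_true]; exact hp.inj i j hij h'
    · have h : i ≤ m := by omega
      simp only [h, h', if_true, if_false]; exact hne _ h
  · intro i hi
    by_cases h' : i + 1 ≤ m
    · have h : i ≤ m := by omega
      simp only [h, h', if_true]; exact hp.adj i (by omega)
    · have h : i = m := by omega
      subst h
      simp only [le_refl, h', if_true, if_false]; exact hadj
  · intro i j hij hj
    have h : i ≤ m := by omega
    by_cases h' : j ≤ m
    · simp only [h, h', if_true]; exact hp.nadj i j hij h'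
    · simp only [h, h', if_true, if_false]; exact hn _ (by omega)

theorem IPath.rev (hs : Sym R) {p : ℕ → V} {m : ℕ} (hp : IPath R p m) :
    IPath R (fun i => p (m - i)) m := by
  refine ⟨?_, ?_, ?_⟩
  · intro i j hij hj
    exact (hp.inj _ _ (by omega) (by omega)).symm
  · intro i hi
    have e : m - i = m - (i + 1) + 1 := by omega
    simp only [e]
    exact hs _ _ (hp.adj _ (by omega))
  · intro i j hij hj h
    exact hp.nadj (m - j) (m - i) (by omega) (by omega) (hs _ _ h)

theorem IPath.sub {p : ℕ → V} {m : ℕ} (hp : IPath R p m) {a b : ℕ} (hb : a + b ≤ m) :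
    IPath R (fun i => p (a + i)) b := by
  refine ⟨?_, ?_, ?_⟩
  · intro i j hij hj
    exact hp.inj _ _ (by omega) (by omega)
  · intro i hi
    exact hp.adj (a + i) (by omega)
  · intro i j hij hj
    exact hp.nadj _ _ (by omega) (by omega)

theorem IPath.conn (hs : Sym R) {p : ℕ → V} {m : ℕ} (hp : IPath R p m) :
    Conn R {v | ∃ i, i ≤ m ∧ p i = v} := by
  refine ⟨⟨p 0, 0, Nat.zero_le _, rfl⟩, ?_⟩
  rintro A hA ⟨a, ha⟩ ⟨b, ⟨j, hj, rfl⟩, hbA⟩
  by_contra hcon
  push Not at hcon
  have step : ∀ i, i < m → (p i ∈ A ↔ p (i + 1) ∈ A) := by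
    intro i hi
    constructor
    · intro h
      by_contra h'
      exact hcon _ h (p (i + 1)) ⟨⟨i + 1, by omega, rfl⟩, h'⟩ (hp.adj i hi)
    · intro h
      by_contra h'
      exact hcon _ h (p i) ⟨⟨i, by omega, rfl⟩, h'⟩ (hs _ _ (hp.adj i hi))
  have all : ∀ i, i ≤ m → (p i ∈ A ↔ p 0 ∈ A) := by
    intro i
    induction i with
    | zero => intro _; rfl
    | succ i ih => intro hi; rw [← step i (by omega)]; exact ih (by omega)
  obtain ⟨i, hi, rfl⟩ := hA ha
  exact hbA ((all j hj).2 ((all i hi).1 ha))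

/-- a shortest path in `D` from `A` to `B` (length 0 if `A` and `B` meet in `D`) -/
theorem exists_ipath (hs : Sym R) {D A B : Set V} (hD : Conn R D) (hA : (D ∩ A).Nonempty)
    (hB : (D ∩ B).Nonempty) :
    ∃ (p : ℕ → V) (m : ℕ), IPath R p m ∧ (∀ i, i ≤ m → p i ∈ D) ∧ p 0 ∈ A ∧ p m ∈ B ∧
      (∀ i, 0 < i → i ≤ m → p i ∉ A) ∧ (∀ i, i < m → p i ∉ B) := by
  classical
  have hex : ∃ n : ℕ, ∃ x : ℕ → V, (∀ i, i ≤ n → x i ∈ D) ∧ x 0 ∈ A ∧ x n ∈ B ∧
      ∀ i, i < n → R (x i) (x (i+1)) := by
    have hZ : ∀ v ∈ D, ∃ n : ℕ, ∃ x : ℕ → V, (∀ i, i ≤ n → x i ∈ D) ∧ x 0 ∈ A ∧ x n = v ∧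
      ∀ i, i < n → R (x i) (x (i+1)) := by
      by_contra hcon
      push Not at hcon
      obtain ⟨v, hvD, hv⟩ := hcon
      obtain ⟨a, haD, haA⟩ := hA
      obtain ⟨z, ⟨hzD, n, x, h1, h2, h3, h4⟩, w, ⟨hwD, hw⟩, hzw⟩ :=
        hD.2 {v | v ∈ D ∧ ∃ n : ℕ, ∃ x : ℕ → V, (∀ i, i ≤ n → x i ∈ D) ∧ x 0 ∈ A ∧ x n = v ∧
          ∀ i, i < n → R (x i) (x (i+1))} (fun v hv => hv.1)
          ⟨a, haD, 0, fun _ => a, fun _ _ => haD, haA, rfl, fun i hi => absurd hi (by omega)⟩
          ⟨v, hvD, by
            rintro ⟨-, n, x, h1, h2, h3, h4⟩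
            obtain ⟨i, hi, hi'⟩ := hv n x h1 h2 h3
            exact hi' (h4 i hi)⟩
      apply hw
      refine ⟨hwD, n + 1, fun i => if i ≤ n then x i else w, ?_, ?_, ?_, ?_⟩
      · intro i hi
        by_cases h : i ≤ n
        · simpa [h] using h1 i h
        · simpa [h] using hwD
      · simpa using h2
      · simp
      · intro i hi
        by_cases h : i = n
        · subst h
          simpa [h3] using hzw
        · have h1 : i ≤ n := by omega
          have h2 : i + 1 ≤ n := by omega
          simpa [h1, h2] using h4 i (by omega)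
    obtain ⟨b, hbD, hbB⟩ := hB
    obtain ⟨n, x, h1, h2, h3, h4⟩ := hZ b hbD
    exact ⟨n, x, h1, h2, h3 ▸ hbB, h4⟩
  obtain ⟨x, h1, h2, h3, h4⟩ := Nat.find_spec hex
  have hmin : ∀ m, m < Nat.find hex → ¬ ∃ x : ℕ → V, (∀ i, i ≤ m → x i ∈ D) ∧ x 0 ∈ A ∧ x m ∈ B ∧
      ∀ i, i < m → R (x i) (x (i+1)) := fun m hm => Nat.find_min hex hm
  generalize Nat.find hex = n at *
  -- shortcuts
  have key : ∀ i j, i + 1 < j → j ≤ n → ¬ R (x i) (x j) := by
    intro i j hij hj hadj
    apply hmin (n - (j - i - 1)) (by omega)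
    refine ⟨fun t => if t ≤ i then x t else x (t + (j - i - 1)), ?_, ?_, ?_, ?_⟩
    · intro t ht
      by_cases h : t ≤ i
      · simpa [h] using h1 t (by omega)
      · simpa [h] using h1 (t + (j - i - 1)) (by omega)
    · simpa using h2
    · have : ¬ (n - (j - i - 1) ≤ i) := by omega
      have e : n - (j - i - 1) + (j - i - 1) = n := by omega
      simpa [this, e] using h3
    · intro t ht
      by_cases h : t + 1 ≤ i
      · have h' : t ≤ i := by omega
        simpa [h, h'] using h4 t (by omega)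
      · by_cases h' : t = i
        · subst h'
          have e : t + 1 + (j - t - 1) = j := by omega
          simpa [e] using hadj
        · have h5 : ¬ t ≤ i := by omega
          have e : t + 1 + (j - i - 1) = t + (j - i - 1) + 1 := by omega
          simp only [h5, h, if_false]
          rw [e]
          exact h4 _ (by omega)
  have hS : ∀ i, 0 < i → i ≤ n → x i ∉ A := by
    intro i hi0 hi hiS
    apply hmin (n - i) (by omega)
    refine ⟨fun t => x (t + i), fun t ht => h1 _ (by omega), by simpa using hiS, ?_, ?_⟩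
    · have e : n - i + i = n := by omega
      simpa [e] using h3
    · intro t ht
      have e : t + 1 + i = t + i + 1 := by omega
      simp only [e]
      exact h4 _ (by omega)
  have hT : ∀ i, i < n → x i ∉ B := by
    intro i hi hiT
    apply hmin i hi
    exact ⟨x, fun t ht => h1 _ (by omega), h2, hiT, fun t ht => h4 t (by omega)⟩
  have hinj : ∀ i j, i < j → j ≤ n → x i ≠ x j := by
    intro i j hij hj he
    rcases Nat.lt_or_ge j n with hjn | hjn
    · have := h4 j hjn
      rw [← he] at this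
      exact key i (j + 1) (by omega) (by omega) this
    · have : j = n := by omega
      subst this
      exact hT i hij (he ▸ h3)
  exact ⟨x, n, ⟨hinj, h4, key⟩, h1, h2, h3, hS, hT⟩

/-- (H2) without holes, a vertex adjacent to both ends of an induced path does not miss two
consecutive vertices of it (take the largest `a ≤ i` and the smallest `b ≥ i + 1` with `w` adjacent
to `p a`, `p b`). -/
theorem no_gap (hH : ¬ Hole R) {p : ℕ → V} {m : ℕ} {w : V} (hp : IPath R p m)
    (hw : ∀ i, i ≤ m → w ≠ p i) (h0 : R w (p 0)) (hm : R w (p m)) {i : ℕ} (hi : i < m) :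
    R w (p i) ∨ R w (p (i + 1)) := by
  classical
  by_contra hcon
  push Not at hcon
  obtain ⟨hc1, hc2⟩ := hcon
  -- largest a ≤ i
  obtain ⟨a, ha1, ha2, ha3⟩ : ∃ a, a < i ∧ R w (p a) ∧ ∀ t, a < t → t ≤ i → ¬ R w (p t) := by
    have hex : ∃ d, d ≤ i ∧ R w (p (i - d)) := ⟨i, le_rfl, by simpa using h0⟩
    obtain ⟨h1, h2⟩ := Nat.find_spec hex
    have hmin : ∀ d, d < Nat.find hex → ¬ (d ≤ i ∧ R w (p (i - d))) := fun d hd => Nat.find_min hex hd
    generalize Nat.find hex = d at *
    have hd : d ≠ 0 := by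
      rintro rfl
      exact hc1 (by simpa using h2)
    refine ⟨i - d, by omega, h2, ?_⟩
    intro t ht1 ht2 ht
    have e : i - (i - t) = t := by omega
    exact hmin (i - t) (by omega) ⟨by omega, by rw [e]; exact ht⟩
  obtain ⟨b, hb0, hb1, hb2, hb3⟩ : ∃ b, i + 1 < b ∧ b ≤ m ∧ R w (p b) ∧
      ∀ t, i < t → t < b → ¬ R w (p t) := by
    have hex : ∃ d, i + d ≤ m ∧ R w (p (i + d)) := ⟨m - i, by omega, by
      have e : i + (m - i) = m := by omega
      rw [e]; exact hm⟩
    obtain ⟨h1, h2⟩ := Nat.find_spec hex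
    have hmin : ∀ d, d < Nat.find hex → ¬ (i + d ≤ m ∧ R w (p (i + d))) := fun d hd => Nat.find_min hex hd
    generalize Nat.find hex = d at *
    have hd : d ≠ 0 := by
      rintro rfl
      exact hc1 (by simpa using h2)
    have hd' : d ≠ 1 := by
      rintro rfl
      exact hc2 h2
    refine ⟨i + d, by omega, h1, h2, ?_⟩
    intro t ht1 ht2 ht
    have e : i + (t - i) = t := by omega
    exact hmin (t - i) (by omega) ⟨by omega, by rw [e]; exact ht⟩
  apply hH
  refine ⟨fun t => p (a + t), b - a, w, by omega, hp.sub (by omega), ?_, ?_, ?_, ?_⟩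
  · intro t ht; exact hw _ (by omega)
  · simpa using ha2
  · have e : a + (b - a) = b := by omega
    simp only [e]; exact hb2
  · intro t ht1 ht2
    by_cases h : a + t ≤ i
    · exact ha3 _ (by omega) h
    · exact hb3 _ (by omega) (by omega)

/-- (H1) Two non-adjacent vertices with neighbours in each of two connected sets, which are
anticomplete to each other, have a common neighbour in the first (and by symmetry in the second).
Otherwise: shortest path `b 0 .. b r` in `D` from the neighbours of `y` to those of `z`, `r ≥ 1`;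
shortest path `c 0 .. c s` in `C` likewise; the path `y, b 0, .., b r, z, c s, .., c 1` is induced
and `w = c 0` is adjacent to both ends but not to `b 0, b 1`: `no_gap`. -/
theorem common_nb (hs : Sym R) (hH : ¬ Hole R) {D C : Set V} (hD : Conn R D) (hC : Conn R C)
    (hDC : Anti R D C) {y z : V} (hyz : y ≠ z) (hn : ¬ R y z) (hyD : y ∈ Nb R D) (hzD : z ∈ Nb R D)
    (hyC : y ∈ Nb R C) (hzC : z ∈ Nb R C) : ∃ d ∈ D, R y d ∧ R z d := by
  obtain ⟨hyD', yd, hyd, hyd'⟩ := hyD
  obtain ⟨hzD', zd, hzd, hzd'⟩ := hzD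
  obtain ⟨hyC', yc, hyc, hyc'⟩ := hyC
  obtain ⟨hzC', zc, hzc, hzc'⟩ := hzC
  obtain ⟨b, r, hb, hbD, hb0, hbr, hbA, hbB⟩ := exists_ipath hs (A := {v | R y v}) (B := {v | R z v})
    hD ⟨yd, hyd, hs _ _ hyd'⟩ ⟨zd, hzd, hs _ _ hzd'⟩
  obtain ⟨c, s, hc, hcC, hc0, hcs, hcA, hcB⟩ := exists_ipath hs (A := {v | R y v}) (B := {v | R z v})
    hC ⟨yc, hyc, hs _ _ hyc'⟩ ⟨zc, hzc, hs _ _ hzc'⟩
  simp only [Set.mem_ofPred_eq] at hb0 hbr hbA hbB hc0 hcs hcA hcB
  by_contra hcon
  push Not at hcon
  have hr : 1 ≤ r := by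
    by_contra h
    have : r = 0 := by omega
    subst this
    exact hcon _ (hbD 0 le_rfl) hb0 hbr
  -- the path y, b 0, …, b r, z
  have h1 := hb.cons (w := y) (fun i hi h => hyD' (h ▸ hbD i hi)) hb0 (fun i hi hi' => hbA i hi hi')
  have h2 := h1.snoc (w := z) (by
    intro i hi
    by_cases h : i = 0
    · simpa [h] using hyz
    · simp only [h, if_false]
      intro h'
      exact hzD' (h' ▸ hbD _ (by omega))) (by
    have h : r + 1 ≠ 0 := by omega
    simp only [h, if_false]
    exact hs _ _ hbr) (by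
    intro i hi
    by_cases h : i = 0
    · simpa [h] using hn
    · simp only [h, if_false]
      intro h'
      exact hbB _ (by omega) (hs _ _ h'))
  by_cases hs0 : s = 0
  · subst hs0
    have := no_gap hH h2 (w := c 0) (i := 1) (by
      intro i hi
      by_cases h : i ≤ r + 1
      · by_cases h' : i = 0
        · simp only [h', Nat.zero_le, if_true]
          intro h''
          exact hyC' (h'' ▸ hcC 0 le_rfl)
        · simp only [h, h', if_true, if_false]
          exact fun h'' => (hDC _ (hbD (i - 1) (by omega)) _ (hcC 0 le_rfl)).1 h''.symm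
      · simp only [h, if_false]
        intro h''
        exact hzC' (h'' ▸ hcC 0 le_rfl)) (by simpa using hs _ _ hc0) (by
        have h : ¬ (r + 1 + 1 ≤ r + 1) := by omega
        simp only [h, if_false]
        exact hs _ _ hcs) (by omega)
    have e1 : 1 ≤ r + 1 := by omega
    have e2 : 1 + 1 ≤ r + 1 := by omega
    simp only [e1, e2, if_true] at this
    rcases this with h | h
    · exact (hDC _ (hbD 0 (by omega)) _ (hcC 0 le_rfl)).2 (hs _ _ (by simpa using h))
    · exact (hDC _ (hbD 1 (by omega)) _ (hcC 0 le_rfl)).2 (hs _ _ (by simpa using h))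
  · -- append c s, …, c 1
    have h3 : IPath R (fun i => c (s - i)) (s - 1) := by
      have := (hc.rev hs).sub (a := 0) (b := s - 1) (by omega)
      simpa using this
    have h4 := h2.append h3 (by
      intro i j hi hj
      by_cases h : i ≤ r + 1
      · by_cases h' : i = 0
        · simp only [h', Nat.zero_le, if_true]
          intro h''
          exact hyC' (h'' ▸ hcC _ (by omega))
        · simp only [h, h', if_true, if_false]
          exact (hDC _ (hbD (i - 1) (by omega)) _ (hcC _ (by omega))).1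
      · simp only [h, if_false]
        intro h''
        exact hzC' (h'' ▸ hcC _ (by omega))) (by
      have h : ¬ (r + 1 + 1 ≤ r + 1) := by omega
      simp only [h, if_false, Nat.sub_zero]
      exact hcs) (by
      intro i j hi hj hij
      by_cases h : i ≤ r + 1
      · by_cases h' : i = 0
        · simp only [h', Nat.zero_le, if_true]
          exact hcA _ (by omega) (by omega)
        · simp only [h, h', if_true, if_false]
          exact (hDC _ (hbD (i - 1) (by omega)) _ (hcC _ (by omega))).2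
      · simp only [h, if_false]
        exact hcB _ (by omega))
    have := no_gap hH h4 (w := c 0) (i := 1) (by
      intro i hi
      by_cases hh : i ≤ r + 1 + 1
      · by_cases h : i ≤ r + 1
        · by_cases h' : i = 0
          · simp only [h', Nat.zero_le, if_true]
            intro h''
            exact hyC' (h'' ▸ hcC 0 (by omega))
          · simp only [hh, h, h', if_true, if_false]
            exact fun h'' => (hDC _ (hbD (i - 1) (by omega)) _ (hcC 0 (by omega))).1 h''.symm
        · simp only [hh, h, if_true, if_false]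
          intro h''
          exact hzC' (h'' ▸ hcC 0 (by omega))
      · simp only [hh, if_false]
        exact hc.inj 0 _ (by omega) (by omega)) (by simpa using hs _ _ hc0) (by
        have h : ¬ (r + 1 + 1 + (s - 1) + 1 ≤ r + 1 + 1) := by omega
        simp only [h, if_false]
        have e : s - (r + 1 + 1 + (s - 1) + 1 - (r + 1 + 1 + 1)) = 0 + 1 := by omega
        rw [e]
        exact hc.adj 0 (by omega)) (by omega)
    have e1 : 1 ≤ r + 1 := by omega
    have e2 : 1 + 1 ≤ r + 1 := by omega
    have e3 : 1 ≤ r + 1 + 1 := by omega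
    have e4 : 1 + 1 ≤ r + 1 + 1 := by omega
    simp only [e1, e2, e3, e4, if_true] at this
    rcases this with h | h
    · exact (hDC _ (hbD 0 (by omega)) _ (hcC 0 (by omega))).2 (hs _ _ (by simpa using h))
    · exact (hDC _ (hbD 1 (by omega)) _ (hcC 0 (by omega))).2 (hs _ _ (by simpa using h))

/-- one step of Hayward's lemma -/
theorem hayward_step (hs : Sym R) (hw : Wch R) {D C K : Set V} (hD : Conn R D)
    (hC : Conn R C) (hDC : Anti R D C) (hK : Conn (co R) K) (hKD : K ⊆ Nb R D)
    (hKC : K ⊆ Nb R C) {k₁ : V} (hkK : k₁ ∉ K) (hkD : k₁ ∈ Nb R D) (hkC : k₁ ∈ Nb R C)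
    (hkn : ∃ y ∈ K, ¬ R k₁ y) (hd : ∃ d ∈ D, ∀ k ∈ K, R d k) (hc : ∃ c ∈ C, ∀ k ∈ K, R c k) :
    ∃ d ∈ D, R d k₁ ∧ ∀ k ∈ K, R d k := by
  obtain ⟨d', hd'D, hd'⟩ := hd
  obtain ⟨c', hc'C, hc'⟩ := hc
  obtain ⟨y₀, hy₀K, hy₀⟩ := hkn
  obtain ⟨hkD', kd, hkd, hkd'⟩ := hkD
  obtain ⟨b, r, hb, hbD, hb0, hbr, hbA, hbB⟩ := exists_ipath hs (A := {v | ∀ k ∈ K, R v k})
    (B := {v | R v k₁}) hD ⟨d', hd'D, hd'⟩ ⟨kd, hkd, hkd'⟩
  simp only [Set.mem_ofPred_eq] at hb0 hbr hbA hbB
  by_cases hr : r = 0
  · subst hr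
    exact ⟨b 0, hbD 0 le_rfl, hbr, hb0⟩
  exfalso
  -- (1)
  have st1 : ∀ y ∈ K, ¬ R y k₁ → R y (b r) := by
    intro y hy hyk
    have hyD := hKD hy
    obtain ⟨d, ⟨i, hi, rfl⟩, h1, h2⟩ := common_nb hs hw.1 (hb.conn hs) hC
      (fun d hd c hc => by
        obtain ⟨i, hi, rfl⟩ := hd
        exact hDC _ (hbD i hi) c hc)
      (y := y) (z := k₁) (fun h => hkK (h ▸ hy)) hyk
      ⟨fun h => by
        obtain ⟨i, hi, h'⟩ := h
        exact hyD.1 (h' ▸ hbD i hi), b 0, ⟨0, Nat.zero_le _, rfl⟩, hb0 y hy⟩
      ⟨fun h => by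
        obtain ⟨i, hi, h'⟩ := h
        exact hkD' (h' ▸ hbD i hi), b r, ⟨r, le_rfl, rfl⟩, hbr⟩
      (hKC hy) hkC
    rcases Nat.lt_or_ge i r with h | h
    · exact absurd (hs _ _ h2) (hbB i h)
    · have : i = r := by omega
      rw [← this]
      exact h1
  -- (2)
  have hp := hb.snoc (w := k₁) (fun i hi h => hkD' (h ▸ hbD i hi)) hbr (fun i hi => hbB i hi)
  have st2 : ∀ w ∈ K, ¬ R w (b r) → R w (b (r - 1)) := by
    intro w hwK hwb
    have hwk : R w k₁ := by
      by_contra h
      exact hwb (st1 w hwK h)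
    have := no_gap hw.1 hp (w := w) (i := r - 1) (by
      intro i hi
      by_cases h : i ≤ r
      · simp only [h, if_true]
        intro h'
        exact (hKD hwK).1 (h' ▸ hbD i h)
      · simp only [h, if_false]
        intro h'
        exact hkK (h' ▸ hwK)) (by simpa using hs _ _ (hb0 w hwK)) (by
        have h : ¬ (r + 1 ≤ r) := by omega
        simpa only [h, if_false] using hwk) (by omega)
    have e1 : r - 1 ≤ r := by omega
    have e2 : r - 1 + 1 = r := by omega
    simp only [e1, e2, le_refl, if_true] at this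
    exact this.resolve_right hwb
  -- (3)
  obtain ⟨y, t, hy, hyK, hy0, hyt, hyA, hyB⟩ := exists_ipath hs.co (A := {v | ¬ R k₁ v})
    (B := {v | ¬ R (b r) v}) hK ⟨y₀, hy₀K, hy₀⟩ (by
      have := hbA r (by omega) le_rfl
      push Not at this
      obtain ⟨k, hk, hk'⟩ := this
      exact ⟨k, hk, hk'⟩)
  simp only [Set.mem_ofPred_eq, not_not] at hy0 hyt hyA hyB
  have ht : t ≠ 0 := by
    rintro rfl
    exact hyt (hs _ _ (st1 _ (hyK 0 le_rfl) (fun h => hy0 (hs _ _ h))))
  have hyt' : ¬ R (y t) (b r) := fun h => hyt (hs _ _ h)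
  -- the co-path k₁, y 0, …, y t, b r
  have h1 := hy.cons (w := k₁) (fun i hi h => hkK (h ▸ hyK i hi)) hy0
    (fun i hi hi' h => h (hyA i hi hi'))
  have h2 := h1.snoc (w := b r) (by
    intro i hi
    by_cases h : i = 0
    · simp only [h, if_true]
      intro h'
      exact hkD' (h' ▸ hbD r le_rfl)
    · simp only [h, if_false]
      intro h'
      exact (hKD (hyK _ (by omega))).1 (h' ▸ hbD r le_rfl)) (by
    have h : t + 1 ≠ 0 := by omega
    simp only [h, if_false]
    exact hyt') (by
    intro i hi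
    by_cases h : i = 0
    · simp only [h, if_true]
      exact fun h' => h' (hs _ _ hbr)
    · simp only [h, if_false]
      exact fun h' => h' (hs _ _ (hyB _ (by omega))))
  have hc'D : ∀ i, i ≤ r → c' ≠ b i ∧ ¬ R (b i) c' := fun i hi =>
    ⟨fun h => (hDC _ (hbD i hi) _ hc'C).1 h.symm, (hDC _ (hbD i hi) _ hc'C).2⟩
  by_cases hck : R c' k₁
  · have h3 := h2.snoc (w := c') (by
      intro i hi
      by_cases hh : i ≤ t + 1
      · by_cases h : i = 0
        · simp only [h, Nat.zero_le, if_true]
          intro h'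
          exact hkC.1 (h' ▸ hc'C)
        · simp only [hh, h, if_true, if_false]
          intro h'
          exact (hKC (hyK _ (by omega))).1 (h' ▸ hc'C)
      · simp only [hh, if_false]
        exact (hc'D r le_rfl).1.symm) (by
      have h : ¬ (t + 1 + 1 ≤ t + 1) := by omega
      simp only [h, if_false]
      exact (hc'D r le_rfl).2) (by
      intro i hi
      have hh : i ≤ t + 1 := by omega
      by_cases h : i = 0
      · simp only [h, Nat.zero_le, if_true]
        exact fun h' => h' (hs _ _ hck)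
      · simp only [hh, h, if_true, if_false]
        exact fun h' => h' (hs _ _ (hc' _ (hyK _ (by omega)))))
    have := no_gap hw.2 h3 (w := b (r - 1)) (i := t + 1) (by
      intro i hi
      by_cases hh1 : i ≤ t + 1 + 1
      · by_cases hh : i ≤ t + 1
        · by_cases h : i = 0
          · simp only [h, Nat.zero_le, if_true]
            intro h'
            exact hkD' (h' ▸ hbD _ (by omega))
          · simp only [hh1, hh, h, if_true, if_false]
            intro h'
            exact (hKD (hyK _ (by omega))).1 (h' ▸ hbD _ (by omega))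
        · simp only [hh1, hh, if_true, if_false]
          exact hb.inj _ _ (by omega) le_rfl
      · simp only [hh1, if_false]
        exact (hc'D (r - 1) (by omega)).1.symm) (by
      simp only [Nat.zero_le, if_true]
      exact hbB _ (by omega)) (by
      have h : ¬ (t + 1 + 1 + 1 ≤ t + 1 + 1) := by omega
      simp only [h, if_false]
      exact (hc'D (r - 1) (by omega)).2) (by omega)
    have e1 : t + 1 ≤ t + 1 + 1 := by omega
    have e3 : t + 1 ≠ 0 := by omega
    have e4 : ¬ (t + 1 + 1 ≤ t + 1) := by omega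
    simp only [e1, e3, e4, le_refl, if_true, if_false, Nat.add_sub_cancel] at this
    rcases this with h | h
    · exact h (hs _ _ (st2 _ (hyK t le_rfl) hyt'))
    · have e : r - 1 + 1 = r := by omega
      have := hb.adj (r - 1) (by omega)
      rw [e] at this
      exact h this
  · have := no_gap hw.2 h2 (w := c') (i := 1) (by
      intro i hi
      by_cases hh : i ≤ t + 1
      · by_cases h : i = 0
        · simp only [h, Nat.zero_le, if_true]
          intro h'
          exact hkC.1 (h' ▸ hc'C)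
        · simp only [hh, h, if_true, if_false]
          intro h'
          exact (hKC (hyK _ (by omega))).1 (h' ▸ hc'C)
      · simp only [hh, if_false]
        exact (hc'D r le_rfl).1) (by
      simp only [Nat.zero_le, if_true]
      exact hck) (by
      have h : ¬ (t + 1 + 1 ≤ t + 1) := by omega
      simp only [h, if_false]
      exact fun h' => (hc'D r le_rfl).2 (hs _ _ h')) (by omega)
    have e1 : 1 ≤ t + 1 := by omega
    have e2 : 1 + 1 ≤ t + 1 := by omega
    simp only [e1, e2, if_true, one_ne_zero, if_false] at this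
    rcases this with h | h
    · exact h (hc' _ (hyK _ (by omega)))
    · exact h (hc' _ (hyK _ (by omega)))

/-- Hayward's lemma. Take `K' ⊆ K` maximal co-connected with `d' ∈ D`, `c' ∈ C` complete to it, and
suppose `K' ≠ K`; `k₁ ∈ K \ K'` non-adjacent to some vertex of `K'`. If no `d ∈ D` is complete to
`K' ∪ {k₁}`: shortest path `b 0 .. b r` (`r ≥ 1`) in `D` from the vertices complete to `K'` to the
neighbours of `k₁`.
(1) `y ∈ K'`, `y` not adjacent to `k₁` ⇒ `y` adjacent to `b r` (`common_nb` with `D` := the path,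
`C`, `y`, `k₁`: the only neighbour of `k₁` on the path is `b r`).
(2) `w ∈ K'`, `w` not adjacent to `b r` ⇒ `w` adjacent to `k₁` (by (1)) and to `b (r-1)`
(`no_gap` for the path `b 0 .. b r, k₁` and `w`).
(3) shortest path `y 0 .. y t` in `K'` FOR THE COMPLEMENT from the non-neighbours of `k₁` to the
non-neighbours of `b r`; `t ≥ 1` by (1).
(4) If `c'` is not adjacent to `k₁`: the co-path `k₁, y 0 .. y t, b r` and `c'` contradict
`no_gap` for the complement (`c'` is complete to `y 0, y 1`). If `c'` is adjacent to `k₁`: the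
co-path `k₁, y 0 .. y t, b r, c'` and the vertex `b (r-1)`: it is co-adjacent to both ends `k₁` and
`c'` and adjacent to `y t` (by (2)) and to `b r`: contradiction to `no_gap` for the complement.
By symmetry there is also `c ∈ C`, so `K' ∪ {k₁}` contradicts the maximality. -/
theorem hayward [Finite V] (hs : Sym R) (hw : Wch R) {D C K : Set V} (hD : Conn R D)
    (hC : Conn R C) (hDC : Anti R D C) (hK : Conn (co R) K) (hKD : K ⊆ Nb R D)
    (hKC : K ⊆ Nb R C) : ∃ d ∈ D, ∀ k ∈ K, R d k := by
  classical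
  let P : Set (Set V) := {K' | K' ⊆ K ∧ Conn (co R) K' ∧ (∃ d ∈ D, ∀ k ∈ K', R d k) ∧
    (∃ c ∈ C, ∀ k ∈ K', R c k)}
  have hCD : Anti R C D := fun c hc d hd =>
    ⟨fun h => (hDC d hd c hc).1 h.symm, fun h => (hDC d hd c hc).2 (hs _ _ h)⟩
  have hPne : P.Nonempty := by
    obtain ⟨k₀, hk₀⟩ := hK.1
    obtain ⟨-, d, hd, hdk⟩ := hKD hk₀
    obtain ⟨-, c, hc, hck⟩ := hKC hk₀
    refine ⟨{k₀}, Set.singleton_subset_iff.2 hk₀, conn_singleton _ _, ⟨d, hd, ?_⟩, ⟨c, hc, ?_⟩⟩
    · intro k hk
      rw [Set.mem_singleton_iff.1 hk]; exact hdk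
    · intro k hk
      rw [Set.mem_singleton_iff.1 hk]; exact hck
  obtain ⟨K', hK'P, hmax⟩ := (Set.toFinite P).exists_maximal hPne
  obtain ⟨hK'K, hK', hd, hc⟩ := hK'P
  by_cases hKK : K \ K' = ∅
  · obtain ⟨d, hdD, hd⟩ := hd
    refine ⟨d, hdD, fun k hk => hd k ?_⟩
    by_contra h
    have : k ∈ K \ K' := ⟨hk, h⟩
    rw [hKK] at this
    exact this
  exfalso
  obtain ⟨y₀, hy₀, k₁, ⟨hk₁K, hk₁⟩, hyk⟩ := hK.2 K' hK'K hK'.1 (Set.nonempty_iff_ne_empty.2 hKK)
  have hkn : ∃ y ∈ K', ¬ R k₁ y := ⟨y₀, hy₀, fun h => hyk (hs _ _ h)⟩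
  obtain ⟨d, hdD, hdk, hdK⟩ := hayward_step hs hw hD hC hDC hK' (hK'K.trans hKD) (hK'K.trans hKC)
    hk₁ (hKD hk₁K) (hKC hk₁K) hkn hd hc
  obtain ⟨c, hcC, hck, hcK⟩ := hayward_step hs hw hC hD hCD hK' (hK'K.trans hKC) (hK'K.trans hKD)
    hk₁ (hKC hk₁K) (hKD hk₁K) hkn hc hd
  have hmem : insert k₁ K' ∈ P := by
    refine ⟨Set.insert_subset hk₁K hK'K, ⟨⟨k₁, Set.mem_insert _ _⟩, ?_⟩,
      ⟨d, hdD, fun k hk => ?_⟩, ⟨c, hcC, fun k hk => ?_⟩⟩
    · intro A hA hA1 hA2
      by_contra hcon
      push Not at hcon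
      -- A is trivial on K'
      have hA' : A ∩ K' = ∅ ∨ K' \ A = ∅ := by
        by_contra h
        push Not at h
        obtain ⟨a, ha, b, hb, hab⟩ := hK'.2 (A ∩ K') Set.inter_subset_right h.1
          (by
            obtain ⟨z, hz, hz'⟩ := h.2
            exact ⟨z, hz, fun h' => hz' h'.1⟩)
        exact hcon a ha.1 b ⟨Set.mem_insert_of_mem _ hb.1, fun h' => hb.2 ⟨h', hb.1⟩⟩ hab
      rcases hA' with h | h
      · -- A = {k₁}
        have hk₁A : k₁ ∈ A := by
          obtain ⟨a, ha⟩ := hA1
          rcases hA ha with h' | h'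
          · exact h' ▸ ha
          · exfalso
            have : a ∈ A ∩ K' := ⟨ha, h'⟩
            rw [h] at this
            exact this
        have hy₀A : y₀ ∉ A := by
          intro h'
          have : y₀ ∈ A ∩ K' := ⟨h', hy₀⟩
          rw [h] at this
          exact this
        exact hcon k₁ hk₁A y₀ ⟨Set.mem_insert_of_mem _ hy₀, hy₀A⟩ (fun h' => hyk (hs _ _ h'))
      · have hy₀A : y₀ ∈ A := by
          by_contra h'
          have : y₀ ∈ K' \ A := ⟨hy₀, h'⟩
          rw [h] at this
          exact this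
        have hk₁A : k₁ ∉ A := by
          obtain ⟨z, hz, hzA⟩ := hA2
          rcases hz with hz | hz
          · exact hz ▸ hzA
          · exfalso
            have : z ∈ K' \ A := ⟨hz, hzA⟩
            rw [h] at this
            exact this
        exact hcon y₀ hy₀A k₁ ⟨Set.mem_insert _ _, hk₁A⟩ hyk
    · rcases hk with hk | hk
      · exact hk ▸ hdk
      · exact hdK k hk
    · rcases hk with hk | hk
      · exact hk ▸ hck
      · exact hcK k hk
  exact hk₁ (hmax hmem (Set.subset_insert _ _) (Set.mem_insert _ _))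

end Pool.Agent.Lib.MP_23961f_co.WC
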