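import Pool.Agent.Lib.MP_23961f_co.WC.Defs

/-!
# Holes of the adjacency relation and induced cycles
-/

set_option autoImplicit false

namespace Pool.Agent.Lib.MP_23961f_co.WC

variable {V : Type*}

theorem cycle_sub_val {m : ℕ} (u v : Fin (m + 2)) :
    (u - v).val = 1 ↔ (u.val = v.val + 1 ∨ (u.val = 0 ∧ v.val = m + 1)) := by
  have hu := u.isLt
  have hv := v.isLt
  by_cases h : v ≤ u
  · rw [Fin.coe_sub_iff_le.2 h]
    rw [Fin.le_def] at h
    omega
  · rw [not_le] at h
    rw [Fin.coe_sub_iff_lt.2 h]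
    rw [Fin.lt_def] at h
    omega

theorem cycle_adj_iff {m : ℕ} (u v : Fin (m + 2)) :
    (SimpleGraph.cycleGraph (m + 2)).Adj u v ↔
      ((u.val = v.val + 1 ∨ (u.val = 0 ∧ v.val = m + 1)) ∨
        (v.val = u.val + 1 ∨ (v.val = 0 ∧ u.val = m + 1))) := by
  rw [SimpleGraph.cycleGraph_adj', cycle_sub_val, cycle_sub_val]

/-- A hole of the adjacency relation gives an induced cycle. -/
theorem hole_embedding {G : SimpleGraph V} (hH : Hole G.Adj) :
    ∃ m, 5 ≤ m ∧ Nonempty (SimpleGraph.cycleGraph m ↪g G) := by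
  obtain ⟨p, m, w, hm, hp, hw, hw0, hwm, hwi⟩ := hH
  refine ⟨m + 2, by omega, ?_⟩
  -- adjacency of two path vertices
  have hpp : ∀ i j, i ≤ m → j ≤ m → (G.Adj (p i) (p j) ↔ (i = j + 1 ∨ j = i + 1)) := by
    intro i j hi hj
    constructor
    · intro h
      by_contra hcon
      rcases lt_trichotomy i j with hij | hij | hij
      · exact hp.nadj i j (by omega) hj h
      · subst hij
        exact G.irrefl h
      · exact hp.nadj j i (by omega) hi h.symm
    · rintro (h | h)
      · subst h
        exact (hp.adj j (by omega)).symm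
      · subst h
        exact hp.adj i (by omega)
  have hpw : ∀ i, i ≤ m → (G.Adj w (p i) ↔ (i = 0 ∨ i = m)) := by
    intro i hi
    constructor
    · intro h
      by_contra hcon
      exact hwi i (by omega) (by omega) h
    · rintro (h | h)
      · subst h
        exact hw0
      · subst h
        exact hwm
  have hinj : Function.Injective (fun k : Fin (m + 2) => if k.val ≤ m then p k.val else w) := by
    intro a b hab
    have ha := a.isLt
    have hb := b.isLt
    simp only at hab
    by_cases h1 : a.val ≤ m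
    · by_cases h2 : b.val ≤ m
      · rw [if_pos h1, if_pos h2] at hab
        rcases lt_trichotomy a.val b.val with h | h | h
        · exact absurd hab (hp.inj _ _ h h2)
        · exact Fin.ext h
        · exact absurd hab.symm (hp.inj _ _ h h1)
      · rw [if_pos h1, if_neg h2] at hab
        exact absurd hab.symm (hw _ h1)
    · by_cases h2 : b.val ≤ m
      · rw [if_neg h1, if_pos h2] at hab
        exact absurd hab (hw _ h2)
      · exact Fin.ext (by omega)
  refine ⟨⟨⟨_, hinj⟩, ?_⟩⟩
  intro a b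
  have ha := a.isLt
  have hb := b.isLt
  rw [cycle_adj_iff]
  simp only [Function.Embedding.coeFn_mk]
  by_cases h1 : a.val ≤ m
  · by_cases h2 : b.val ≤ m
    · rw [if_pos h1, if_pos h2, hpp _ _ h1 h2]
      omega
    · rw [if_pos h1, if_neg h2, G.adj_comm, hpw _ h1]
      omega
  · by_cases h2 : b.val ≤ m
    · rw [if_neg h1, if_pos h2, hpw _ h2]
      omega
    · rw [if_neg h1, if_neg h2]
      constructor
      · intro h
        exact absurd h (G.irrefl)
      · intro h
        omega

/-- an induced path (of length at least one) for the complement relation is one for the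
complement graph -/
theorem hole_compl {G : SimpleGraph V} (hH : Hole (co G.Adj)) : Hole Gᶜ.Adj := by
  obtain ⟨p, m, w, hm, hp, hw, hw0, hwm, hwi⟩ := hH
  refine ⟨p, m, w, hm, ⟨hp.inj, ?_, ?_⟩, hw, ?_, ?_, ?_⟩
  · intro i hi
    rw [SimpleGraph.compl_adj]
    exact ⟨hp.inj i (i + 1) (Nat.lt_succ_self i) hi, hp.adj i hi⟩
  · intro i j hij hj h
    rw [SimpleGraph.compl_adj] at h
    exact hp.nadj i j hij hj h.2
  · rw [SimpleGraph.compl_adj]
    exact ⟨hw 0 (Nat.zero_le m), hw0⟩
  · rw [SimpleGraph.compl_adj]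
    exact ⟨hw m le_rfl, hwm⟩
  · intro i h0 hi h
    rw [SimpleGraph.compl_adj] at h
    exact hwi i h0 hi h.2

theorem wch_of_graph {G : SimpleGraph V}
    (h1 : ∀ m, 5 ≤ m → IsEmpty (SimpleGraph.cycleGraph m ↪g G))
    (h2 : ∀ m, 5 ≤ m → IsEmpty (SimpleGraph.cycleGraph m ↪g Gᶜ)) : Wch G.Adj := by
  constructor
  · intro hH
    obtain ⟨m, hm, ⟨f⟩⟩ := hole_embedding hH
    exact (h1 m hm).false f
  · intro hH
    obtain ⟨m, hm, ⟨f⟩⟩ := hole_embedding (hole_compl hH)
    exact (h2 m hm).false f

end Pool.Agent.Lib.MP_23961f_co.WC
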