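import Pool.Agent.Lib.MP_23961f_co.WC.Chord
import Pool.Agent.Lib.MP_23961f_co.K.Kill

/-!
# A structure of width `h` for a graph gives `h` killing rounds
-/

set_option autoImplicit false

namespace Pool.Agent.Lib.MP_23961f_co.WC

open Pool.Agent.Lib.MP_23961f_co.K (Kill roundL fst fst_eq_some fst_first)

variable {V : Type*}

/-- An injective colouring of `Q` extends to an injective colouring of `W`. -/
theorem exists_ext [Finite V] {h : ℕ} {W Q : Set V} (hW : W.ncard ≤ h) (hQW : Q ⊆ W)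
    (c₀ : V → ℕ) (hc₀ : ∀ u ∈ Q, c₀ u < h) (hinj : ∀ u ∈ Q, ∀ v ∈ Q, c₀ u = c₀ v → u = v) :
    ∃ c : V → ℕ, (∀ u ∈ W, c u < h) ∧ (∀ u ∈ Q, c u = c₀ u) ∧
      ∀ u ∈ W, ∀ v ∈ W, c u = c v → u = v := by
  classical
  have := Fintype.ofFinite V
  have hs1 : Q.toFinset.image c₀ ⊆ Finset.range h := by
    intro x hx
    obtain ⟨u, hu, rfl⟩ := Finset.mem_image.1 hx
    exact Finset.mem_range.2 (hc₀ u (Set.mem_toFinset.1 hu))
  have hs2 : (Q.toFinset.image c₀).card ≤ W.ncard := by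
    refine Finset.card_image_le.trans ?_
    rw [← Set.ncard_eq_toFinset_card']
    exact Set.ncard_le_ncard hQW
  obtain ⟨t, hst, hth, htc⟩ := Finset.exists_subsuperset_card_eq hs1 hs2 (by simpa using hW)
  have hcard : Fintype.card W = t.card := by
    rw [htc, Set.ncard_eq_toFinset_card', Set.toFinset_card]
  obtain ⟨g, hg⟩ := Finset.exists_equiv_extend_of_card_eq (α := W) (t := t) hcard
    (s := Finset.univ.filter (fun x : W => (x : V) ∈ Q)) (f := fun x : W => c₀ x)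
    (by
      intro x hx
      obtain ⟨u, hu, rfl⟩ := Finset.mem_image.1 hx
      exact hst (Finset.mem_image.2 ⟨u, Set.mem_toFinset.2 (Finset.mem_filter.1 hu).2, rfl⟩))
    (by
      intro u hu v hv huv
      have hu' := (Finset.mem_filter.1 (Finset.mem_coe.1 hu)).2
      have hv' := (Finset.mem_filter.1 (Finset.mem_coe.1 hv)).2
      exact Subtype.ext (hinj u hu' v hv' huv))
  refine ⟨fun v => if hv : v ∈ W then (g ⟨v, hv⟩ : ℕ) else 0, ?_, ?_, ?_⟩
  · intro u hu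
    simp only [hu, dite_true]
    exact Finset.mem_range.1 (hth (g ⟨u, hu⟩).2)
  · intro u hu
    have huW := hQW hu
    simp only [huW, dite_true]
    exact hg ⟨u, huW⟩ (Finset.mem_filter.2 ⟨Finset.mem_univ _, hu⟩)
  · intro u hu v hv huv
    simp only [hu, hv, dite_true] at huv
    have h1 := g.injective (Subtype.ext huv)
    exact congrArg Subtype.val h1

/-- The statement of the order theorem, for the induction. -/
def OrdP (h : ℕ) (W : Set V) (F : V → V → Prop) : Prop :=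
  ∀ Q : Set V, Q ⊆ W → Clq F Q → ∀ c₀ : V → ℕ, (∀ u ∈ Q, c₀ u < h) →
    (∀ u ∈ Q, ∀ v ∈ Q, c₀ u = c₀ v → u = v) →
    ∃ c ρ : V → ℕ, (∀ u ∈ W, c u < h) ∧ (∀ u ∈ Q, c u = c₀ u) ∧
      (∀ u ∈ W, ∀ v ∈ W, F u v → c u = c v → u = v) ∧
      (∀ u ∈ W, ∀ v ∈ W, ρ u = ρ v → u = v) ∧
      (∀ v ∈ W, ∀ u ∈ W, ∀ u' ∈ W, F u v → F u' v → ρ u < ρ v → ρ u' < ρ v → F u u') ∧
      (∀ u ∈ Q, ∀ v ∈ W, v ∉ Q → ρ u < ρ v)

theorem ordP_base [Finite V] {h : ℕ} {W : Set V} (hW : W.ncard ≤ h) :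
    OrdP h W (fun u v => u ∈ W ∧ v ∈ W) := by
  classical
  intro Q hQW _ c₀ hc₀ hinj
  obtain ⟨c, h1, h2, h3⟩ := exists_ext hW hQW c₀ hc₀ hinj
  obtain ⟨n, ⟨e⟩⟩ := Finite.exists_equiv_fin V
  refine ⟨c, fun v => if v ∈ Q then (e v : ℕ) else n + (e v : ℕ), h1, h2,
    fun u hu v hv _ huv => h3 u hu v hv huv, ?_, fun v hv u hu u' hu' _ _ _ _ => ⟨hu, hu'⟩, ?_⟩
  · intro u _ v _ huv
    have hu := (e u).2
    have hv := (e v).2
    by_cases h5 : u ∈ Q <;> by_cases h6 : v ∈ Q <;> simp only [h5, h6, if_true, if_false] at huv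
    · exact e.injective (Fin.ext huv)
    · omega
    · omega
    · exact e.injective (Fin.ext (by omega))
  · intro u hu v _ hv
    have hu' := (e u).2
    simp only [hu, hv, if_true, if_false]
    omega

theorem ordP_glue [Finite V] {h : ℕ} {W W₁ W₂ : Set V} {F F₁ F₂ : V → V → Prop}
    (hW : ∀ x, x ∈ W ↔ x ∈ W₁ ∨ x ∈ W₂) (hF : ∀ u v, F u v ↔ F₁ u v ∨ F₂ u v)
    (s₁ : ∀ u v, F₁ u v → u ∈ W₁ ∧ v ∈ W₁) (s₂ : ∀ u v, F₂ u v → u ∈ W₂ ∧ v ∈ W₂)
    (q₁ : ∀ u, u ∈ W₁ → u ∈ W₂ → ∀ v, v ∈ W₁ → v ∈ W₂ → F₁ u v)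
    (q₂ : ∀ u, u ∈ W₁ → u ∈ W₂ → ∀ v, v ∈ W₁ → v ∈ W₂ → F₂ u v)
    (i₁ : OrdP h W₁ F₁) (i₂ : OrdP h W₂ F₂)
    (Q : Set V) (hQ₁ : Q ⊆ W₁) (hQ : Clq F Q) (c₀ : V → ℕ) (hc₀ : ∀ u ∈ Q, c₀ u < h)
    (hinj : ∀ u ∈ Q, ∀ v ∈ Q, c₀ u = c₀ v → u = v) :
    ∃ c ρ : V → ℕ, (∀ u ∈ W, c u < h) ∧ (∀ u ∈ Q, c u = c₀ u) ∧
      (∀ u ∈ W, ∀ v ∈ W, F u v → c u = c v → u = v) ∧
      (∀ u ∈ W, ∀ v ∈ W, ρ u = ρ v → u = v) ∧
      (∀ v ∈ W, ∀ u ∈ W, ∀ u' ∈ W, F u v → F u' v → ρ u < ρ v → ρ u' < ρ v → F u u') ∧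
      (∀ u ∈ Q, ∀ v ∈ W, v ∉ Q → ρ u < ρ v) := by
  classical
  -- on `W₁` the relation `F` is `F₁`, on `W₂` it is `F₂`
  have f₁ : ∀ u ∈ W₁, ∀ v ∈ W₁, F u v → F₁ u v := by
    intro u hu v hv huv
    rcases (hF u v).1 huv with h1 | h1
    · exact h1
    · exact q₁ u hu (s₂ u v h1).1 v hv (s₂ u v h1).2
  have f₂ : ∀ u ∈ W₂, ∀ v ∈ W₂, F u v → F₂ u v := by
    intro u hu v hv huv
    rcases (hF u v).1 huv with h1 | h1
    · exact q₂ u (s₁ u v h1).1 hu v (s₁ u v h1).2 hv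
    · exact h1
  obtain ⟨c₁, ρ₁, a1, a2, a3, a4, a5, a6⟩ := i₁ Q hQ₁
    (fun u hu v hv => f₁ u (hQ₁ hu) v (hQ₁ hv) (hQ u hu v hv)) c₀ hc₀ hinj
  obtain ⟨c₂, ρ₂, b1, b2, b3, b4, b5, b6⟩ := i₂ (W₁ ∩ W₂) (fun x hx => hx.2)
    (fun u hu v hv => q₂ u hu.1 hu.2 v hv.1 hv.2) c₁ (fun u hu => a1 u hu.1)
    (fun u hu v hv huv => a3 u hu.1 v hv.1 (q₁ u hu.1 hu.2 v hv.1 hv.2) huv)
  obtain ⟨N, hN⟩ : ∃ N : ℕ, ∀ v, ρ₁ v < N := by
    obtain ⟨N, hN⟩ := (Set.finite_range ρ₁).bddAbove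
    exact ⟨N + 1, fun v => Nat.lt_succ_of_le (hN ⟨v, rfl⟩)⟩
  have cW₂ : ∀ u ∈ W₂, (if u ∈ W₁ then c₁ u else c₂ u) = c₂ u := by
    intro u hu
    by_cases h1 : u ∈ W₁
    · simp only [h1, if_true]
      exact (b2 u ⟨h1, hu⟩).symm
    · simp only [h1, if_false]
  refine ⟨fun u => if u ∈ W₁ then c₁ u else c₂ u, fun u => if u ∈ W₁ then ρ₁ u else N + ρ₂ u,
    ?_, ?_, ?_, ?_, ?_, ?_⟩
  · intro u hu
    rcases (hW u).1 hu with h1 | h1
    · simp only [h1, if_true]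
      exact a1 u h1
    · exact lt_of_eq_of_lt (cW₂ u h1) (b1 u h1)
  · intro u hu
    simp only [hQ₁ hu, if_true]
    exact a2 u hu
  · intro u hu v hv huv hcc
    rcases (hF u v).1 huv with h1 | h1
    · have h2 := s₁ u v h1
      simp only [h2.1, h2.2, if_true] at hcc
      exact a3 u h2.1 v h2.2 h1 hcc
    · have h2 := s₂ u v h1
      exact b3 u h2.1 v h2.2 h1 ((cW₂ u h2.1).symm.trans (hcc.trans (cW₂ v h2.2)))
  · intro u hu v hv huv
    have hu' := hN u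
    have hv' := hN v
    by_cases h1 : u ∈ W₁ <;> by_cases h2 : v ∈ W₁ <;> simp only [h1, h2, if_true, if_false] at huv
    · exact a4 u h1 v h2 huv
    · omega
    · omega
    · exact b4 u (((hW u).1 hu).resolve_left h1) v (((hW v).1 hv).resolve_left h2) (by omega)
  · intro v hv u hu u' hu' huv hu'v hlt hlt'
    by_cases h1 : v ∈ W₁
    · have hv' := hN v
      have h2 : u ∈ W₁ := by
        by_contra h3
        simp only [h1, h3, if_true, if_false] at hlt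
        omega
      have h2' : u' ∈ W₁ := by
        by_contra h3
        simp only [h1, h3, if_true, if_false] at hlt'
        omega
      simp only [h1, h2, h2', if_true] at hlt hlt'
      exact (hF u u').2 (Or.inl (a5 v h1 u h2 u' h2' (f₁ u h2 v h1 huv) (f₁ u' h2' v h1 hu'v)
        hlt hlt'))
    · have hv2 : v ∈ W₂ := ((hW v).1 hv).resolve_left h1
      have key : ∀ x, x ∈ W → F x v →
          (if x ∈ W₁ then ρ₁ x else N + ρ₂ x) < (if v ∈ W₁ then ρ₁ v else N + ρ₂ v) →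
          x ∈ W₂ ∧ F₂ x v ∧ ρ₂ x < ρ₂ v := by
        intro x hx hxv hxlt
        have h4 : F₂ x v := by
          rcases (hF x v).1 hxv with h3 | h3
          · exact absurd (s₁ x v h3).2 h1
          · exact h3
        have h5 := (s₂ x v h4).1
        refine ⟨h5, h4, ?_⟩
        by_cases h6 : x ∈ W₁
        · exact b6 x ⟨h6, h5⟩ v hv2 (fun h7 => h1 h7.1)
        · simp only [h1, h6, if_false] at hxlt
          omega
      obtain ⟨k1, k2, k3⟩ := key u hu huv hlt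
      obtain ⟨k1', k2', k3'⟩ := key u' hu' hu'v hlt'
      exact (hF u u').2 (Or.inr (b5 v hv2 u k1 u' k1' k2 k2' k3 k3'))
  · intro u hu v hv hvQ
    have hu1 := hQ₁ hu
    by_cases h1 : v ∈ W₁
    · simp only [h1, hu1, if_true]
      exact a6 u hu v h1 hvQ
    · have hu' := hN u
      simp only [h1, hu1, if_true, if_false]
      omega

/-- A completion has a colouring with `h` colours and a rank function in which the earlier
neighbours of a vertex are pairwise related. -/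
theorem Chord.order [Finite V] {h : ℕ} {W : Set V} {F : V → V → Prop} (hc : Chord h W F) :
    OrdP h W F := by
  induction hc with
  | base W hW => exact ordP_base hW
  | @glue W₁ W₂ F₁ F₂ hc₁ hc₂ hq₁ hq₂ i₁ i₂ =>
    intro Q hQW hQ c₀ hc₀ hinj
    have s₁ : ∀ u v, F₁ u v → u ∈ W₁ ∧ v ∈ W₁ := fun u v huv => hc₁.supp huv
    have s₂ : ∀ u v, F₂ u v → u ∈ W₂ ∧ v ∈ W₂ := fun u v huv => hc₂.supp huv
    have hor : Q ⊆ W₁ ∨ Q ⊆ W₂ := by
      by_contra hcon
      rw [not_or] at hcon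
      obtain ⟨x, hx, hx1⟩ := Set.not_subset.1 hcon.1
      obtain ⟨y, hy, hy2⟩ := Set.not_subset.1 hcon.2
      rcases hQ x hx y hy with h1 | h1
      · exact hx1 (s₁ x y h1).1
      · exact hy2 (s₂ x y h1).2
    rcases hor with h1 | h1
    · exact ordP_glue (W := W₁ ∪ W₂) (F := fun u v => F₁ u v ∨ F₂ u v)
        (fun x => Iff.rfl) (fun u v => Iff.rfl) s₁ s₂
        (fun u hu hu' v hv hv' => hq₁ u ⟨hu, hu'⟩ v ⟨hv, hv'⟩)
        (fun u hu hu' v hv hv' => hq₂ u ⟨hu, hu'⟩ v ⟨hv, hv'⟩) i₁ i₂ Q h1 hQ c₀ hc₀ hinj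
    · exact ordP_glue (W := W₁ ∪ W₂) (F := fun u v => F₁ u v ∨ F₂ u v)
        (fun x => or_comm) (fun u v => or_comm) s₂ s₁
        (fun u hu hu' v hv hv' => hq₂ u ⟨hu', hu⟩ v ⟨hv', hv⟩)
        (fun u hu hu' v hv hv' => hq₁ u ⟨hu', hu⟩ v ⟨hv', hv⟩) i₂ i₁ Q h1 hQ c₀ hc₀ hinj

/-- a set of vertices as a list, sorted by a rank function -/
theorem exists_sorted [Finite V] (S : Set V) (ρ : V → ℕ) :
    ∃ I : List V, (∀ x, x ∈ I ↔ x ∈ S) ∧ I.Nodup ∧ I.Pairwise (fun a b => ρ a ≤ ρ b) := by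
  classical
  have := Fintype.ofFinite V
  have ht : Std.Total (fun a b : V => ρ a ≤ ρ b) := ⟨fun a b => le_total _ _⟩
  have htr : IsTrans V (fun a b : V => ρ a ≤ ρ b) := ⟨fun a b c hab hbc => le_trans hab hbc⟩
  refine ⟨(S.toFinset.toList).insertionSort (fun a b => ρ a ≤ ρ b), ?_, ?_, ?_⟩
  · intro x
    rw [List.mem_insertionSort, Finset.mem_toList, Set.mem_toFinset]
  · exact (List.perm_insertionSort _ _).nodup_iff.2 (Finset.nodup_toList _)
  · exact List.pairwise_insertionSort _ _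

/-- The killing rounds: round `i` is along the list of the vertices of colour `i`, in the order of
`Chord.order`. -/
theorem kill_of_wd [Finite V] {h : ℕ} {G : SimpleGraph V} (hw : Wd h G.Adj) : Kill h G := by
  classical
  obtain ⟨W, F, hst⟩ := hw
  obtain ⟨c, ρ, h1, -, h3, h4, h5, -⟩ := hst.chord.order ∅ (Set.empty_subset _)
    (fun u hu => absurd hu (Set.notMem_empty u)) (fun _ => 0)
    (fun u hu => absurd hu (Set.notMem_empty u)) (fun u hu => absurd hu (Set.notMem_empty u))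
  -- the neighbours of a vertex outside `W` are in `W` and pairwise related
  have hnb : ∀ i, i ∉ W → ∀ u v, G.Adj i u → G.Adj i v → F u v := by
    intro i hi u v hu hv
    exact hst.nb i (Set.mem_univ _) hi u ⟨Set.mem_univ _, hu⟩ v ⟨Set.mem_univ _, hv⟩
  have hnbW : ∀ i, i ∉ W → ∀ u, G.Adj i u → u ∈ W := fun i hi u hu =>
    (hst.chord.supp (hnb i hi u u hu hu)).1
  -- direction of the edges
  have hdir : ∀ v u, G.Adj v u → (u ∈ W ∧ (v ∈ W → ρ u < ρ v)) ∨ (v ∈ W ∧ (u ∈ W → ρ v < ρ u)) := by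
    intro v u hvu
    by_cases hv : v ∈ W
    · by_cases hu : u ∈ W
      · rcases lt_trichotomy (ρ u) (ρ v) with h6 | h6 | h6
        · exact Or.inl ⟨hu, fun _ => h6⟩
        · exact absurd (h4 u hu v hv h6).symm hvu.ne
        · exact Or.inr ⟨hv, fun _ => h6⟩
      · exact Or.inr ⟨hv, fun h6 => absurd h6 hu⟩
    · exact Or.inl ⟨hnbW v hv u hvu, fun h6 => absurd h6 hv⟩
  -- one colour class at a time
  have main : ∀ j i : ℕ, i + j = h → ∀ H : SimpleGraph V, H ≤ G →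
      (∀ v u, H.Adj v u → u ∈ W → (v ∈ W → ρ u < ρ v) → i ≤ c u) → Kill j H := by
    intro j
    induction j with
    | zero =>
      intro i hi H hHG hH v u hvu
      rcases hdir v u (hHG hvu) with ⟨h6, h7⟩ | ⟨h6, h7⟩
      · have h8 := hH v u hvu h6 h7
        have h9 := h1 u h6
        omega
      · have h8 := hH u v hvu.symm h6 h7
        have h9 := h1 v h6
        omega
    | succ j ih =>
      intro i hi H hHG hH
      obtain ⟨I, hI1, hI2, hI3⟩ := exists_sorted {x | x ∈ W ∧ c x = i} ρ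
      -- the first neighbour
      have hfst : ∀ v u, H.Adj v u → u ∈ W → (v ∈ W → ρ u < ρ v) → c u = i →
          fst H I v = some u := by
        intro v u hvu hu hlt hcu
        have huI : u ∈ I := (hI1 u).2 ⟨hu, hcu⟩
        have hsome : (fst H I v).isSome = true := by
          unfold fst
          rw [List.find?_isSome]
          exact ⟨u, huI, by simpa using hvu⟩
        obtain ⟨k, hk⟩ := Option.isSome_iff_exists.1 hsome
        obtain ⟨hkI, hkadj⟩ := fst_eq_some hk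
        obtain ⟨hkW, hkc⟩ := (hI1 k).1 hkI
        rw [hk]
        by_contra hne
        have hne' : u ≠ k := fun h6 => hne (by rw [h6])
        have h6 := fst_first hk huI hvu hne'
        have hle : ρ k ≤ ρ u := by
          have h7 := List.pairwise_iff_getElem.1 hI3 (I.idxOf k) (I.idxOf u)
            (List.idxOf_lt_length_of_mem hkI) (List.idxOf_lt_length_of_mem huI) h6
          simpa using h7
        have hFku : F k u := by
          by_cases hv : v ∈ W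
          · have hlt' := hlt hv
            exact h5 v hv k hkW u hu
              (hst.rel k hkW v hv (hHG hkadj.symm)) (hst.rel u hu v hv (hHG hvu.symm))
              (lt_of_le_of_lt hle hlt') hlt'
          · exact hnb v hv k u (hHG hkadj) (hHG hvu)
        exact hne' (h3 k hkW u hu hFku (hkc.trans hcu.symm)).symm
      refine ⟨I, ?_, ?_⟩
      · refine List.pairwise_of_forall_mem_list ?_
        intro a ha b hb hab
        obtain ⟨haW, hac⟩ := (hI1 a).1 ha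
        obtain ⟨hbW, hbc⟩ := (hI1 b).1 hb
        exact hab.ne (h3 a haW b hbW (hst.rel a haW b hbW (hHG hab)) (hac.trans hbc.symm))
      · refine ih (i + 1) (by omega) (roundL H I) (fun v u hvu => hHG hvu.1) ?_
        intro v u hvu hu hlt
        have h6 := hH v u hvu.1 hu hlt
        have h7 : c u ≠ i := fun h8 => hvu.2.1 (hfst v u hvu.1 hu hlt h8)
        omega
  exact main h 0 (by omega) G le_rfl (fun _ _ _ _ _ => Nat.zero_le _)

end Pool.Agent.Lib.MP_23961f_co.WC
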