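import Pool.Agent.Lib.MP_23961f_co.WC.E2
import Pool.Agent.Lib.MP_23961f_co.WC.Base
import Pool.Agent.Lib.MP_23961f_co.WC.KillOf
import Pool.Agent.Lib.MP_23961f_co.WC.HoleEmb
import Pool.Agent.Lib.MP_23961f_co.K.IndepHigh

/-!
# The duality theorem for weakly chordal relations, and the complement inequality

`duality`: for a weakly chordal symmetric relation `R` (loops allowed) the widths of `R` and of its
complement sum to at most the number of vertices.
-/

set_option autoImplicit false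

namespace Pool.Agent.Lib.MP_23961f_co.WC

open Pool.Agent.Lib.MP_23961f_co.K

variable {V : Type*}

theorem wd_top [Finite V] (R : V → V → Prop) : Wd (Nat.card V) R :=
  ⟨Set.univ, _, Set.Subset.rfl, Chord.base Set.univ (by rw [Set.ncard_univ]),
    fun u _ v _ _ => ⟨Set.mem_univ u, Set.mem_univ v⟩,
    fun i _ hi => absurd (Set.mem_univ i) hi⟩

theorem Wd.mono_h {h h' : ℕ} {R : V → V → Prop} (hw : Wd h R) (hh : h ≤ h') : Wd h' R := by
  obtain ⟨W, F, hT⟩ := hw
  exact ⟨W, F, hT.mono_h hh⟩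

/-- (D), induction on the number of pairs of `R` -/
theorem duality_aux [Finite V] {g : ℕ} (m : ℕ) : ∀ (R : V → V → Prop),
    {p : V × V | R p.1 p.2}.ncard = m → Sym R → Wch R → (∀ a, Wd a (co R) → g ≤ a) →
    Wd (Nat.card V - g) R := by
  induction m using Nat.strong_induction_on with
  | _ m ih =>
    intro R hm hs hw hg
    by_cases hno : ∀ a b c d, R a b → R c d → R a c ∨ R a d ∨ R b c ∨ R b d
    · obtain ⟨q, h1, h2⟩ := base_case hs hw hno
      exact h2.mono_h (Nat.sub_le_sub_left (hg q h1) _)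
    · push Not at hno
      obtain ⟨a, b, c, d, hab, hcd, h1, h2, h3, h4⟩ := hno
      refine two_pairs hs hw hab hcd h1 h2 h3 h4 ?_
      rintro Y ⟨u, hu, v, hv, huv⟩ hwY
      have hss : {p : V × V | del R Y p.1 p.2} ⊂ {p : V × V | R p.1 p.2} := by
        refine ⟨fun p hp => hp.1, fun h' => ?_⟩
        exact (h' (show (u, v) ∈ {p : V × V | R p.1 p.2} from huv)).2 ⟨hu, hv⟩
      exact ih _ (hm ▸ Set.ncard_lt_ncard hss (Set.toFinite _)) (del R Y) rfl (del_symm hs Y) hwY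
        fun a ha => hg a (ha.mono_rel fun u v huv h' => huv h'.1)

/-- the widths of a weakly chordal relation and of its complement sum to at most the number of
vertices -/
theorem duality [Finite V] (R : V → V → Prop) (hs : Sym R) (hw : Wch R) :
    ∃ a b, a + b ≤ Nat.card V ∧ Wd a R ∧ Wd b (co R) := by
  classical
  have hex : ∃ b, Wd b (co R) := ⟨_, wd_top (co R)⟩
  refine ⟨Nat.card V - Nat.find hex, Nat.find hex, ?_, ?_, Nat.find_spec hex⟩
  · have := Nat.find_min' hex (wd_top (co R))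
    omega
  · exact duality_aux _ R rfl hs hw fun a ha => Nat.find_min' hex ha

open Classical in
/-- Deleting all edges at a set `T` which meets all long induced cycles of `G` and of its
complement gives a weakly chordal relation. -/
theorem wch_ind [Fintype V] {G : SimpleGraph V} {T : Finset V}
    (h1 : ∀ m, 5 ≤ m → ∀ f : SimpleGraph.cycleGraph m ↪g G, ∃ i, f i ∈ T)
    (h2 : ∀ m, 5 ≤ m → ∀ f : SimpleGraph.cycleGraph m ↪g Gᶜ, ∃ i, f i ∈ T) :
    Wch (ind G Tᶜ).Adj := by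
  have hadj : ∀ u v, (ind G Tᶜ).Adj u v ↔ G.Adj u v ∧ u ∉ T ∧ v ∉ T := by
    intro u v
    show (G.Adj u v ∧ u ∈ Tᶜ ∧ v ∈ Tᶜ) ↔ _
    simp
  refine wch_of_graph ?_ ?_
  · intro m hm
    refine ⟨fun f => ?_⟩
    obtain ⟨k, rfl⟩ : ∃ k, m = k + 2 := ⟨m - 2, by omega⟩
    have hT : ∀ i, f i ∉ T := by
      intro i
      have hi := i.isLt
      obtain ⟨j, hj⟩ : ∃ j, (SimpleGraph.cycleGraph (k + 2)).Adj i j := by
        by_cases h : i.val + 1 < k + 2
        · refine ⟨⟨i.val + 1, h⟩, (cycle_adj_iff _ _).2 ?_⟩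
          simp
        · exact ⟨⟨0, by omega⟩, (cycle_adj_iff _ _).2 (Or.inr (Or.inr ⟨rfl, by omega⟩))⟩
      exact ((hadj _ _).1 (f.map_rel_iff.2 hj)).2.1
    obtain ⟨i, hi⟩ := h1 (k + 2) hm ⟨f.toEmbedding, by
      intro a b
      rw [← f.map_rel_iff]
      exact ⟨fun h => (hadj _ _).2 ⟨h, hT a, hT b⟩, fun h => ((hadj _ _).1 h).1⟩⟩
    exact hT i hi
  · intro m hm
    refine ⟨fun f => ?_⟩
    obtain ⟨k, rfl⟩ : ∃ k, m = k + 2 := ⟨m - 2, by omega⟩
    have hT : ∀ i, f i ∉ T := by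
      intro i hiT
      have hi := i.isLt
      obtain ⟨j, hij, hj⟩ : ∃ j, i ≠ j ∧ ¬ (SimpleGraph.cycleGraph (k + 2)).Adj i j := by
        by_cases h : i.val + 2 < k + 2
        · refine ⟨⟨i.val + 2, h⟩, ?_, ?_⟩
          · intro h'
            have := congrArg Fin.val h'
            simp at this
          · rw [cycle_adj_iff]
            simp only
            omega
        · refine ⟨⟨i.val - 2, by omega⟩, ?_, ?_⟩
          · intro h'
            have := congrArg Fin.val h'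
            simp only at this
            omega
          · rw [cycle_adj_iff]
            simp only
            omega
      refine hj (f.map_rel_iff.1 ?_)
      show (ind G Tᶜ)ᶜ.Adj (f i) (f j)
      rw [SimpleGraph.compl_adj]
      exact ⟨fun h' => hij (f.injective h'), fun h' => ((hadj _ _).1 h').2.1 hiT⟩
    obtain ⟨i, hi⟩ := h2 (k + 2) hm ⟨f.toEmbedding, by
      intro a b
      rw [← f.map_rel_iff]
      show Gᶜ.Adj (f a) (f b) ↔ (ind G Tᶜ)ᶜ.Adj (f a) (f b)
      rw [SimpleGraph.compl_adj, SimpleGraph.compl_adj, hadj]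
      constructor
      · rintro ⟨h, h'⟩
        exact ⟨h, fun h'' => h' h''.1⟩
      · rintro ⟨h, h'⟩
        exact ⟨h, fun h'' => h' ⟨h'', hT a, hT b⟩⟩⟩
    exact hT i hi

open Classical in
/-- the killing numbers of `G` and of its complement sum to at most `n + |T|` -/
theorem kill_of_hitting [Fintype V] {G : SimpleGraph V} {T : Finset V}
    (h1 : ∀ m, 5 ≤ m → ∀ f : SimpleGraph.cycleGraph m ↪g G, ∃ i, f i ∈ T)
    (h2 : ∀ m, 5 ≤ m → ∀ f : SimpleGraph.cycleGraph m ↪g Gᶜ, ∃ i, f i ∈ T) :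
    ∃ a b, a + b ≤ Fintype.card V + T.card ∧ Kill a G ∧ Kill b Gᶜ := by
  obtain ⟨a, b, hab, ha, hb⟩ := duality (ind G Tᶜ).Adj (fun _ _ h => h.symm) (wch_ind h1 h2)
  rw [Nat.card_eq_fintype_card] at hab
  refine ⟨a + T.card, b, by omega, kill_of_ind T a G (kill_of_wd ha), kill_of_wd ?_⟩
  refine hb.mono_rel fun u v huv h' => ?_
  rw [SimpleGraph.compl_adj] at huv
  exact huv.2 h'.1

/-- the matrices of the question, up to the number of vertices needed to meet all long induced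
cycles of the graph and of its complement -/
theorem gcc_of_hitting {n : ℕ} (G : SimpleGraph (Fin n)) (T : Finset (Fin n))
    (h1 : ∀ m, 5 ≤ m → ∀ f : SimpleGraph.cycleGraph m ↪g G, ∃ i, f i ∈ T)
    (h2 : ∀ m, 5 ≤ m → ∀ f : SimpleGraph.cycleGraph m ↪g Gᶜ, ∃ i, f i ∈ T) :
    ∃ (A B : Matrix (Fin n) (Fin n) ℝ),
      A.PosSemidef ∧
      (∀ i j, i ≠ j → (A i j ≠ 0 ↔ G.Adj i j)) ∧
      (∀ X : Matrix (Fin n) (Fin n) ℝ, X.IsSymm → (∀ i, X i i = 0) →
          (∀ i j, G.Adj i j → X i j = 0) → A * X = 0 → X = 0) ∧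
      B.PosSemidef ∧
      (∀ i j, i ≠ j → (B i j ≠ 0 ↔ Gᶜ.Adj i j)) ∧
      (∀ X : Matrix (Fin n) (Fin n) ℝ, X.IsSymm → (∀ i, X i i = 0) →
          (∀ i j, Gᶜ.Adj i j → X i j = 0) → B * X = 0 → X = 0) ∧
      (n - A.rank) + (n - B.rank) + 2 + T.card ≥ n := by
  obtain ⟨a, b, hab, ha, hb⟩ := kill_of_hitting h1 h2
  rw [Fintype.card_fin] at hab
  obtain ⟨B, hB1, hB2, hB3, hB4⟩ := matrix_of_kill ha
  obtain ⟨A, hA1, hA2, hA3, hA4⟩ := matrix_of_kill hb
  rw [compl_compl] at hA2 hA3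
  exact ⟨A, B, hA1, hA2, hA3, hB1, hB2, hB3, by omega⟩

end Pool.Agent.Lib.MP_23961f_co.WC
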