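import Pool.Agent.Lib.MP_23961f_co.WC.Chord

/-!
# Structures: restriction, gluing, swapping, progress
-/

set_option autoImplicit false

namespace Pool.Agent.Lib.MP_23961f_co.WC

variable {V : Type*} {h : ℕ} {R S : V → V → Prop} {U W : Set V} {F : V → V → Prop}

theorem Clq.subset (hF : Chord h W F) {Q : Set V} (hQ : Clq F Q) : Q ⊆ W :=
  fun u hu => (hF.supp (hQ u hu u hu)).1

theorem Clq.mono {F : V → V → Prop} {Q Q' : Set V} (hQ : Clq F Q) (hQ' : Q' ⊆ Q) : Clq F Q' :=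
  fun u hu v hv => hQ u (hQ' hu) v (hQ' hv)

theorem del_symm (hs : Sym R) (Y : Set V) : Sym (del R Y) :=
  fun u v h => ⟨hs u v h.1, fun h' => h.2 ⟨h'.2, h'.1⟩⟩

theorem co_symm (hs : Sym R) : Sym (co R) := fun u v h h' => h (hs v u h')

theorem St.mono_rel (hT : St h S U W F) (hRS : ∀ u ∈ U, ∀ v ∈ U, R u v → S u v) :
    St h R U W F where
  sub := hT.sub
  chord := hT.chord
  rel u hu v hv huv := hT.rel u hu v hv (hRS u (hT.sub hu) v (hT.sub hv) huv)
  nb i hi hiW := (hT.nb i hi hiW).mono fun v hv => ⟨hv.1, hRS i hi v hv.1 hv.2⟩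

theorem St.mono_h {h' : ℕ} (hT : St h R U W F) (hh : h ≤ h') : St h' R U W F where
  sub := hT.sub
  chord := hT.chord.mono hh
  rel := hT.rel
  nb := hT.nb

theorem St.restrict [Finite V] (hT : St h R U W F) {U' : Set V} (hU : U' ⊆ U) :
    ∃ W' F', St h R U' W' F' ∧ ∀ Q ⊆ U', Clq F Q → Clq F' Q := by
  refine ⟨W ∩ U', fun u v => F u v ∧ u ∈ U' ∧ v ∈ U', ⟨Set.inter_subset_right,
    hT.chord.restrict U', ?_, ?_⟩, ?_⟩
  · intro u hu v hv huv
    exact ⟨hT.rel u hu.1 v hv.1 huv, hu.2, hv.2⟩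
  · intro i hi hiW u hu v hv
    exact ⟨hT.nb i (hU hi) (fun h' => hiW ⟨h', hi⟩) u ⟨hU hu.1, hu.2⟩ v ⟨hU hv.1, hv.2⟩,
      hu.1, hv.1⟩
  · intro Q hQ hc u hu v hv
    exact ⟨hc u hu v hv, hQ hu, hQ hv⟩

/-- gluing along a looped clique -/
theorem St.glue (hs : Sym R) {U₁ U₂ W₁ W₂ : Set V} {F₁ F₂ : V → V → Prop} (h1 : St h R U₁ W₁ F₁)
    (h2 : St h R U₂ W₂ F₂) (hc1 : Clq F₁ (U₁ ∩ U₂)) (hc2 : Clq F₂ (U₁ ∩ U₂))
    (hR : ∀ u ∈ U₁, u ∉ U₂ → ∀ v ∈ U₂, v ∉ U₁ → ¬ R u v) :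
    ∃ W F, St h R (U₁ ∪ U₂) W F := by
  have hWW : W₁ ∩ W₂ ⊆ U₁ ∩ U₂ := Set.inter_subset_inter h1.sub h2.sub
  have hU1 : U₁ ∩ U₂ ⊆ W₁ := Clq.subset h1.chord hc1
  have hU2 : U₁ ∩ U₂ ⊆ W₂ := Clq.subset h2.chord hc2
  refine ⟨W₁ ∪ W₂, fun u v => F₁ u v ∨ F₂ u v, ⟨Set.union_subset_union h1.sub h2.sub,
    Chord.glue h1.chord h2.chord (hc1.mono hWW) (hc2.mono hWW), ?_, ?_⟩⟩
  · rintro u hu v hv huv
    by_cases hu1 : u ∈ U₁
    · by_cases hv1 : v ∈ U₁
      · -- both in U₁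
        have hu' : u ∈ W₁ := by
          rcases hu with hu | hu
          · exact hu
          · exact hU1 ⟨hu1, h2.sub hu⟩
        have hv' : v ∈ W₁ := by
          rcases hv with hv | hv
          · exact hv
          · exact hU1 ⟨hv1, h2.sub hv⟩
        exact Or.inl (h1.rel u hu' v hv' huv)
      · have hv2 : v ∈ W₂ := by
          rcases hv with hv | hv
          · exact absurd (h1.sub hv) hv1
          · exact hv
        by_cases hu2 : u ∈ U₂
        · exact Or.inr (h2.rel u (hU2 ⟨hu1, hu2⟩) v hv2 huv)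
        · exact absurd huv (hR u hu1 hu2 v (h2.sub hv2) hv1)
    · have hu2 : u ∈ W₂ := by
        rcases hu with hu | hu
        · exact absurd (h1.sub hu) hu1
        · exact hu
      by_cases hv2 : v ∈ U₂
      · have hv' : v ∈ W₂ := by
          rcases hv with hv | hv
          · exact hU2 ⟨h1.sub hv, hv2⟩
          · exact hv
        exact Or.inr (h2.rel u hu2 v hv' huv)
      · have hv1 : v ∈ U₁ := by
          rcases hv with hv | hv
          · exact h1.sub hv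
          · exact absurd (h2.sub hv) hv2
        exact absurd (hs u v huv) (hR v hv1 hv2 u (h2.sub hu2) hu1)
  · intro i hi hiW
    have hi1 : i ∉ W₁ := fun h' => hiW (Or.inl h')
    have hi2 : i ∉ W₂ := fun h' => hiW (Or.inr h')
    by_cases hiU1 : i ∈ U₁
    · have hiU2 : i ∉ U₂ := fun h' => hi1 (hU1 ⟨hiU1, h'⟩)
      have key : ∀ u ∈ U₁ ∪ U₂, R i u → u ∈ U₁ := by
        intro u hu hiu
        by_contra hcon
        rcases hu with hu | hu
        · exact hcon hu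
        · exact hR i hiU1 hiU2 u hu hcon hiu
      intro u hu v hv
      exact Or.inl (h1.nb i hiU1 hi1 u ⟨key u hu.1 hu.2, hu.2⟩ v ⟨key v hv.1 hv.2, hv.2⟩)
    · have hiU2 : i ∈ U₂ := by
        rcases hi with hi | hi
        · exact absurd hi hiU1
        · exact hi
      have key : ∀ u ∈ U₁ ∪ U₂, R i u → u ∈ U₂ := by
        intro u hu hiu
        by_contra hcon
        rcases hu with hu | hu
        · exact hR u hu hcon i hiU2 hiU1 (hs i u hiu)
        · exact hcon hu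
      intro u hu v hv
      exact Or.inr (h2.nb i hiU2 hi2 u ⟨key u hu.1 hu.2, hu.2⟩ v ⟨key v hv.1 hv.2, hv.2⟩)

/-- swap one vertex -/
theorem St.swap [Finite V] (hs : Sym R) (hT : St h R U W F) {z a : V} (hz : z ∈ W) (haU : a ∈ U)
    (haz : a ≠ z) (hR : R a z) :
    ∃ W' F', St h R (U \ {z}) W' F' ∧
      (∀ Q, Clq F Q → z ∈ Q → Clq F' ((Q \ {z}) ∪ {a})) ∧
      (∀ Q, Clq F Q → z ∉ Q → Clq F' Q) := by
  have ha : a ∉ W ∨ F z a := by
    by_cases haW : a ∈ W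
    · exact Or.inr (hT.rel z hz a haW (hs a z hR))
    · exact Or.inl haW
  obtain ⟨F', hc, h1, h2⟩ := hT.chord.exch hz haz ha
  have haa : F' a a := hc.refl ⟨Or.inr rfl, haz⟩
  have hnW : a ∉ W → ∀ u ∈ U, u ≠ z → R a u → F' a u := fun haW u hu huz hau =>
    h2 u huz (hT.nb a haU haW z ⟨hT.sub hz, hR⟩ u ⟨hu, hau⟩)
  refine ⟨(W ∪ {a}) \ {z}, F', ⟨?_, hc, ?_, ?_⟩, ?_, ?_⟩
  · rintro u ⟨hu | hu, huz⟩
    · exact ⟨hT.sub hu, huz⟩
    · exact ⟨hu ▸ haU, huz⟩
  · rintro u ⟨hu, huz⟩ v ⟨hv, hvz⟩ huv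
    by_cases huW : u ∈ W
    · by_cases hvW : v ∈ W
      · exact h1 u v huz hvz (hT.rel u huW v hvW huv)
      · have hva : v = a := by
          rcases hv with hv | hv
          · exact absurd hv hvW
          · exact hv
        subst hva
        exact hc.symm (hnW hvW u (hT.sub huW) huz (hs u v huv))
    · have hua : u = a := by
        rcases hu with hu | hu
        · exact absurd hu huW
        · exact hu
      subst hua
      rcases hv with hv | hv
      · exact hnW huW v (hT.sub hv) hvz huv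
      · have hv' : v = u := hv
        subst hv'
        exact haa
  · rintro i ⟨hi, hiz⟩ hiW u ⟨hu, hu'⟩ v ⟨hv, hv'⟩
    have hi' : i ∉ W := fun h' => hiW ⟨Or.inl h', hiz⟩
    exact h1 u v hu.2 hv.2 (hT.nb i hi hi' u ⟨hu.1, hu'⟩ v ⟨hv.1, hv'⟩)
  · rintro Q hQ hzQ u hu v hv
    rcases hu with hu | hu
    · rcases hv with hv | hv
      · exact h1 u v hu.2 hv.2 (hQ u hu.1 v hv.1)
      · have hv' : v = a := hv
        subst hv'
        exact hc.symm (h2 u hu.2 (hQ z hzQ u hu.1))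
    · have hu' : u = a := hu
      subst hu'
      rcases hv with hv | hv
      · exact h2 v hv.2 (hQ z hzQ v hv.1)
      · have hv' : v = u := hv
        subst hv'
        exact haa
  · intro Q hQ hzQ u hu v hv
    exact h1 u v (fun h' => hzQ (h' ▸ hu)) (fun h' => hzQ (h' ▸ hv)) (hQ u hu v hv)

/-- swap along an injection `μ` of a finite set `A` into a looped clique `Q` -/
theorem St.swaps [Finite V] (hs : Sym R) (hT : St h R U W F) {Q A : Set V} (hQ : Clq F Q)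
    (hAU : A ⊆ U) (μ : V → V) (hμ : Set.InjOn μ A) (hμQ : ∀ a ∈ A, μ a ∈ Q)
    (hμA : ∀ a ∈ A, μ a ∉ A) (hR : ∀ a ∈ A, R a (μ a)) :
    ∃ W' F', St h R (U \ (μ '' A)) W' F' ∧ Clq F' ((Q \ (μ '' A)) ∪ A) := by
  classical
  have hfin : A.Finite := Set.toFinite A
  induction A, hfin using Set.Finite.induction_on with
  | empty =>
    refine ⟨W, F, ?_, ?_⟩
    · simpa using hT
    · simpa using hQ
  | @insert a A haA hfin ih =>
    obtain ⟨W1, F1, hT1, hQ1⟩ := ih (fun x hx => hAU (Or.inr hx))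
      (hμ.mono (Set.subset_insert a A)) (fun x hx => hμQ x (Or.inr hx))
      (fun x hx h' => hμA x (Or.inr hx) (Or.inr h')) (fun x hx => hR x (Or.inr hx))
    have haz : μ a ∉ μ '' A := by
      rintro ⟨b, hb, hba⟩
      have := hμ (Or.inr hb : b ∈ insert a A) (Or.inl rfl : a ∈ insert a A) hba
      exact haA (this ▸ hb)
    have hzQ : μ a ∈ (Q \ (μ '' A)) ∪ A := Or.inl ⟨hμQ a (Or.inl rfl), haz⟩
    have hane : a ≠ μ a := fun h' => hμA a (Or.inl rfl) (h' ▸ Or.inl rfl)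
    have haU1 : a ∈ U \ (μ '' A) := by
      refine ⟨hAU (Or.inl rfl), ?_⟩
      rintro ⟨b, hb, hba⟩
      exact hμA b (Or.inr hb) (hba ▸ Or.inl rfl)
    obtain ⟨W2, F2, hT2, hc1, -⟩ := hT1.swap hs (Clq.subset hT1.chord hQ1 hzQ) haU1 hane
      (hR a (Or.inl rfl))
    refine ⟨W2, F2, ?_, ?_⟩
    · have : U \ (μ '' insert a A) = (U \ (μ '' A)) \ {μ a} := by
        rw [Set.image_insert_eq]
        ext x
        simp only [Set.mem_sdiff, Set.mem_insert_iff, Set.mem_singleton_iff]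
        tauto
      rw [this]
      exact hT2
    · refine (hc1 _ hQ1 hzQ).mono ?_
      intro x hx
      rcases hx with hx | hx
      · refine Or.inl ⟨Or.inl ⟨hx.1, fun h' => hx.2 ?_⟩, fun h' => hx.2 ?_⟩
        · rw [Set.image_insert_eq]; exact Or.inr h'
        · rw [Set.image_insert_eq]; exact Or.inl h'
      · rcases hx with hx | hx
        · exact Or.inr hx
        · exact Or.inl ⟨Or.inr hx, fun h' => hμA a (Or.inl rfl) (Or.inr (h' ▸ hx))⟩

/-- first part of the progress lemma -/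
theorem St.clq_common (hT : St h R Set.univ W F) {K X : Set V}
    (hX : ∀ x ∈ X, ∀ k ∈ K, R x k) (hs : Sym R) (hK : ¬ Clq F K) : Clq F X := by
  by_cases hKW : K ⊆ W
  · have hXW : X ⊆ W := by
      intro x hx
      by_contra hxW
      exact hK ((hT.nb x (Set.mem_univ x) hxW).mono fun k hk => ⟨Set.mem_univ k, hX x hx k hk⟩)
    rcases hT.chord.c4free (A := X) (B := K)
      (fun x hx k hk => hT.rel x (hXW hx) k (hKW hk) (hX x hx k hk)) with h' | h'
    · exact h'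
    · exact absurd h' hK
  · obtain ⟨k, hk, hkW⟩ := Set.not_subset.1 hKW
    exact (hT.nb k (Set.mem_univ k) hkW).mono fun x hx => ⟨Set.mem_univ x, hs _ _ (hX x hx k hk)⟩

/-- second part of the progress lemma: the pairs inside `E` with a vertex complete to `K` can be
restored -/
theorem St.progress [Finite V] (hs : Sym S) {E K : Set V} (hKE : ∀ k ∈ K, k ∉ E)
    (hN : ∀ u, u ∉ E → (∃ e ∈ E, S e u) → u ∉ K → ∀ k ∈ K, S u k)
    (hT : St h (del S E) Set.univ W F) (hK : ¬ Clq F K) :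
    Wd h (del S (E \ {v | ∀ k ∈ K, S v k})) := by
  set X : Set V := {v | ∀ k ∈ K, S v k} with hXdef
  have hXK : ∀ x ∈ X, ∀ k ∈ K, del S E x k := fun x hx k hk =>
    ⟨hx k hk, fun h' => hKE k hk h'.2⟩
  have hXc : Clq F X := hT.clq_common hXK (del_symm hs E) hK
  have hXW : X ⊆ W := Clq.subset hT.chord hXc
  set M : Set V := {e | e ∈ E ∧ e ∉ X ∧ Clq F {k | k ∈ K ∧ S e k}} with hMdef
  -- neighbours of a vertex of `M`
  have hM1 : ∀ i ∈ M, ∀ u, del S (E \ X) i u → u ∈ X ∨ (u ∈ K ∧ S i u) := by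
    intro i hi u hiu
    by_cases huE : u ∈ E
    · left
      by_contra huX
      exact hiu.2 ⟨⟨hi.1, hi.2.1⟩, ⟨huE, huX⟩⟩
    · by_cases huK : u ∈ K
      · exact Or.inr ⟨huK, hiu.1⟩
      · exact Or.inl (hN u huE ⟨i, hi.1, hiu.1⟩ huK)
  have hM2 : ∀ i ∈ M, ∀ u, (u ∈ X ∨ (u ∈ K ∧ S i u)) → u ∈ W ∧ u ∉ M := by
    intro i hi u hu
    rcases hu with hu | hu
    · exact ⟨hXW hu, fun h' => h'.2.1 hu⟩
    · exact ⟨Clq.subset hT.chord hi.2.2 hu, fun h' => hKE u hu.1 h'.1⟩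
  have hXKF : ∀ x ∈ X, ∀ k ∈ K, k ∈ W → F x k := fun x hx k hk hkW =>
    hT.rel x (hXW hx) k hkW (hXK x hx k hk)
  have hkeep : ∀ e ∈ W, ¬ Clq F {k | k ∈ K ∧ S e k} → ∀ x ∈ X, F e x := by
    intro e heW hne x hx
    have hek : ∀ k, k ∈ K → S e k → del S E e k := fun k hk hs' =>
      ⟨hs', fun h' => hKE k hk h'.2⟩
    by_cases hsub : {k | k ∈ K ∧ S e k} ⊆ W
    · rcases hT.chord.c4free (A := insert e X) (B := {k | k ∈ K ∧ S e k}) (by
        intro a ha k hk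
        rcases ha with ha | ha
        · rw [ha]
          exact hT.rel e heW k (hsub hk) (hek k hk.1 hk.2)
        · exact hXKF a ha k hk.1 (hsub hk)) with h' | h'
      · exact h' e (Or.inl rfl) x (Or.inr hx)
      · exact absurd h' hne
    · obtain ⟨k, hk, hkW⟩ := Set.not_subset.1 hsub
      exact hT.nb k (Set.mem_univ k) hkW e ⟨Set.mem_univ e, del_symm hs E _ _ (hek k hk.1 hk.2)⟩
        x ⟨Set.mem_univ x, del_symm hs E _ _ (hXK x hx k hk.1)⟩
  refine ⟨W ∩ Mᶜ, fun u v => F u v ∧ u ∈ Mᶜ ∧ v ∈ Mᶜ, ⟨Set.subset_univ _,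
    hT.chord.restrict Mᶜ, ?_, ?_⟩⟩
  · rintro u ⟨huW, huM⟩ v ⟨hvW, hvM⟩ huv
    refine ⟨?_, huM, hvM⟩
    by_cases hE : u ∈ E ∧ v ∈ E
    · obtain ⟨huE, hvE⟩ := hE
      by_cases huX : u ∈ X
      · by_cases hvX : v ∈ X
        · exact hXc u huX v hvX
        · exact hT.chord.symm (hkeep v hvW (fun h' => hvM ⟨hvE, hvX, h'⟩) u huX)
      · have hvX : v ∈ X := by
          by_contra hvX
          exact huv.2 ⟨⟨huE, huX⟩, ⟨hvE, hvX⟩⟩
        exact hkeep u huW (fun h' => huM ⟨huE, huX, h'⟩) v hvX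
    · exact hT.rel u huW v hvW ⟨huv.1, hE⟩
  · intro i _ hi
    by_cases hiM : i ∈ M
    · rintro u ⟨-, hu⟩ v ⟨-, hv⟩
      have hu1 := hM1 i hiM u hu
      have hv1 := hM1 i hiM v hv
      refine ⟨?_, (hM2 i hiM u hu1).2, (hM2 i hiM v hv1).2⟩
      have huW := (hM2 i hiM u hu1).1
      have hvW := (hM2 i hiM v hv1).1
      rcases hu1 with hu1 | hu1
      · rcases hv1 with hv1 | hv1
        · exact hXc u hu1 v hv1
        · exact hXKF u hu1 v hv1.1 hvW
      · rcases hv1 with hv1 | hv1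
        · exact hT.chord.symm (hXKF v hv1 u hu1.1 huW)
        · exact hiM.2.2 u hu1 v hv1
    · have hiW : i ∉ W := fun h' => hi ⟨h', hiM⟩
      have hiX : i ∉ X := fun h' => hiW (hXW h')
      have hnb := hT.nb i (Set.mem_univ i) hiW
      have hiE : i ∉ E := by
        intro hiE
        refine hiM ⟨hiE, hiX, hnb.mono ?_⟩
        rintro k ⟨hk, hik⟩
        exact ⟨Set.mem_univ k, hik, fun h' => hKE k hk h'.2⟩
      rintro u ⟨-, hu⟩ v ⟨-, hv⟩
      have hnM : ∀ u, del S (E \ X) i u → u ∉ M := by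
        intro u hu huM
        exact hiW (hM2 u huM i (hM1 u huM i (del_symm hs _ _ _ hu))).1
      exact ⟨hnb u ⟨Set.mem_univ u, hu.1, fun h' => hiE h'.1⟩ v
        ⟨Set.mem_univ v, hv.1, fun h' => hiE h'.1⟩, hnM u hu, hnM v hv⟩

end Pool.Agent.Lib.MP_23961f_co.WC
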